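import Pool.Agent.P.MP_32de40_an.Modulus

set_option autoImplicit false

open Complex Set Metric Filter Topology MeasureTheory ComplexConjugate

namespace Pool.Agent.P.MP_32de40_an

/-- A Blaschke factor. -/
noncomputable def bf (a z : ℂ) : ℂ := (a - z) / (1 - conj a * z)

theorem bf_id (a z : ℂ) :
    ‖1 - conj a * z‖ ^ 2 - ‖a - z‖ ^ 2 = (1 - ‖a‖ ^ 2) * (1 - ‖z‖ ^ 2) := by
  simp only [← normSq_eq_norm_sq, normSq_apply, sub_re, one_re, mul_re, conj_re, conj_im,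
    sub_im, one_im, mul_im]
  ring

theorem den_ge (a z : ℂ) : 1 - ‖a‖ * ‖z‖ ≤ ‖1 - conj a * z‖ := by
  have h1 := norm_sub_norm_le (1:ℂ) (conj a * z)
  rwa [norm_one, norm_mul, norm_conj] at h1

theorem den_ge_left {a z : ℂ} (hz : ‖z‖ ≤ 1) : 1 - ‖a‖ ≤ ‖1 - conj a * z‖ := by
  have := den_ge a z
  nlinarith [norm_nonneg a]

theorem den_ge_right {a z : ℂ} (ha : ‖a‖ ≤ 1) : 1 - ‖z‖ ≤ ‖1 - conj a * z‖ := by
  have := den_ge a z
  nlinarith [norm_nonneg z]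

theorem den_ge_dist {a z : ℂ} (ha : ‖a‖ ≤ 1) (hz : ‖z‖ ≤ 1) :
    ‖a - z‖ ≤ ‖1 - conj a * z‖ := by
  rw [← sq_le_sq₀ (norm_nonneg _) (norm_nonneg _)]
  have h1 : 0 ≤ 1 - ‖a‖ ^ 2 := by nlinarith [norm_nonneg a]
  have h2 : 0 ≤ 1 - ‖z‖ ^ 2 := by nlinarith [norm_nonneg z]
  nlinarith [bf_id a z, mul_nonneg h1 h2]

theorem bf_sq {a z : ℂ} (ha : ‖a‖ < 1) (hz : ‖z‖ ≤ 1) :
    ‖bf a z‖ ^ 2 = 1 - (1 - ‖a‖ ^ 2) * (1 - ‖z‖ ^ 2) / ‖1 - conj a * z‖ ^ 2 := by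
  have h0 : 0 < ‖1 - conj a * z‖ := by linarith [den_ge_left (a := a) hz]
  rw [bf, norm_div, div_pow, ← bf_id, sub_div, div_self (pow_pos h0 2).ne']
  ring

theorem norm_bf_le {a z : ℂ} (ha : ‖a‖ < 1) (hz : ‖z‖ ≤ 1) : ‖bf a z‖ ≤ 1 := by
  have h0 : 0 < ‖1 - conj a * z‖ := by linarith [den_ge_left (a := a) hz]
  rw [bf, norm_div, div_le_one h0]
  exact den_ge_dist ha.le hz

theorem norm_bf_eq {a z : ℂ} (ha : ‖a‖ < 1) (hz : ‖z‖ = 1) : ‖bf a z‖ = 1 := by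
  have h := bf_sq ha hz.le
  rw [hz] at h
  simp only [one_pow, sub_self, mul_zero, zero_div, sub_zero] at h
  have h2 := norm_nonneg (bf a z)
  nlinarith

/-- Far from the zero the factor is close to the circle. -/
theorem bf_far {a z : ℂ} (ha : ‖a‖ < 1) (hz : ‖z‖ ≤ 1) {d : ℝ} (hd : 0 < d)
    (hdz : d ≤ ‖a - z‖) : 1 - 4 * (1 - ‖a‖) / d ≤ ‖bf a z‖ ^ 2 := by
  rw [bf_sq ha hz]
  set D := ‖1 - conj a * z‖ with hD
  have h1 : d ≤ D := hdz.trans (den_ge_dist ha.le hz)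
  have h2 : 1 - ‖z‖ ≤ D := den_ge_right ha.le
  have hD0 : 0 < D := hd.trans_le h1
  have h3 : 1 - ‖a‖ ^ 2 ≤ 2 * (1 - ‖a‖) := by nlinarith
  have h4 : 1 - ‖z‖ ^ 2 ≤ 2 * D := by nlinarith
  have h5 : 0 ≤ 1 - ‖z‖ ^ 2 := by nlinarith [norm_nonneg z]
  have h6 : 0 ≤ 1 - ‖a‖ := by linarith
  have h7 : (1 - ‖a‖ ^ 2) * (1 - ‖z‖ ^ 2) / D ^ 2 ≤ 4 * (1 - ‖a‖) / d := by
    calc (1 - ‖a‖ ^ 2) * (1 - ‖z‖ ^ 2) / D ^ 2 ≤ (2 * (1 - ‖a‖)) * (2 * D) / D ^ 2 := by gcongr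
      _ = 4 * (1 - ‖a‖) / D := by field_simp; ring
      _ ≤ _ := by gcongr
  linarith

/-- Much closer to the circle than the zero, the factor is not small. -/
theorem bf_near {a z : ℂ} (ha : ‖a‖ < 1) (hz : ‖z‖ ≤ 1)
    (h : 1 - ‖z‖ ≤ (1 - ‖a‖) / 8) : 1 / 2 ≤ ‖bf a z‖ ^ 2 := by
  rw [bf_sq ha hz]
  set D := ‖1 - conj a * z‖ with hD
  have h2 : 1 - ‖a‖ ≤ D := den_ge_left hz
  have h6 : 0 < 1 - ‖a‖ := by linarith
  have h3 : 1 - ‖a‖ ^ 2 ≤ 2 * (1 - ‖a‖) := by nlinarith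
  have h4 : 1 - ‖z‖ ^ 2 ≤ (1 - ‖a‖) / 4 := by nlinarith
  have h5 : 0 ≤ 1 - ‖z‖ ^ 2 := by nlinarith [norm_nonneg z]
  have h7 : (1 - ‖a‖ ^ 2) * (1 - ‖z‖ ^ 2) / D ^ 2 ≤ 1 / 2 := by
    calc (1 - ‖a‖ ^ 2) * (1 - ‖z‖ ^ 2) / D ^ 2
        ≤ (2 * (1 - ‖a‖)) * ((1 - ‖a‖) / 4) / (1 - ‖a‖) ^ 2 := by gcongr
      _ = 1 / 2 := by field_simp; ring
  linarith

theorem one_sub_sum_le_prod (y x : ℕ → ℝ) (hx : ∀ k, 0 ≤ x k) (hy0 : ∀ k, 0 ≤ y k)
    (hy : ∀ k, 1 - x k ≤ y k) (n : ℕ) :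
    1 - ∑ k ∈ Finset.range n, x k ≤ ∏ k ∈ Finset.range n, y k := by
  induction n with
  | zero => simp
  | succ n ih =>
    rw [Finset.sum_range_succ, Finset.prod_range_succ]
    have hS : 0 ≤ ∑ k ∈ Finset.range n, x k := Finset.sum_nonneg fun k _ => hx k
    have hP : 0 ≤ ∏ k ∈ Finset.range n, y k := Finset.prod_nonneg fun k _ => hy0 k
    by_cases h : 0 ≤ 1 - x n
    · calc 1 - (∑ k ∈ Finset.range n, x k + x n)
          ≤ (1 - ∑ k ∈ Finset.range n, x k) * (1 - x n) := by nlinarith [hx n]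
        _ ≤ (∏ k ∈ Finset.range n, y k) * (1 - x n) := by gcongr
        _ ≤ _ := mul_le_mul_of_nonneg_left (hy n) hP
    · have := mul_nonneg hP (hy0 n)
      linarith

/-- Local convergence of a Blaschke product whose zeros tend to `1` fast. -/
theorem local_prod {a : ℕ → ℂ} (ha : ∀ k, ‖a k‖ < 1) (hs : Summable fun k => ‖1 - a k‖)
    {z0 : ℂ} (hz0 : ‖z0‖ ≤ 1) (hne : z0 ≠ 1) :
    (∃ r > (0:ℝ), DifferentiableOn ℂ (fun z => ∏' k, bf (a k) z) (ball z0 r)) ∧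
      Tendsto (fun n => ∏ k ∈ Finset.range n, bf (a k) z0) atTop (𝓝 (∏' k, bf (a k) z0)) := by
  have ha1 : Tendsto a atTop (𝓝 1) := by
    rw [tendsto_iff_norm_sub_tendsto_zero]
    simpa [norm_sub_rev] using hs.tendsto_atTop_zero
  have hpos : ∀ k, 0 < ‖1 - conj (a k) * z0‖ := fun k => by
    linarith [den_ge_left (a := a k) hz0, ha k]
  have hlim : Tendsto (fun k => ‖1 - conj (a k) * z0‖⁻¹) atTop (𝓝 ‖1 - conj 1 * z0‖⁻¹) := by
    apply Tendsto.inv₀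
    · exact (((continuous_conj.tendsto 1).comp ha1).mul_const z0).const_sub 1 |>.norm
    · simp only [map_one, one_mul]
      exact norm_ne_zero_iff.mpr (sub_ne_zero.mpr hne.symm)
  obtain ⟨M, hM⟩ := hlim.bddAbove_range
  have hM' : ∀ k, ‖1 - conj (a k) * z0‖⁻¹ ≤ M := fun k => hM ⟨k, rfl⟩
  have hM0 : 0 < M := (inv_pos.mpr (hpos 0)).trans_le (hM' 0)
  set c : ℝ := min (M⁻¹ / 2) 1 with hc
  have hc0 : 0 < c := lt_min (by positivity) one_pos
  have hc1 : c ≤ 1 := min_le_right _ _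
  have hc2 : 2 * c ≤ M⁻¹ := by linarith [min_le_left (M⁻¹ / 2) 1]
  have hden : ∀ k, ∀ z ∈ ball z0 c, c ≤ ‖1 - conj (a k) * z‖ := by
    intro k z hz
    rw [mem_ball, dist_eq_norm] at hz
    have h1 : M⁻¹ ≤ ‖1 - conj (a k) * z0‖ := inv_le_of_inv_le₀ (hpos k) (hM' k)
    have h2 : 1 - conj (a k) * z0 = (1 - conj (a k) * z) + conj (a k) * (z - z0) := by ring
    have h3 : ‖conj (a k) * (z - z0)‖ ≤ c := by
      rw [norm_mul, norm_conj]
      nlinarith [ha k, norm_nonneg (a k), norm_nonneg (z - z0)]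
    have h4 := norm_add_le (1 - conj (a k) * z) (conj (a k) * (z - z0))
    rw [← h2] at h4
    linarith
  have hne' : ∀ k, ∀ z ∈ ball z0 c, 1 - conj (a k) * z ≠ 0 := fun k z hz =>
    norm_pos_iff.mp (hc0.trans_le (hden k z hz))
  have hdiff : ∀ k, DifferentiableOn ℂ (bf (a k)) (ball z0 c) := by
    intro k
    unfold bf
    exact DifferentiableOn.div (by fun_prop) (by fun_prop) (hne' k)
  have hbd : ∀ k, ∀ z ∈ ball z0 c, ‖bf (a k) z - 1‖ ≤ 3 / c * ‖1 - a k‖ := by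
    intro k z hz
    have hz2 : ‖z‖ ≤ 2 := by
      rw [mem_ball, dist_eq_norm] at hz
      have := norm_le_insert' z z0
      linarith
    have h1 : bf (a k) z - 1 = -((1 - a k) + conj (1 - a k) * z) / (1 - conj (a k) * z) := by
      have := hne' k z hz
      rw [bf, map_sub, map_one, div_sub_one this]
      ring
    have h2 : ‖(1 - a k) + conj (1 - a k) * z‖ ≤ 3 * ‖1 - a k‖ := by
      refine (norm_add_le _ _).trans ?_
      rw [norm_mul, norm_conj]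
      nlinarith [norm_nonneg (1 - a k)]
    rw [h1, norm_div, norm_neg]
    calc _ ≤ 3 * ‖1 - a k‖ / c := by gcongr; exact hden k z hz
      _ = _ := by ring
  have hP := Summable.hasProdLocallyUniformlyOn_nat_one_add (f := fun k z => bf (a k) z - 1)
    isOpen_ball (hs.mul_left (3 / c)) (Eventually.of_forall hbd)
    (fun k => ((hdiff k).sub_const 1).continuousOn)
  simp only [add_sub_cancel] at hP
  refine ⟨⟨c, hc0, ?_⟩, (hP.hasProd (mem_ball_self hc0)).tendsto_prod_nat⟩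
  refine hP.tendstoLocallyUniformlyOn_finsetRange.differentiableOn
    (Eventually.of_forall fun n => ?_) isOpen_ball
  exact DifferentiableOn.fun_finsetProd fun k _ => hdiff k

/-- A thin Blaschke product with zeros at prescribed depth and prescribed distance from `1`. -/
theorem exists_blaschke {δ ρ : ℕ → ℝ} (hδ : ∀ k, 0 < δ k) (hρ1 : ρ 0 ≤ 1)
    (hlac : ∀ k, 3 * ρ (k + 1) ≤ ρ k) (hthin : ∀ k, 128 * 2 ^ k * δ k ≤ ρ k) :
    ∃ B : ℂ → ℂ, DifferentiableOn ℂ B (ball 0 1) ∧ (∀ z ∈ ball (0:ℂ) 1, ‖B z‖ ≤ 1) ∧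
      (∀ ζ : ℂ, ‖ζ‖ = 1 → ζ ≠ 1 → ‖B ζ‖ = 1 ∧ ∃ r > (0:ℝ), DifferentiableOn ℂ B (ball ζ r)) ∧
      (∀ z ∈ ball (0:ℂ) 1, ‖B z‖ < 1 / 2 → ∃ k, ‖1 - z‖ ≤ 2 * ρ k ∧ δ k / 8 ≤ 1 - ‖z‖) ∧
      (∀ k, δ k < 1 ∧ ∃ ζ : ℂ, ‖ζ‖ = 1 ∧ ‖1 - ζ‖ = ρ k ∧ B (((1 - δ k : ℝ) : ℂ) * ζ) = 0) := by
  have h2k : ∀ k : ℕ, (1:ℝ) ≤ 2 ^ k := fun k => one_le_pow₀ (by norm_num)
  have hδρ : ∀ k, 128 * δ k ≤ ρ k := fun k => by nlinarith [hthin k, h2k k, hδ k]
  have hρ0 : ∀ k, 0 < ρ k := fun k => by linarith [hδρ k, hδ k]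
  have hanti : Antitone ρ := antitone_nat_of_succ_le fun k => by linarith [hlac k, hρ0 (k + 1)]
  have hρle : ∀ k, ρ k ≤ 1 := fun k => (hanti (Nat.zero_le k)).trans hρ1
  have hgeo : ∀ k, ρ k ≤ (1 / 2) ^ k := by
    intro k
    induction k with
    | zero => simpa using hρ1
    | succ k ih =>
      rw [pow_succ]
      linarith [hlac k, hρ0 (k + 1)]
  have hex : ∀ k, ∃ ζ : ℂ, ‖ζ‖ = 1 ∧ ‖1 - ζ‖ = ρ k := by
    intro k
    refine ⟨exp (I * ((2 * Real.arcsin (ρ k / 2) : ℝ) : ℂ)), norm_exp_I_mul_ofReal _, ?_⟩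
    rw [norm_sub_rev, norm_exp_I_mul_ofReal_sub_one, mul_div_cancel_left₀ _ two_ne_zero,
      Real.sin_arcsin (by linarith [hρ0 k]) (by linarith [hρle k]),
      Real.norm_of_nonneg (by linarith [hρ0 k])]
    ring
  choose ζ hζ1 hζρ using hex
  set a : ℕ → ℂ := fun k => ((1 - δ k : ℝ) : ℂ) * ζ k with ha
  have hδ1 : ∀ k, δ k < 1 := fun k => by linarith [hδρ k, hρle k, hδ k]
  have hna : ∀ k, ‖a k‖ = 1 - δ k := fun k => by
    simp only [ha]
    rw [norm_mul, hζ1, mul_one, norm_real, Real.norm_of_nonneg (by linarith [hδ1 k])]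
  have ha1 : ∀ k, ‖a k‖ < 1 := fun k => by linarith [hna k, hδ k]
  have haζ : ∀ k, ‖ζ k - a k‖ = δ k := fun k => by
    have : ζ k - a k = ((δ k : ℝ) : ℂ) * ζ k := by
      simp only [ha]
      push_cast
      ring
    rw [this, norm_mul, hζ1, mul_one, norm_real, Real.norm_of_nonneg (hδ k).le]
  have hs : Summable fun k => ‖1 - a k‖ := by
    refine Summable.of_nonneg_of_le (fun k => norm_nonneg _) (fun k => ?_)
      (summable_geometric_two.mul_left 2)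
    have := norm_sub_le_norm_sub_add_norm_sub 1 (ζ k) (a k)
    linarith [hζρ k, haζ k, hδρ k, hgeo k, hδ k]
  have hnorm : ∀ z : ℂ, ‖z‖ ≤ 1 → z ≠ 1 →
      Tendsto (fun n => ∏ k ∈ Finset.range n, ‖bf (a k) z‖) atTop (𝓝 ‖∏' k, bf (a k) z‖) := by
    intro z hz hne
    simpa only [norm_prod] using (local_prod ha1 hs hz hne).2.norm
  have hball : ∀ z ∈ ball (0:ℂ) 1, ‖z‖ ≤ 1 ∧ z ≠ 1 := by
    intro z hz
    rw [mem_ball_zero_iff] at hz
    refine ⟨hz.le, fun h => ?_⟩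
    simp [h] at hz
  refine ⟨fun z => ∏' k, bf (a k) z, fun z hz => ?_, fun z hz => ?_, fun η hη hne => ⟨?_, ?_⟩,
    fun z hz hsm => ?_, fun k => ⟨hδ1 k, ζ k, hζ1 k, hζρ k, ?_⟩⟩
  · obtain ⟨r, hr, hd⟩ := (local_prod ha1 hs (hball z hz).1 (hball z hz).2).1
    exact (hd.differentiableAt (ball_mem_nhds z hr)).differentiableWithinAt
  · refine le_of_tendsto' (hnorm z (hball z hz).1 (hball z hz).2) fun n => ?_
    exact Finset.prod_le_one (fun k _ => norm_nonneg _)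
      fun k _ => norm_bf_le (ha1 k) (hball z hz).1
  · have h := hnorm η hη.le hne
    simp only [norm_bf_eq (ha1 _) hη, Finset.prod_const_one] at h
    exact tendsto_nhds_unique h tendsto_const_nhds
  · exact (local_prod ha1 hs hη.le hne).1
  · by_contra hcon
    push Not at hcon
    have hz1 := (hball z hz).1
    have htri : ∀ k, ‖z - ζ k‖ < ρ k / 2 → ρ k / 2 < ‖1 - z‖ ∧ ‖1 - z‖ < 3 * ρ k / 2 := by
      intro k hk
      have h1 := norm_sub_le_norm_sub_add_norm_sub 1 z (ζ k)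
      have h2 := norm_sub_le_norm_sub_add_norm_sub 1 (ζ k) z
      rw [norm_sub_rev (ζ k) z] at h2
      constructor <;> linarith [hζρ k]
    have huniq : ∃ j, ∀ k, k ≠ j → ρ k / 2 ≤ ‖z - ζ k‖ := by
      by_cases h : ∃ j, ‖z - ζ j‖ < ρ j / 2
      · obtain ⟨j, hj⟩ := h
        refine ⟨j, fun k hk => ?_⟩
        by_contra hk2
        push Not at hk2
        have h1 := htri j hj
        have h2 := htri k hk2
        rcases lt_or_gt_of_ne hk with h3 | h3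
        · have := hanti (Nat.succ_le_of_lt h3)
          linarith [hlac k, h1.2, h2.1]
        · have := hanti (Nat.succ_le_of_lt h3)
          linarith [hlac j, h1.1, h2.2]
      · push Not at h
        exact ⟨0, fun k _ => h k⟩
    obtain ⟨j, hj⟩ := huniq
    have hfar : ∀ k, ρ k / 2 ≤ ‖z - ζ k‖ → 1 - 1 / 8 * (1 / 2) ^ k ≤ ‖bf (a k) z‖ ^ 2 := by
      intro k hk
      have h1 := norm_sub_le_norm_sub_add_norm_sub z (a k) (ζ k)
      rw [norm_sub_rev (a k) (ζ k), haζ k, norm_sub_rev z (a k)] at h1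
      have h2 := bf_far (ha1 k) hz1 (d := ρ k / 4) (by linarith [hρ0 k])
        (by linarith [hδρ k, hδ k])
      refine le_trans ?_ h2
      have h3 : 4 * (1 - ‖a k‖) / (ρ k / 4) ≤ 1 / 8 * (1 / 2) ^ k := by
        rw [hna, div_le_iff₀ (by linarith [hρ0 k]), one_div_pow]
        have h4 := hthin k
        have h5 : (0:ℝ) < 2 ^ k := by positivity
        have h6 : 1 / 8 * (1 / 2 ^ k) * (ρ k / 4) = ρ k / (32 * 2 ^ k) := by field_simp; ring
        rw [h6, le_div_iff₀ (by positivity)]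
        nlinarith
      linarith
    have hall : ∀ k, 1 - (1 / 8 * (1 / 2) ^ k + if k = j then 1 / 2 else 0) ≤
        ‖bf (a k) z‖ ^ 2 := by
      intro k
      have h0 : (0:ℝ) ≤ 1 / 8 * (1 / 2) ^ k := by positivity
      split_ifs with hk
      · by_cases h : ρ k / 2 ≤ ‖z - ζ k‖
        · linarith [hfar k h]
        · push Not at h
          have h1 := hcon k (by linarith [(htri k h).2, hρ0 k])
          have h2 := bf_near (ha1 k) hz1 (by rw [hna]; linarith)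
          linarith
      · linarith [hfar k (hj k hk)]
    have hlow : ∀ n, (1 / 2 : ℝ) ≤ ∏ k ∈ Finset.range n, ‖bf (a k) z‖ := by
      intro n
      have h1 := one_sub_sum_le_prod (fun k => ‖bf (a k) z‖ ^ 2)
        (fun k => 1 / 8 * (1 / 2) ^ k + if k = j then 1 / 2 else 0)
        (fun k => by split_ifs <;> positivity) (fun k => sq_nonneg _) hall n
      rw [Finset.sum_add_distrib, ← Finset.mul_sum, Finset.prod_pow, Finset.sum_ite_eq'] at h1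
      have h2 := sum_geometric_two_le n
      have h3 : (if j ∈ Finset.range n then (1 / 2 : ℝ) else 0) ≤ 1 / 2 := by
        split_ifs <;> norm_num
      rw [← sq_le_sq₀ (by norm_num) (Finset.prod_nonneg fun k _ => norm_nonneg _)]
      linarith
    have := ge_of_tendsto' (hnorm z hz1 (hball z hz).2) hlow
    linarith
  · have hne : a k ≠ 1 := fun h => by simpa [h] using ha1 k
    have h := (local_prod ha1 hs (ha1 k).le hne).2
    refine tendsto_nhds_unique h (tendsto_const_nhds.congr' ?_)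
    filter_upwards [eventually_gt_atTop k] with n hn
    exact (Finset.prod_eq_zero (Finset.mem_range.mpr hn) (by simp [bf])).symm

end Pool.Agent.P.MP_32de40_an
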