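import Pool.Agent.P.MP_32de40_an.Blaschke

set_option autoImplicit false

open Complex Set Metric Filter Topology MeasureTheory ComplexConjugate

namespace Pool.Agent.P.MP_32de40_an

theorem le_lim {ω : ℝ → ℝ} {L : ℝ} (hm : MonotoneOn ω (Ioo 0 1))
    (h1 : Tendsto ω (𝓝[<] 1) (𝓝 L)) {s : ℝ} (hs : s ∈ Ioo (0:ℝ) 1) : ω s ≤ L := by
  refine ge_of_tendsto h1 ?_
  filter_upwards [Ioo_mem_nhdsLT hs.2] with t ht
  exact hm hs ⟨hs.1.trans ht.1, ht.2⟩ ht.1.le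

/-- A modulus that is not doubling jumps by arbitrarily large factors at arbitrarily small
scales. -/
theorem exists_jump {ω : ℝ → ℝ} {L : ℝ} (hm : MonotoneOn ω (Ioo 0 1))
    (hp : ∀ t ∈ Ioo (0:ℝ) 1, 0 < ω t) (h0 : Tendsto ω (𝓝[>] 0) (𝓝 0))
    (h1 : Tendsto ω (𝓝[<] 1) (𝓝 L))
    (hnd : ¬ ∃ K : ℝ, ∀ t ∈ Ioo (0:ℝ) (1 / 2), ω (2 * t) ≤ K * ω t) (K η : ℝ) :
    ∃ s : ℝ, 0 < η → s ∈ Ioo (0:ℝ) 1 ∧ K * ω (s / 2) ≤ ω s ∧ ω s ≤ η := by
  by_cases hη : 0 < η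
  swap
  · exact ⟨0, fun h => absurd h hη⟩
  obtain ⟨t0, ht0η, ht0⟩ := ((h0.eventually (gt_mem_nhds hη)).and
    (Ioo_mem_nhdsGT (by norm_num : (0:ℝ) < 1))).exists
  have hh : t0 / 2 ∈ Ioo (0:ℝ) 1 := ⟨by linarith [ht0.1], by linarith [ht0.2]⟩
  have hw := hp _ hh
  push Not at hnd
  obtain ⟨t, ht, hK⟩ := hnd (max K (L / ω (t0 / 2)))
  have ht1 : t ∈ Ioo (0:ℝ) 1 := ⟨ht.1, by linarith [ht.2]⟩
  have ht2 : 2 * t ∈ Ioo (0:ℝ) 1 := ⟨by linarith [ht.1], by linarith [ht.2]⟩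
  have hwt := hp t ht1
  refine ⟨2 * t, fun _ => ⟨ht2, ?_, ?_⟩⟩
  · rw [mul_div_cancel_left₀ _ two_ne_zero]
    exact (mul_le_mul_of_nonneg_right (le_max_left _ _) hwt.le).trans hK.le
  · by_contra hcon
    push Not at hcon
    have h2 : t0 ≤ 2 * t := by
      by_contra h3
      push Not at h3
      linarith [hm ht2 ht0 h3.le]
    have h3 : ω (t0 / 2) ≤ ω t := hm hh ht1 (by linarith)
    have hL := le_lim hm h1 ht2
    have hL0 : 0 ≤ L / ω (t0 / 2) := div_nonneg ((hp _ ht2).le.trans hL) hw.le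
    have h4 : L ≤ max K (L / ω (t0 / 2)) * ω t :=
      calc L = L / ω (t0 / 2) * ω (t0 / 2) := by field_simp
        _ ≤ L / ω (t0 / 2) * ω t := by gcongr
        _ ≤ _ := mul_le_mul_of_nonneg_right (le_max_right _ _) hwt.le
    linarith

theorem ae_exp_ne_one : ∀ᵐ θ : ℝ, exp ((θ : ℂ) * I) ≠ 1 := by
  have hc : (range fun n : ℤ => (n : ℝ) * (2 * Real.pi)).Countable := countable_range _
  filter_upwards [hc.ae_notMem volume] with θ hθ h
  apply hθ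
  obtain ⟨n, hn⟩ := exp_eq_one_iff.mp h
  refine ⟨n, ?_⟩
  have h2 := congrArg im hn
  simpa using h2.symm

/-- For a non-degenerate modulus that is not doubling, (E) does not imply (S). -/
theorem not_equiv {ω : ℝ → ℝ} {L : ℝ} (hm : MonotoneOn ω (Ioo 0 1))
    (hp : ∀ t ∈ Ioo (0:ℝ) 1, 0 < ω t) (h0 : Tendsto ω (𝓝[>] 0) (𝓝 0))
    (h1 : Tendsto ω (𝓝[<] 1) (𝓝 L))
    (hnd : ¬ ∃ K : ℝ, ∀ t ∈ Ioo (0:ℝ) (1 / 2), ω (2 * t) ≤ K * ω t)
    {c : ℝ} (hc0 : 0 < c) (hc : ∀ t ∈ Ioo (0:ℝ) 1, c * t ≤ ω t) :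
    ∃ Θ : ℂ → ℂ, DifferentiableOn ℂ Θ (ball 0 1) ∧ (∀ z ∈ ball (0:ℂ) 1, ‖Θ z‖ ≤ 1) ∧
      (∀ᵐ θ : ℝ, ∃ w : ℂ, ‖w‖ = 1 ∧
        Tendsto (fun r : ℝ => Θ ((r : ℂ) * exp ((θ : ℂ) * I))) (𝓝[<] 1) (𝓝 w)) ∧
      (∃ ε ∈ Ioo (0:ℝ) 1, ∃ C : ℝ, ∀ z ∈ ball (0:ℂ) 1, ‖Θ z‖ < ε →
        ‖1 - z‖ ≤ C * (if 1 - ‖z‖ < 1 then ω (1 - ‖z‖) else L)) ∧
      ¬ ∃ C : ℝ, ∀ ζ : ℂ, ‖ζ‖ = 1 → ∀ r > (0:ℝ), ∀ g : ℂ → ℂ,
        DifferentiableOn ℂ g (ball ζ r) → EqOn g Θ (ball ζ r ∩ ball 0 1) →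
        ‖1 - ζ‖ ≤ C * (if 1 < ‖deriv g ζ‖ then ω (1 / ‖deriv g ζ‖) else L) := by
  choose F hF using exists_jump hm hp h0 h1 hnd
  set K : ℕ → ℝ := fun k => 2048 * 2 ^ k / c with hK
  let s : ℕ → ℝ := fun n => Nat.rec (F (K 0) 1) (fun k x => F (K (k + 1)) (ω x / 3)) n
  have hs0 : s 0 = F (K 0) 1 := rfl
  have hsS : ∀ k, s (k + 1) = F (K (k + 1)) (ω (s k) / 3) := fun k => rfl
  have hs : ∀ k, s k ∈ Ioo (0:ℝ) 1 := by
    intro k
    induction k with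
    | zero => exact (hF _ _ one_pos).1
    | succ k ih => exact (hF _ _ (by linarith [hp _ ih])).1
  have hsh : ∀ k, s k / 2 ∈ Ioo (0:ℝ) 1 := fun k =>
    ⟨by linarith [(hs k).1], by linarith [(hs k).2]⟩
  have hjump : ∀ k, K k * ω (s k / 2) ≤ ω (s k) := by
    intro k
    cases k with
    | zero => exact (hF _ _ one_pos).2.1
    | succ k => exact (hF _ _ (by linarith [hp _ (hs k)])).2.1
  have hlac : ∀ k, 3 * ω (s (k + 1)) ≤ ω (s k) := by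
    intro k
    have := (hF (K (k + 1)) (ω (s k) / 3) (by linarith [hp _ (hs k)])).2.2
    rw [← hsS] at this
    linarith
  have hthin : ∀ k, 128 * 2 ^ k * (8 * s k) ≤ ω (s k) := by
    intro k
    refine le_trans ?_ (hjump k)
    calc 128 * 2 ^ k * (8 * s k) = K k * (c * (s k / 2)) := by
          simp only [hK]
          field_simp
          ring
      _ ≤ _ := mul_le_mul_of_nonneg_left (hc _ (hsh k)) (by positivity)
  obtain ⟨B, hBd, hBb, hBc, hBl, hBz⟩ := exists_blaschke (δ := fun k => 8 * s k)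
    (ρ := fun k => ω (s k)) (fun k => by linarith [(hs k).1]) (hF _ _ one_pos).2.2 hlac hthin
  refine ⟨fun z => B z ^ 128, hBd.pow 128, fun z hz => ?_, ?_, ?_, ?_⟩
  · rw [norm_pow]
    exact pow_le_one₀ (norm_nonneg _) (hBb z hz)
  · filter_upwards [ae_exp_ne_one] with θ hθ
    obtain ⟨hB1, r, hr, hd⟩ := hBc _ (norm_exp_ofReal_mul_I θ) hθ
    refine ⟨B (exp ((θ : ℂ) * I)) ^ 128, by rw [norm_pow, hB1, one_pow], ?_⟩
    have hcont : ContinuousAt (fun t : ℝ => (t : ℂ) * exp ((θ : ℂ) * I)) 1 := by fun_prop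
    have h2 := ContinuousAt.comp_of_eq
      (hd.continuousOn.continuousAt (ball_mem_nhds _ hr)) hcont (by simp)
    have h3 := h2.tendsto.mono_left (nhdsWithin_le_nhds (s := Iio (1:ℝ)))
    exact Tendsto.pow (by simpa [Function.comp_def] using h3) 128
  · refine ⟨(1 / 2) ^ 128, ⟨by positivity, pow_lt_one₀ (by norm_num) (by norm_num) (by norm_num)⟩,
      2, fun z hz hsm => ?_⟩
    rw [norm_pow] at hsm
    obtain ⟨k, hk1, hk2⟩ := hBl z hz (lt_of_pow_lt_pow_left₀ 128 (by norm_num) hsm)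
    refine hk1.trans (mul_le_mul_of_nonneg_left ?_ (by norm_num))
    split_ifs with h
    · exact hm (hs k) ⟨by linarith [(hs k).1], h⟩ (by linarith)
    · exact le_lim hm h1 (hs k)
  · rintro ⟨C, hC⟩
    have hall : ∀ k, K k ≤ |C| := by
      intro k
      obtain ⟨hδ1, ζ, hζ1, hζρ, hζ0⟩ := hBz k
      have hne : ζ ≠ 1 := by
        intro h
        have := hp _ (hs k)
        simp [h] at hζρ
        linarith
      obtain ⟨hB1, r, hr, hd⟩ := hBc ζ hζ1 hne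
      have hsk := (hs k).1
      have hJ := le_norm_deriv hBd hBb hζ1 (ρ := 1 - 8 * s k) (by linarith) (by linarith)
        (by rw [hζ0]; norm_num) hr hd (fun _ _ => rfl) hB1
      have hder : ‖deriv (fun z => B z ^ 128) ζ‖ = 128 * ‖deriv B ζ‖ := by
        rw [deriv_fun_pow (hd.differentiableAt (ball_mem_nhds ζ hr)), norm_mul, norm_mul,
          norm_pow, hB1]
        simp
      have h2 := hC ζ hζ1 r hr (fun z => B z ^ 128) (hd.pow 128) (fun _ _ => rfl)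
      set D := ‖deriv (fun z => B z ^ 128) ζ‖ with hD
      have h3 : 2 / s k ≤ D := by
        rw [hder]
        calc 2 / s k = 128 * (1 / (8 * (1 - (1 - 8 * s k)))) := by field_simp; ring
          _ ≤ _ := by gcongr
      have h4 : 1 < 2 / s k := by
        rw [one_lt_div hsk]
        linarith [(hs k).2]
      have hD1 : 1 < D := h4.trans_le h3
      have hD0 : 0 < D := by linarith
      have h5 : 1 / D ≤ s k / 2 := by
        rw [div_le_iff₀ hsk] at h3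
        rw [div_le_div_iff₀ hD0 two_pos]
        linarith
      have hmem : 1 / D ∈ Ioo (0:ℝ) 1 := ⟨by positivity, h5.trans_lt (hsh k).2⟩
      rw [if_pos hD1, hζρ] at h2
      have h6 : C * ω (1 / D) ≤ |C| * ω (s k / 2) :=
        mul_le_mul (le_abs_self C) (hm hmem (hsh k) h5) (hp _ hmem).le (abs_nonneg C)
      exact le_of_mul_le_mul_right ((hjump k).trans (h2.trans h6)) (hp _ (hsh k))
    obtain ⟨k, hk⟩ := pow_unbounded_of_one_lt (|C| * c) (by norm_num : (1:ℝ) < 2)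
    have h2 := hall k
    simp only [hK] at h2
    rw [div_le_iff₀ hc0] at h2
    have h3 : (0:ℝ) < 2 ^ k := by positivity
    linarith

end Pool.Agent.P.MP_32de40_an
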