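import Pool.Agent.P.MP_32de40_an.Blaschke

set_option autoImplicit false

open Complex Set Metric Filter Topology MeasureTheory ComplexConjugate

namespace Pool.Agent.P.MP_32de40_an

/-- A positive monotone weight tending to `0` at `0`, with no regularity. -/
structure IsW (W : ℝ → ℝ) : Prop where
  pos : ∀ t, 0 < t → 0 < W t
  mono : ∀ s t, 0 < s → s ≤ t → W s ≤ W t
  lim : Tendsto W (𝓝[>] 0) (𝓝 0)

/-- The boundary modulus estimate at every scale, by chaining along an arc. -/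
theorem boundary_gen {W : ℝ → ℝ} (hW : IsW W) {f : ℂ → ℂ}
    (hc : ContinuousOn f (closedBall 0 1))
    (h : ∃ C : ℝ, ∃ δ₀ ∈ Set.Ioo (0:ℝ) 1, ∀ δ ∈ Set.Ioo 0 δ₀, ∀ x h : ℝ, |h| ≤ δ →
          ‖f (Complex.exp (((x + h : ℝ) : ℂ) * Complex.I))
            - f (Complex.exp ((x : ℂ) * Complex.I))‖ ≤ C * W δ) :
    ∃ A : ℝ, 0 ≤ A ∧ ∀ d : ℝ, 0 < d → ∀ ζ η : ℂ, ‖ζ‖ = 1 → ‖η‖ = 1 →
      ‖f η - f ζ‖ ≤ A * (1 + ‖η - ζ‖ / d) * W d := by
  obtain ⟨C, δ₀, hδ₀, h⟩ := h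
  obtain ⟨M, hM⟩ := (isCompact_closedBall (0:ℂ) 1).exists_bound_of_continuousOn hc
  have hM0 : 0 ≤ M := (norm_nonneg _).trans (hM 0 (by simp))
  have hW0 : 0 < W δ₀ := hW.pos _ hδ₀.1
  refine ⟨2 * |C| + 2 * M / W δ₀, by positivity, fun d hd ζ η hζ hη => ?_⟩
  have hWd := hW.pos d hd
  have hq : 0 ≤ ‖η - ζ‖ / d := by positivity
  by_cases hsmall : d < δ₀
  · have hchain : ∀ n : ℕ, ∀ x u : ℝ, |u| ≤ n * d →
        ‖f (exp (((x + u : ℝ) : ℂ) * I)) - f (exp ((x : ℂ) * I))‖ ≤ n * (|C| * W d) := by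
      intro n
      induction n with
      | zero =>
        intro x u hu
        have : u = 0 := by simpa using hu
        simp [this]
      | succ n ih =>
        intro x u hu
        have hn : (0:ℝ) < n + 1 := by positivity
        push_cast at hu ⊢
        have h1 : |u / (n + 1)| ≤ d := by
          rw [abs_div, abs_of_pos hn, div_le_iff₀ hn]
          linarith
        have h2 : |n * (u / (n + 1))| ≤ n * d := by
          rw [abs_mul, Nat.abs_cast]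
          gcongr
        have h3 := ih x _ h2
        have h4 := (h d ⟨hd, hsmall⟩ (x + n * (u / (n + 1))) _ h1).trans
          (mul_le_mul_of_nonneg_right (le_abs_self C) hWd.le)
        have e : x + n * (u / (n + 1)) + u / (n + 1) = x + u := by
          field_simp
          ring
        rw [e] at h4
        have h5 := norm_sub_le_norm_sub_add_norm_sub (f (exp (((x + u : ℝ) : ℂ) * I)))
          (f (exp (((x + n * (u / (n + 1)) : ℝ) : ℂ) * I))) (f (exp ((x : ℂ) * I)))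
        push_cast at h3 h4 h5
        linarith
    have hζ0 : ζ ≠ 0 := by
      intro h0
      simp [h0] at hζ
    have hη0 : η ≠ 0 := by
      intro h0
      simp [h0] at hη
    have hang : |(η / ζ).arg| ≤ 2 * ‖η - ζ‖ := by
      have h1 := angle_le_mul_norm_sub hη hζ
      rw [angle_eq_abs_arg hη0 hζ0] at h1
      refine h1.trans ?_
      gcongr
      linarith [Real.pi_le_four]
    have h1 := hchain ⌈2 * (‖η - ζ‖ / d)⌉₊ ζ.arg (η / ζ).arg (by
      refine hang.trans ?_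
      have h2 := Nat.le_ceil (2 * (‖η - ζ‖ / d))
      calc 2 * ‖η - ζ‖ = 2 * (‖η - ζ‖ / d) * d := by field_simp
        _ ≤ _ := by gcongr)
    have e1 : exp ((ζ.arg : ℂ) * I) = ζ := by simpa [hζ] using norm_mul_exp_arg_mul_I ζ
    have e2 : exp (((η / ζ).arg : ℂ) * I) = η / ζ := by
      simpa [hζ, hη] using norm_mul_exp_arg_mul_I (η / ζ)
    have e3 : exp (((ζ.arg + (η / ζ).arg : ℝ) : ℂ) * I) = η := by
      push_cast
      rw [add_mul, exp_add, e1, e2]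
      field_simp
    rw [e1, e3] at h1
    have h2 := (Nat.ceil_lt_add_one (by positivity : 0 ≤ 2 * (‖η - ζ‖ / d))).le
    calc ‖f η - f ζ‖ ≤ _ := h1
      _ ≤ (2 * (1 + ‖η - ζ‖ / d)) * (|C| * W d) := by gcongr; linarith
      _ = (2 * |C| + 0) * (1 + ‖η - ζ‖ / d) * W d := by ring
      _ ≤ _ := by gcongr; positivity
  · have h1 : W δ₀ ≤ W d := hW.mono _ _ hδ₀.1 (not_lt.mp hsmall)
    calc ‖f η - f ζ‖ ≤ ‖f η‖ + ‖f ζ‖ := norm_sub_le _ _
      _ ≤ M + M := add_le_add (hM η (by simp [hη])) (hM ζ (by simp [hζ]))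
      _ = (0 + 2 * M / W δ₀) * (1 + 0) * W δ₀ := by field_simp; ring
      _ ≤ _ := by gcongr; positivity

/-- The same estimate between an interior point and a boundary point. -/
theorem interior_gen {f : ℂ → ℂ}
    (hd : DifferentiableOn ℂ f (ball 0 1)) (hc : ContinuousOn f (closedBall 0 1))
    {A d : ℝ} (hA : 0 ≤ A) (hd0 : 0 < d) {ζ : ℂ} (hζ : ‖ζ‖ = 1)
    (h : ∀ η : ℂ, ‖η‖ = 1 → ‖f η - f ζ‖ ≤ (1 + ‖η - ζ‖ / d) * A)
    {z : ℂ} (hz : z ∈ ball (0:ℂ) 1) :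
    ‖f z - f ζ‖ ≤ 4 * (1 + ‖z - ζ‖ / d) * A := by
  rw [mem_ball_zero_iff] at hz
  have hden : ∀ η ∈ closedBall (0:ℂ) 1, 1 - conj z * η ≠ 0 := by
    intro η hη
    rw [mem_closedBall_zero_iff] at hη
    exact norm_pos_iff.mp (by linarith [den_ge_left (a := z) hη])
  set H : ℂ → ℂ := fun η => (f η - f ζ) * ((1 - ‖z‖ ^ 2 : ℝ) : ℂ) / (1 - conj z * η) with hH
  have hHd : DiffContOnCl ℂ H (ball 0 1) := by
    constructor
    · apply DifferentiableOn.div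
      · exact (hd.sub_const _).mul_const _
      · fun_prop
      · exact fun η hη => hden η (ball_subset_closedBall hη)
    · rw [closure_ball _ one_ne_zero]
      apply ContinuousOn.div
      · exact (hc.sub continuousOn_const).mul continuousOn_const
      · fun_prop
      · exact hden
  set δ := ‖z - ζ‖ with hδ
  have hδ1 : 1 - ‖z‖ ≤ δ := by
    have := norm_sub_norm_le ζ z
    rw [hζ, norm_sub_rev] at this
    exact this
  have hδ0 : 0 < δ := by linarith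
  have hz2 : 0 < 1 - ‖z‖ ^ 2 := by nlinarith [norm_nonneg z]
  have hbound : ∀ η ∈ frontier (ball (0:ℂ) 1), ‖H η‖ ≤ 4 * (1 + δ / d) * A := by
    intro η hη
    rw [frontier_ball _ one_ne_zero, mem_sphere_zero_iff_norm] at hη
    set ρ := ‖η - z‖ with hρ
    have hρ1 : 1 - ‖z‖ ≤ ρ := by
      have := norm_sub_norm_le η z
      rwa [hη] at this
    have hρ0 : 0 < ρ := by linarith
    have e1 : ‖1 - conj z * η‖ = ρ := by
      have h1 : (1 - conj z * η) = conj (η - z) * η := by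
        have : conj η * η = 1 := by
          rw [mul_comm, mul_conj, normSq_eq_norm_sq, hη]
          simp
        rw [map_sub, sub_mul, this]
      rw [h1, norm_mul, norm_conj, hη, mul_one]
    have h1 := h η hη
    have h2 : ‖η - ζ‖ ≤ ρ + δ := norm_sub_le_norm_sub_add_norm_sub η z ζ
    simp only [hH]
    rw [norm_div, norm_mul, e1, norm_real, Real.norm_of_nonneg hz2.le, div_le_iff₀ hρ0]
    have h3 : 1 - ‖z‖ ^ 2 ≤ 2 * (1 - ‖z‖) := by nlinarith [norm_nonneg z]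
    have h4 : (1 + (ρ + δ) / d) * (2 * (1 - ‖z‖)) ≤ 4 * (1 + δ / d) * ρ := by
      have e2 : (1 + (ρ + δ) / d) * (2 * (1 - ‖z‖)) = (d + ρ + δ) * (2 * (1 - ‖z‖)) / d := by
        field_simp
        ring
      have e3 : 4 * (1 + δ / d) * ρ = 4 * (d + δ) * ρ / d := by field_simp
      rw [e2, e3]
      apply div_le_div_of_nonneg_right _ hd0.le
      nlinarith
    calc ‖f η - f ζ‖ * (1 - ‖z‖ ^ 2) ≤ (1 + (ρ + δ) / d) * A * (2 * (1 - ‖z‖)) := by
          gcongr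
          exact h1.trans (by gcongr)
      _ = A * ((1 + (ρ + δ) / d) * (2 * (1 - ‖z‖))) := by ring
      _ ≤ A * (4 * (1 + δ / d) * ρ) := by gcongr
      _ = _ := by ring
  have := norm_le_of_forall_mem_frontier_norm_le isBounded_ball hHd hbound
    (subset_closure (mem_ball_zero_iff.mpr hz))
  have e2 : H z = f z - f ζ := by
    have h1 : (1 - conj z * z) = ((1 - ‖z‖ ^ 2 : ℝ) : ℂ) := by
      rw [mul_comm, mul_conj, normSq_eq_norm_sq]
      push_cast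
      ring
    simp only [hH]
    rw [h1, mul_div_assoc, div_self, mul_one]
    exact_mod_cast hz2.ne'
  rwa [e2] at this

theorem norm_bf_lt {a z : ℂ} (ha : ‖a‖ < 1) (hz : ‖z‖ < 1) : ‖bf a z‖ < 1 := by
  have h0 : 0 < ‖1 - conj a * z‖ := by linarith [den_ge_left (a := a) hz.le]
  have h1 : 0 < 1 - ‖a‖ ^ 2 := by nlinarith [norm_nonneg a]
  have h2 : 0 < 1 - ‖z‖ ^ 2 := by nlinarith [norm_nonneg z]
  have h3 : 0 < (1 - ‖a‖ ^ 2) * (1 - ‖z‖ ^ 2) / ‖1 - conj a * z‖ ^ 2 := by positivity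
  have h4 := bf_sq ha hz.le
  nlinarith [norm_nonneg (bf a z)]

theorem bf_bf {a z : ℂ} (ha : ‖a‖ < 1) (hz : ‖z‖ < 1) : bf a (bf a z) = z := by
  have h0 : 1 - conj a * z ≠ 0 :=
    norm_pos_iff.mp (by linarith [den_ge_left (a := a) hz.le])
  have h1 : 1 - conj a * bf a z ≠ 0 :=
    norm_pos_iff.mp (by linarith [den_ge_left (a := a) (norm_bf_lt ha hz).le])
  have h2 : bf a z * (1 - conj a * z) = a - z := by rw [bf, div_mul_cancel₀ _ h0]
  rw [bf, div_eq_iff h1]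
  linear_combination -h2

theorem bf_diff {a : ℂ} (ha : ‖a‖ < 1) : DifferentiableOn ℂ (bf a) (closedBall 0 1) := by
  unfold bf
  refine DifferentiableOn.div (by fun_prop) (by fun_prop) fun z hz => ?_
  rw [mem_closedBall_zero_iff] at hz
  exact norm_pos_iff.mp (by linarith [den_ge_left (a := a) hz])

/-- The Schwarz-Pick inequality. -/
theorem schwarz_pick {Θ : ℂ → ℂ} (hd : DifferentiableOn ℂ Θ (ball 0 1))
    (hb : ∀ z ∈ ball (0:ℂ) 1, ‖Θ z‖ ≤ 1) {a z : ℂ} (ha : ‖a‖ < 1) (hz : ‖z‖ < 1)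
    (hΘa : ‖Θ a‖ < 1) : ‖bf (Θ a) (Θ z)‖ ≤ ‖bf a z‖ := by
  have hm : MapsTo (bf a) (ball 0 1) (ball 0 1) := fun w hw =>
    mem_ball_zero_iff.mpr (norm_bf_lt ha (mem_ball_zero_iff.mp hw))
  have hm2 : MapsTo Θ (ball 0 1) (closedBall 0 1) := fun w hw =>
    mem_closedBall_zero_iff.mpr (hb w hw)
  have h1 : DifferentiableOn ℂ (fun w => bf (Θ a) (Θ (bf a w))) (ball 0 1) :=
    (bf_diff hΘa).comp (hd.comp ((bf_diff ha).mono ball_subset_closedBall) hm) (hm2.comp hm)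
  have h2 := norm_le_norm_of_mapsTo_ball h1
    (fun w hw => mem_closedBall_zero_iff.mpr (norm_bf_le hΘa (hb _ (hm hw))))
    (by simp [bf]) (norm_bf_lt ha hz)
  rwa [bf_bf ha hz] at h2

/-- The Julia lemma along a radius, with constant `1`. -/
theorem julia_sharp {Θ : ℂ → ℂ} (hd : DifferentiableOn ℂ Θ (ball 0 1))
    (hb : ∀ z ∈ ball (0:ℂ) 1, ‖Θ z‖ ≤ 1) {ζ : ℂ} (hζ : ‖ζ‖ = 1) {ρ : ℝ} (hρ0 : 1 / 2 ≤ ρ)
    (hρ1 : ρ < 1) (hsmall : ‖Θ (ρ * ζ)‖ < 1 / 5)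
    {r : ℝ} (hr : 0 < r) {g : ℂ → ℂ} (hg : DifferentiableOn ℂ g (ball ζ r))
    (hgΘ : EqOn g Θ (ball ζ r ∩ ball 0 1)) (hg1 : ‖g ζ‖ = 1) :
    1 / (1 - ρ) ≤ ‖deriv g ζ‖ := by
  have hnt : ∀ t : ℝ, 0 ≤ t → ‖(t : ℂ) * ζ‖ = t := fun t ht => by
    rw [norm_mul, hζ, mul_one, norm_real, Real.norm_of_nonneg ht]
  set φ : ℝ → ℝ := fun t => (1 - ρ ^ 2) * (1 + t) / (3 * (1 - ρ * t) ^ 2) with hφ
  have hkey : ∀ t : ℝ, ρ < t → t < 1 → φ t * (1 - t) ≤ 1 - ‖Θ (t * ζ)‖ := by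
    intro t ht0 ht1
    have ha : ‖(ρ : ℂ) * ζ‖ < 1 := by rw [hnt ρ (by linarith)]; exact hρ1
    have hz : ‖(t : ℂ) * ζ‖ < 1 := by rw [hnt t (by linarith)]; exact ht1
    have h1 := schwarz_pick hd hb ha hz (by linarith)
    have hv1 : ‖Θ (t * ζ)‖ ≤ 1 := hb _ (mem_ball_zero_iff.mpr hz)
    rw [← sq_le_sq₀ (norm_nonneg _) (norm_nonneg _), bf_sq (by linarith) hv1, bf_sq ha hz.le,
      hnt ρ (by linarith), hnt t (by linarith)] at h1
    have hρt : 0 < 1 - ρ * t := by nlinarith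
    have e1 : ‖1 - conj ((ρ : ℂ) * ζ) * ((t : ℂ) * ζ)‖ = 1 - ρ * t := by
      have h2 : conj ζ * ζ = 1 := by
        rw [mul_comm, mul_conj, normSq_eq_norm_sq, hζ]
        simp
      have h3 : 1 - conj ((ρ : ℂ) * ζ) * ((t : ℂ) * ζ) = ((1 - ρ * t : ℝ) : ℂ) := by
        rw [map_mul, conj_ofReal]
        push_cast
        linear_combination (-(ρ : ℂ) * t) * h2
      rw [h3, norm_real, Real.norm_of_nonneg hρt.le]
    rw [e1] at h1
    set b := Θ (ρ * ζ) with hbdef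
    set v := Θ (t * ζ) with hv
    have h4 : 1 - ‖b‖ ≤ ‖1 - conj b * v‖ := den_ge_left hv1
    have h5 : 0 ≤ 1 - ‖v‖ ^ 2 := by nlinarith [norm_nonneg v]
    have h6 : 0 < 1 - ‖b‖ := by linarith
    have h7 : (1 - ‖b‖ ^ 2) * (1 - ‖v‖ ^ 2) / ‖1 - conj b * v‖ ^ 2 ≤ 3 * (1 - ‖v‖) := by
      rw [div_le_iff₀ (pow_pos (h6.trans_le h4) 2)]
      have h8 : 1 - ‖b‖ ^ 2 ≤ 3 / 2 * (1 - ‖b‖) ^ 2 := by nlinarith
      have h9 : 1 - ‖v‖ ^ 2 ≤ 2 * (1 - ‖v‖) := by nlinarith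
      calc (1 - ‖b‖ ^ 2) * (1 - ‖v‖ ^ 2) ≤ (3 / 2 * (1 - ‖b‖) ^ 2) * (2 * (1 - ‖v‖)) := by
            gcongr
        _ = 3 * (1 - ‖v‖) * (1 - ‖b‖) ^ 2 := by ring
        _ ≤ _ := by gcongr
    have e2 : φ t * (1 - t) = (1 - ρ ^ 2) * (1 - t ^ 2) / (1 - ρ * t) ^ 2 / 3 := by
      simp only [hφ]
      field_simp
      ring
    rw [e2]
    linarith
  have hgd : HasDerivAt g (deriv g ζ) (((1:ℝ):ℂ) * ζ) := by
    simpa using (hg.differentiableAt (ball_mem_nhds ζ hr)).hasDerivAt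
  have hline : HasDerivAt (fun t : ℝ => (t : ℂ) * ζ) ζ 1 := by
    simpa using (ofRealCLM.hasDerivAt (x := (1:ℝ))).mul_const ζ
  have hcomp : HasDerivAt (fun t : ℝ => g (t * ζ)) (ζ * deriv g ζ) 1 := by
    simpa [Function.comp_def] using hgd.scomp (1:ℝ) hline
  have hsl := (hasDerivAt_iff_tendsto_slope.mp hcomp).mono_left
    (nhdsWithin_mono (1:ℝ) (fun t (ht : t ∈ Iio (1:ℝ)) => (ne_of_lt ht : t ≠ 1)))
  have hsl2 := hsl.norm
  rw [norm_mul, hζ, one_mul] at hsl2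
  have hρ2 : 0 < 1 - ρ := by linarith
  have hφc : ContinuousAt φ 1 := by
    simp only [hφ]
    refine ContinuousAt.div (by fun_prop) (by fun_prop) ?_
    rw [mul_one]
    positivity
  have hφ1 : 1 / (1 - ρ) ≤ φ 1 := by
    simp only [hφ, mul_one]
    rw [div_le_div_iff₀ hρ2 (by positivity)]
    nlinarith [mul_pos hρ2 hρ2]
  refine hφ1.trans (le_of_tendsto_of_tendsto (hφc.tendsto.mono_left nhdsWithin_le_nhds) hsl2 ?_)
  have hev : ∀ᶠ t : ℝ in 𝓝 1, (t * ζ : ℂ) ∈ ball ζ r := by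
    apply hline.continuousAt.eventually
    simp only [ofReal_one, one_mul]
    exact ball_mem_nhds ζ hr
  filter_upwards [Ioo_mem_nhdsLT hρ1, nhdsWithin_le_nhds hev] with t ht ht2
  have ht3 : (t * ζ : ℂ) ∈ ball (0:ℂ) 1 := by
    rw [mem_ball_zero_iff, hnt t (by linarith [ht.1])]
    exact ht.2
  have h1 := hkey t ht.1 ht.2
  rw [← hgΘ ⟨ht2, ht3⟩] at h1
  have h2 : 0 < 1 - t := by linarith [ht.2]
  rw [slope_def_module, norm_smul, norm_inv, Real.norm_eq_abs, abs_sub_comm, abs_of_pos h2,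
    ← div_eq_inv_mul, le_div_iff₀ h2]
  have h3 := norm_sub_norm_le (g ζ) (g (t * ζ))
  rw [hg1, norm_sub_rev] at h3
  simp only [ofReal_one, one_mul]
  exact h1.trans h3

end Pool.Agent.P.MP_32de40_an
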