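import Mathlib

set_option autoImplicit false

open Complex Set Metric Filter Topology MeasureTheory Real

namespace Pool.Agent.P.MP_32de40_an

/-- Lower bound for the averages of the logarithm, uniform in the radius. -/
theorem exists_lower_average {f : ℂ → ℂ} (hd : DifferentiableOn ℂ f (ball 0 1))
    (hne : ∃ z ∈ ball (0:ℂ) 1, f z ≠ 0) :
    ∃ K : ℝ, ∀ η : ℝ, 0 < η → ∀ R ∈ Ioo (1/2 : ℝ) 1,
      K ≤ circleAverage (fun z => Real.log (‖f z‖ + η)) 0 R := by
  classical
  have ha : AnalyticOnNhd ℂ f (ball 0 1) := hd.analyticOnNhd isOpen_ball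
  refine ⟨((meromorphicOrderAt f 0).untop₀ : ℤ) * Real.log (1/2) +
    Real.log ‖meromorphicTrailingCoeffAt f 0‖, fun η hη R hR => ?_⟩
  have hR0 : 0 < R := by linarith [hR.1]
  have habs : |R| = R := abs_of_pos hR0
  have hsub : closedBall (0:ℂ) |R| ⊆ ball 0 1 := by
    rw [habs]
    exact closedBall_subset_ball hR.2
  have ha' : AnalyticOnNhd ℂ f (closedBall 0 |R|) := ha.mono hsub
  have hJ := ha'.meromorphicOn.circleAverage_log_norm hR0.ne'
  have hord : (0:ℤ) ≤ (meromorphicOrderAt f 0).untop₀ := by
    have := MeromorphicOn.AnalyticOnNhd.divisor_nonneg ha' 0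
    rwa [ha'.meromorphicOn.divisor_apply (by simp)] at this
  have h1 : ((meromorphicOrderAt f 0).untop₀ : ℤ) * Real.log (1/2) +
      Real.log ‖meromorphicTrailingCoeffAt f 0‖ ≤ circleAverage (fun z => Real.log ‖f z‖) 0 R := by
    rw [hJ, ha'.meromorphicOn.divisor_apply (by simp)]
    have h2 : 0 ≤ ∑ᶠ u, (MeromorphicOn.divisor f (closedBall 0 |R|) u : ℝ) *
        Real.log (R * ‖0 - u‖⁻¹) := by
      apply finsum_nonneg
      intro u
      by_cases hu : u ∈ closedBall (0:ℂ) |R|
      · apply mul_nonneg (mod_cast MeromorphicOn.AnalyticOnNhd.divisor_nonneg ha' u)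
        by_cases hu0 : u = 0
        · simp [hu0]
        · apply Real.log_nonneg
          rw [habs, mem_closedBall_zero_iff] at hu
          rw [zero_sub, norm_neg, ← div_eq_mul_inv, le_div_iff₀ (norm_pos_iff.mpr hu0)]
          linarith
      · simp [Function.locallyFinsuppWithin.apply_eq_zero_of_notMem _ hu]
    have h3 : ((meromorphicOrderAt f 0).untop₀ : ℤ) * Real.log (1/2) ≤
        ((meromorphicOrderAt f 0).untop₀ : ℤ) * Real.log R := by
      apply mul_le_mul_of_nonneg_left _ (mod_cast hord)
      exact Real.log_le_log (by norm_num) hR.1.le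
    linarith
  refine h1.trans ?_
  have hcod : ∀ᶠ z in codiscreteWithin (sphere (0:ℂ) |R|), f z ≠ 0 := by
    rcases ha.eqOn_zero_or_eventually_ne_zero_of_preconnected
      (convex_ball (0:ℂ) 1).isPreconnected with h | h
    · obtain ⟨z, hz, hz0⟩ := hne
      exact absurd (h hz) hz0
    · exact codiscreteWithin_mono (sphere_subset_closedBall.trans hsub) h
  have hcongr : (fun z => Real.log ‖f z‖) =ᶠ[codiscreteWithin (sphere (0:ℂ) |R|)]
      fun z => if f z = 0 then Real.log η else Real.log ‖f z‖ := by
    filter_upwards [hcod] with z hz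
    simp [hz]
  rw [circleAverage_congr_codiscreteWithin hcongr hR0.ne']
  apply circleAverage_mono
  · exact CircleIntegrable.congr_codiscreteWithin hcongr
      (ha'.mono sphere_subset_closedBall).meromorphicOn.circleIntegrable_log_norm
  · apply ContinuousOn.circleIntegrable'
    apply ContinuousOn.log
    · exact ((hd.continuousOn.mono (sphere_subset_closedBall.trans hsub)).norm).add
        continuousOn_const
    · intro z _
      positivity
  · intro z _
    split_ifs with h
    · simp [h]
    · exact Real.log_le_log (norm_pos_iff.mpr h) (by linarith)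

/-- The boundary zero set of a nonzero function of the disc algebra is null. -/
theorem volume_boundary_zeros {f : ℂ → ℂ} (hd : DifferentiableOn ℂ f (ball 0 1))
    (hc : ContinuousOn f (closedBall 0 1)) (hne : ∃ z ∈ ball (0:ℂ) 1, f z ≠ 0) :
    volume {θ : ℝ | f (Complex.exp ((θ : ℂ) * I)) = 0} = 0 := by
  obtain ⟨K, hK⟩ := exists_lower_average hd hne
  obtain ⟨M, hM⟩ := (isCompact_closedBall (0:ℂ) 1).exists_bound_of_continuousOn hc
  have hM0 : 0 ≤ M := (norm_nonneg _).trans (hM 0 (by simp))
  set E : Set ℝ := {θ : ℝ | f (Complex.exp ((θ : ℂ) * I)) = 0} with hE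
  have hfe : Continuous fun θ : ℝ => f (Complex.exp ((θ : ℂ) * I)) := by
    apply hc.comp_continuous (by fun_prop)
    intro θ
    simp
  have hEm : MeasurableSet E := (isClosed_eq hfe continuous_const).measurableSet
  have hK1 : ∀ η : ℝ, 0 < η → K ≤ circleAverage (fun z => Real.log (‖f z‖ + η)) 0 1 := by
    intro η hη
    have h1 : ContinuousOn (circleAverage (fun z => Real.log (‖f z‖ + η)) 0) (Icc 0 1) := by
      apply ContinuousOn.circleAverage _ (fun r hr => hr.1)
      apply ContinuousOn.log
      · refine ((hc.mono ?_).norm).add continuousOn_const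
        intro z hz
        simpa using hz.2
      · intro z _
        positivity
    have h2 : Tendsto (circleAverage (fun z => Real.log (‖f z‖ + η)) 0) (𝓝[<] 1)
        (𝓝 (circleAverage (fun z => Real.log (‖f z‖ + η)) 0 1)) := by
      apply (h1 1 (by simp)).mono_left
      rw [nhdsWithin_le_iff]
      exact mem_of_superset (Ioo_mem_nhdsLT (by norm_num : (0:ℝ) < 1)) Ioo_subset_Icc_self
    refine ge_of_tendsto h2 ?_
    filter_upwards [Ioo_mem_nhdsLT (by norm_num : (1/2:ℝ) < 1)] with R hR using hK η hη R hR
  set m : ℝ := (volume (E ∩ Ioc 0 (2 * π))).toReal with hm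
  have hK2 : ∀ η : ℝ, 0 < η → η ≤ 1 → K ≤ Real.log (M + 1) + (2 * π)⁻¹ * (m * Real.log η) := by
    intro η hη hη1
    refine (hK1 η hη).trans ?_
    rw [circleAverage_def, smul_eq_mul]
    have h1 : ∫ θ in (0:ℝ)..2 * π, Real.log (‖f (circleMap 0 1 θ)‖ + η) ≤
        ∫ θ in (0:ℝ)..2 * π, (Real.log (M + 1) + E.indicator (fun _ => Real.log η) θ) := by
      apply intervalIntegral.integral_mono_on two_pi_pos.le
      · apply Continuous.intervalIntegrable
        apply Continuous.log
        · refine Continuous.add (Continuous.norm ?_) continuous_const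
          simpa [circleMap] using hfe
        · intro z
          positivity
      · exact intervalIntegrable_const.add
          ⟨(intervalIntegrable_const.1).indicator hEm, (intervalIntegrable_const.2).indicator hEm⟩
      · intro θ _
        have h2 : circleMap 0 1 θ = Complex.exp ((θ : ℂ) * I) := by simp [circleMap]
        rw [h2]
        by_cases hθ : θ ∈ E
        · rw [indicator_of_mem hθ]
          have h3 : f (Complex.exp ((θ : ℂ) * I)) = 0 := hθ
          rw [h3, norm_zero, zero_add]
          linarith [Real.log_nonneg (by linarith : 1 ≤ M + 1)]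
        · rw [indicator_of_notMem hθ, add_zero]
          apply Real.log_le_log (by positivity)
          linarith [hM (Complex.exp ((θ : ℂ) * I)) (by simp)]
    have h2 : ∫ θ in (0:ℝ)..2 * π, (Real.log (M + 1) + E.indicator (fun _ => Real.log η) θ) =
        2 * π * Real.log (M + 1) + m * Real.log η := by
      rw [intervalIntegral.integral_add intervalIntegrable_const
        ⟨(intervalIntegrable_const.1).indicator hEm, (intervalIntegrable_const.2).indicator hEm⟩]
      rw [intervalIntegral.integral_const, intervalIntegral.integral_of_le two_pi_pos.le,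
        integral_indicator hEm, Measure.restrict_restrict hEm, setIntegral_const]
      simp [hm, Measure.real]
    rw [h2] at h1
    calc (2 * π)⁻¹ * ∫ θ in (0:ℝ)..2 * π, Real.log (‖f (circleMap 0 1 θ)‖ + η)
        ≤ (2 * π)⁻¹ * (2 * π * Real.log (M + 1) + m * Real.log η) := by gcongr
      _ = _ := by field_simp
  have hm0 : m = 0 := by
    by_contra h
    have hmp : 0 < m := lt_of_le_of_ne ENNReal.toReal_nonneg (Ne.symm h)
    set T : ℝ := (|K| + |Real.log (M + 1)| + 1) * (2 * π) / m with hT
    have hT0 : 0 ≤ T := by positivity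
    have := hK2 (Real.exp (-T)) (Real.exp_pos _) (by simpa using hT0)
    rw [Real.log_exp] at this
    have h2 : (2 * π)⁻¹ * (m * -T) = -(|K| + |Real.log (M + 1)| + 1) := by
      rw [hT]
      field_simp
    rw [h2] at this
    linarith [neg_abs_le K, le_abs_self (Real.log (M + 1))]
  have hm1 : volume (E ∩ Ioc 0 (2 * π)) = 0 := by
    rcases (ENNReal.toReal_eq_zero_iff _).mp hm0 with h | h
    · exact h
    · exact absurd h (measure_inter_lt_top_of_right_ne_top measure_Ioc_lt_top.ne).ne
  have hcover : E ⊆ ⋃ k : ℤ, (fun θ : ℝ => θ + k * (2 * π)) ⁻¹' (E ∩ Ioc 0 (2 * π)) := by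
    intro θ hθ
    obtain ⟨k, hk, -⟩ := existsUnique_add_zsmul_mem_Ioc two_pi_pos θ 0
    rw [mem_iUnion]
    refine ⟨k, ?_, by simpa using hk⟩
    have h1 : f (Complex.exp ((θ : ℂ) * I)) = 0 := hθ
    simp only [hE, mem_ofPred_eq]
    rw [← h1]
    congr 1
    push_cast
    rw [add_mul, Complex.exp_add, mul_assoc, exp_int_mul_two_pi_mul_I, mul_one]
  refine measure_mono_null hcover (measure_iUnion_null fun k => ?_)
  rw [measure_preimage_add_right]
  exact hm1

end Pool.Agent.P.MP_32de40_an
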