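import Pool.Agent.P.MP_32de40_an.Reflect
import Pool.Agent.P.MP_32de40_an.Zeros
import Pool.Agent.P.MP_32de40_an.Gen

set_option autoImplicit false

open Complex Set Metric Filter Topology MeasureTheory ComplexConjugate

namespace Pool.Agent.P.MP_32de40_an

theorem one_sub_norm_le {z ζ : ℂ} (hζ : ‖ζ‖ = 1) : 1 - ‖z‖ ≤ ‖z - ζ‖ := by
  have := norm_sub_norm_le ζ z
  rwa [hζ, norm_sub_rev] at this

/-- (S) implies (E) for every weight. -/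
theorem s_imp_e {W : ℝ → ℝ} (hW : IsW W) {f : ℂ → ℂ}
    (hfd : DifferentiableOn ℂ f (ball 0 1)) (hfc : ContinuousOn f (closedBall 0 1))
    {A : ℝ} (hA : 0 ≤ A)
    (hmod : ∀ d : ℝ, 0 < d → ∀ ζ η : ℂ, ‖ζ‖ = 1 → ‖η‖ = 1 →
      ‖f η - f ζ‖ ≤ A * (1 + ‖η - ζ‖ / d) * W d) {Θ : ℂ → ℂ}
    (hd : DifferentiableOn ℂ Θ (ball 0 1)) (hb : ∀ z ∈ ball (0:ℂ) 1, ‖Θ z‖ ≤ 1)
    (hl : ∀ᵐ θ : ℝ, ∃ w : ℂ, ‖w‖ = 1 ∧
      Tendsto (fun r : ℝ => Θ ((r : ℂ) * exp ((θ : ℂ) * I))) (𝓝[<] 1) (𝓝 w))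
    (hnull : volume {θ : ℝ | ¬ ∃ r > (0:ℝ), ∃ g : ℂ → ℂ,
        DifferentiableOn ℂ g (ball (exp ((θ:ℂ) * I)) r) ∧
        EqOn g Θ (ball (exp ((θ:ℂ) * I)) r ∩ ball 0 1)} = 0)
    {C : ℝ} (hC : ∀ ζ : ℂ, ‖ζ‖ = 1 → ∀ r > (0:ℝ), ∀ g : ℂ → ℂ,
        DifferentiableOn ℂ g (ball ζ r) → EqOn g Θ (ball ζ r ∩ ball 0 1) →
        ‖f ζ‖ ≤ C * (if 1 < ‖deriv g ζ‖ then W (1 / ‖deriv g ζ‖) else W 1)) :
    ∃ ε ∈ Ioo (0:ℝ) 1, ∃ C : ℝ, ∀ z ∈ ball (0:ℂ) 1, ‖Θ z‖ < ε → ‖f z‖ ≤ C * W (1 - ‖z‖) := by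
  obtain ⟨M, hM⟩ := (isCompact_closedBall (0:ℂ) 1).exists_bound_of_continuousOn hfc
  have hM0 : 0 ≤ M := (norm_nonneg _).trans (hM 0 (by simp))
  have hW2 : 0 < W (1 / 2) := hW.pos _ (by norm_num)
  refine ⟨1 / 5, by norm_num, M / W (1 / 2) + (|C| + 12 * A), fun z hz hzs => ?_⟩
  have hz1 : ‖z‖ < 1 := mem_ball_zero_iff.mp hz
  by_cases hhalf : ‖z‖ < 1 / 2
  · have h1 : W (1 / 2) ≤ W (1 - ‖z‖) := hW.mono _ _ (by norm_num) (by linarith)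
    calc ‖f z‖ ≤ M := hM z (ball_subset_closedBall hz)
      _ = (M / W (1 / 2) + 0) * W (1 / 2) := by field_simp; ring
      _ ≤ _ := by gcongr; positivity
  push Not at hhalf
  set ρ := ‖z‖ with hρ
  set δ := 1 - ρ with hδ
  have hρ0 : 0 ≤ ρ := norm_nonneg z
  have hδ0 : 0 < δ := by linarith
  have hδ1 : δ ≤ 1 := by linarith
  -- choose a good direction
  have hcont : Continuous fun θ : ℝ => (ρ : ℂ) * exp ((θ : ℂ) * I) := by fun_prop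
  have hmem : ∀ θ : ℝ, (ρ : ℂ) * exp ((θ : ℂ) * I) ∈ ball (0:ℂ) 1 := by
    intro θ
    rw [mem_ball_zero_iff, norm_mul, norm_exp_ofReal_mul_I, mul_one, norm_real,
      Real.norm_of_nonneg hρ0]
    exact hz1
  have hΘc : Continuous fun θ : ℝ => Θ ((ρ : ℂ) * exp ((θ : ℂ) * I)) :=
    hd.continuousOn.comp_continuous hcont hmem
  set U : Set ℝ := {θ : ℝ | ‖Θ ((ρ : ℂ) * exp ((θ : ℂ) * I))‖ < 1 / 5} ∩
    {θ : ℝ | ‖z - (ρ : ℂ) * exp ((θ : ℂ) * I)‖ < δ} with hU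
  have hUo : IsOpen U := (isOpen_lt hΘc.norm continuous_const).inter
    (isOpen_lt (continuous_const.sub hcont).norm continuous_const)
  have hUne : U.Nonempty := by
    refine ⟨arg z, ?_, ?_⟩
    · simp only [mem_ofPred_eq, hρ, norm_mul_exp_arg_mul_I]
      exact hzs
    · simp only [mem_ofPred_eq, hρ, norm_mul_exp_arg_mul_I, sub_self, norm_zero]
      exact hδ0
  have hae : ∀ᵐ θ : ℝ, ∃ r > (0:ℝ), ∃ g : ℂ → ℂ,
      DifferentiableOn ℂ g (ball (exp ((θ:ℂ) * I)) r) ∧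
      EqOn g Θ (ball (exp ((θ:ℂ) * I)) r ∩ ball 0 1) := by
    rw [ae_iff]
    exact hnull
  obtain ⟨θ, ⟨hθ1, hθ2⟩, ⟨r, hr, g, hg, hgΘ⟩, w, hw1, hw⟩ :=
    Measure.exists_mem_of_measure_ne_zero_of_ae (hUo.measure_ne_zero volume hUne)
      (ae_restrict_of_ae (hae.and hl))
  set ζ := exp ((θ : ℂ) * I) with hζ
  have hζ1 : ‖ζ‖ = 1 := norm_exp_ofReal_mul_I θ
  have hg1 : ‖g ζ‖ = 1 := by
    have hc : ContinuousAt (fun t : ℝ => (t : ℂ) * ζ) 1 := by fun_prop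
    have h1 : Tendsto (fun t : ℝ => g (t * ζ)) (𝓝[<] 1) (𝓝 (g ζ)) := by
      have := ContinuousAt.comp_of_eq
        (hg.continuousOn.continuousAt (ball_mem_nhds ζ hr)) hc (by simp)
      have h2 := this.tendsto.mono_left (nhdsWithin_le_nhds (s := Iio (1:ℝ)))
      simpa [Function.comp_def] using h2
    have hev : ∀ᶠ t : ℝ in 𝓝 1, (t * ζ : ℂ) ∈ ball ζ r := by
      apply hc.eventually
      simp only [ofReal_one, one_mul]
      exact ball_mem_nhds ζ hr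
    have h2 : Tendsto (fun t : ℝ => g (t * ζ)) (𝓝[<] 1) (𝓝 w) := by
      refine hw.congr' ?_
      filter_upwards [Ioo_mem_nhdsLT (by norm_num : (0:ℝ) < 1), nhdsWithin_le_nhds hev]
        with t ht ht2
      refine (hgΘ ⟨ht2, ?_⟩).symm
      rw [mem_ball_zero_iff, norm_mul, hζ1, mul_one, norm_real, Real.norm_of_nonneg ht.1.le]
      exact ht.2
    rw [tendsto_nhds_unique h1 h2, hw1]
  have hJ := julia_sharp hd hb hζ1 hhalf hz1 hθ1 hr hg hgΘ hg1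
  have hWδ := hW.pos δ hδ0
  have hD1 : 1 < ‖deriv g ζ‖ := by
    refine lt_of_lt_of_le ?_ hJ
    rw [one_lt_div hδ0]
    linarith
  have h1 : W (1 / ‖deriv g ζ‖) ≤ W δ := by
    apply hW.mono _ _ (by positivity)
    rw [div_le_iff₀ (by linarith)]
    rw [div_le_iff₀ hδ0] at hJ
    linarith
  have h2 : ‖f ζ‖ ≤ |C| * W δ := by
    refine (hC ζ hζ1 r hr g hg hgΘ).trans ?_
    rw [if_pos hD1]
    exact mul_le_mul (le_abs_self C) h1 (hW.pos _ (by positivity)).le (abs_nonneg C)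
  have h3 : ‖z - ζ‖ ≤ 2 * δ := by
    have h4 : ‖(ρ : ℂ) * ζ - ζ‖ = δ := by
      have : (ρ : ℂ) * ζ - ζ = -((δ : ℝ) : ℂ) * ζ := by
        rw [hδ]
        push_cast
        ring
      rw [this, norm_mul, hζ1, mul_one, norm_neg, norm_real, Real.norm_of_nonneg hδ0.le]
    have h5 := norm_sub_le_norm_sub_add_norm_sub z (ρ * ζ) ζ
    have h6 : ‖z - (ρ : ℂ) * ζ‖ < δ := hθ2
    linarith
  have h4 : ‖z - ζ‖ / δ ≤ 2 := by rwa [div_le_iff₀ hδ0]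
  have h5 := interior_gen hfd hfc (A := A * W δ) (by positivity) hδ0 hζ1
    (fun η hη => (hmod δ hδ0 ζ η hζ1 hη).trans_eq (by ring)) hz
  calc ‖f z‖ ≤ ‖f ζ‖ + ‖f z - f ζ‖ := norm_le_insert' _ _
    _ ≤ |C| * W δ + 4 * (1 + 2) * (A * W δ) := by
        refine add_le_add h2 (h5.trans ?_)
        gcongr
    _ = (0 + (|C| + 12 * A)) * W δ := by ring
    _ ≤ _ := by gcongr; positivity

/-- (E) implies (S) when the weight is doubling, or when the boundary values have a positive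
lower bound. -/
theorem e_imp_s {W : ℝ → ℝ} (hW : IsW W) {f : ℂ → ℂ}
    (hfd : DifferentiableOn ℂ f (ball 0 1)) (hfc : ContinuousOn f (closedBall 0 1))
    {A : ℝ} (hA : 0 ≤ A)
    (hmod : ∀ d : ℝ, 0 < d → ∀ ζ η : ℂ, ‖ζ‖ = 1 → ‖η‖ = 1 →
      ‖f η - f ζ‖ ≤ A * (1 + ‖η - ζ‖ / d) * W d)
    (hne : ∃ z ∈ ball (0:ℂ) 1, f z ≠ 0)
    (hcl : (∀ l : ℝ, ∃ K : ℝ, 0 ≤ K ∧ ∀ s, 0 < s → 0 < l * s → W (l * s) ≤ K * W s) ∨
      ∃ m > (0:ℝ), ∀ ζ : ℂ, ‖ζ‖ = 1 → m ≤ ‖f ζ‖) {Θ : ℂ → ℂ}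
    (hd : DifferentiableOn ℂ Θ (ball 0 1)) (hb : ∀ z ∈ ball (0:ℂ) 1, ‖Θ z‖ ≤ 1)
    (hl : ∀ᵐ θ : ℝ, ∃ w : ℂ, ‖w‖ = 1 ∧
      Tendsto (fun r : ℝ => Θ ((r : ℂ) * exp ((θ : ℂ) * I))) (𝓝[<] 1) (𝓝 w))
    {ε : ℝ} (hε : ε ∈ Ioo (0:ℝ) 1) {C : ℝ}
    (hC : ∀ z ∈ ball (0:ℂ) 1, ‖Θ z‖ < ε → ‖f z‖ ≤ C * W (1 - ‖z‖)) :
    volume {θ : ℝ | ¬ ∃ r > (0:ℝ), ∃ g : ℂ → ℂ,
        DifferentiableOn ℂ g (ball (exp ((θ:ℂ) * I)) r) ∧
        EqOn g Θ (ball (exp ((θ:ℂ) * I)) r ∩ ball 0 1)} = 0 ∧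
      ∃ C : ℝ, ∀ ζ : ℂ, ‖ζ‖ = 1 → ∀ r > (0:ℝ), ∀ g : ℂ → ℂ,
        DifferentiableOn ℂ g (ball ζ r) → EqOn g Θ (ball ζ r ∩ ball 0 1) →
        ‖f ζ‖ ≤ C * (if 1 < ‖deriv g ζ‖ then W (1 / ‖deriv g ζ‖) else W 1) := by
  have hkey : ∀ ζ : ℂ, ‖ζ‖ = 1 → ∀ d : ℝ, ∀ z ∈ ball (0:ℂ) 1, z ∈ ball ζ d → ‖Θ z‖ < ε →
      ‖f ζ‖ ≤ (|C| + 8 * A) * W d := by
    intro ζ hζ d z hz hzd hzε
    have hz1 : ‖z‖ < 1 := mem_ball_zero_iff.mp hz
    rw [mem_ball, dist_eq_norm] at hzd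
    have hd0 : 0 < d := (norm_nonneg _).trans_lt hzd
    have hWd := hW.pos d hd0
    have h0 : 0 < 1 - ‖z‖ := by linarith
    have h1 : W (1 - ‖z‖) ≤ W d := hW.mono _ _ h0 ((one_sub_norm_le hζ).trans hzd.le)
    have h2 : ‖z - ζ‖ / d ≤ 1 := by
      rw [div_le_one hd0]
      exact hzd.le
    have h3 : ‖f z‖ ≤ |C| * W d :=
      (hC z hz hzε).trans (mul_le_mul (le_abs_self C) h1 (hW.pos _ h0).le (abs_nonneg C))
    have h4 := interior_gen hfd hfc (A := A * W d) (by positivity) hd0 hζ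
      (fun η hη => (hmod d hd0 ζ η hζ hη).trans_eq (by ring)) hz
    calc ‖f ζ‖ ≤ ‖f z‖ + ‖f z - f ζ‖ := norm_le_insert _ _
      _ ≤ |C| * W d + 4 * (1 + 1) * (A * W d) := by
          refine add_le_add h3 (h4.trans ?_)
          gcongr
      _ = _ := by ring
  have hsmall : ∀ m > (0:ℝ), ∃ d ∈ Ioo (0:ℝ) 1, (|C| + 8 * A) * W d < m := by
    intro m hm
    have h1 : Tendsto (fun d => (|C| + 8 * A) * W d) (𝓝[>] 0) (𝓝 0) := by
      simpa using hW.lim.const_mul (|C| + 8 * A)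
    obtain ⟨d, hd1, hd2⟩ := ((h1.eventually (gt_mem_nhds hm)).and
      (Ioo_mem_nhdsGT (by norm_num : (0:ℝ) < 1))).exists
    exact ⟨d, hd2, hd1⟩
  obtain ⟨M, hM⟩ := (isCompact_closedBall (0:ℂ) 1).exists_bound_of_continuousOn hfc
  have hM0 : 0 ≤ M := (norm_nonneg _).trans (hM 0 (by simp))
  have hε0 := hε.1
  have hε1 := hε.2
  have hlowW : ∀ u D : ℝ, 0 < u → u ≤ 1 → D ≤ 1 / u →
      W u ≤ (if 1 < D then W (1 / D) else W 1) := by
    intro u D hu hu1 hD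
    split_ifs with h
    · apply hW.mono _ _ hu
      rw [le_div_iff₀ hu] at hD
      rw [le_div_iff₀ (by linarith)]
      linarith
    · exact hW.mono _ _ hu hu1
  constructor
  · refine measure_mono_null ?_ (volume_boundary_zeros hfd hfc hne)
    intro θ hθ
    by_contra h0
    apply hθ
    obtain ⟨d, hd2, hd1⟩ := hsmall _ (norm_pos_iff.mpr h0)
    apply exists_continuation hd hb hl hε.1 hε.2.le hd2.1 hd2.2.le θ
    intro z hz hzd
    by_contra hlt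
    push Not at hlt
    have := hkey _ (norm_exp_ofReal_mul_I θ) d z hz hzd hlt
    linarith
  · rcases hcl with hdb | ⟨m, hm, hfm⟩
    · obtain ⟨K, hK0, hK⟩ := hdb (5 / ε)
      have hW5 : 0 < W (ε / 5) := hW.pos _ (by positivity)
      refine ⟨M / W (ε / 5) + (|C| + 8 * A) * K, fun ζ hζ r hr g hg hgΘ => ?_⟩
      have hc1 : 0 ≤ M / W (ε / 5) := by positivity
      have hc2 : 0 ≤ (|C| + 8 * A) * K := by positivity
      by_cases hbig : 5 / ε ≤ ‖deriv g ζ‖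
      · have h5 : 1 < 5 / ε := by
          rw [one_lt_div hε0]
          linarith
        have hD1 : 1 < ‖deriv g ζ‖ := h5.trans_le hbig
        have hD0 : 0 < ‖deriv g ζ‖ := by linarith
        rw [if_pos hD1]
        set d : ℝ := 5 / ε * (1 / ‖deriv g ζ‖) with hdd
        have hd0 : 0 < d := by positivity
        have hd1 : d ≤ 1 := by
          rw [hdd, mul_one_div, div_le_one hD0]
          exact hbig
        have hex : ∃ z ∈ ball (0:ℂ) 1, z ∈ ball ζ d ∧ ‖Θ z‖ < ε := by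
          by_contra hcon
          push Not at hcon
          have h1 := norm_deriv_le hd hb hl hε0 hε1.le hd0 hd1 hζ hcon hr hg hgΘ
          have h2 : 4 / (ε * d) = 4 / 5 * ‖deriv g ζ‖ := by
            rw [hdd]
            field_simp
          rw [h2] at h1
          linarith
        obtain ⟨z, hz, hzd, hzε⟩ := hex
        have h1 := hkey ζ hζ d z hz hzd hzε
        have h2 : W d ≤ K * W (1 / ‖deriv g ζ‖) := hK _ (by positivity) hd0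
        have h3 := hW.pos (1 / ‖deriv g ζ‖) (by positivity)
        calc ‖f ζ‖ ≤ (|C| + 8 * A) * (K * W (1 / ‖deriv g ζ‖)) := h1.trans (by gcongr)
          _ = (0 + (|C| + 8 * A) * K) * W (1 / ‖deriv g ζ‖) := by ring
          _ ≤ _ := by gcongr
      · push Not at hbig
        have h1 := hlowW (ε / 5) ‖deriv g ζ‖ (by positivity) (by linarith)
          (by rw [one_div_div]; exact hbig.le)
        calc ‖f ζ‖ ≤ M := hM ζ (by simp [hζ])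
          _ = (M / W (ε / 5) + 0) * W (ε / 5) := by field_simp; ring
          _ ≤ _ := by gcongr
    · obtain ⟨d, hd2, hd1⟩ := hsmall m hm
      have hd0 := hd2.1
      have hu : 0 < ε * d / 4 := by positivity
      have hWu := hW.pos _ hu
      refine ⟨M / W (ε * d / 4), fun ζ hζ r hr g hg hgΘ => ?_⟩
      have h1 := norm_deriv_le hd hb hl hε0 hε1.le hd0 hd2.2.le hζ (fun z hz hzd => by
        by_contra hlt
        push Not at hlt
        linarith [hkey ζ hζ d z hz hzd hlt, hfm ζ hζ]) hr hg hgΘ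
      have h2 := hlowW (ε * d / 4) ‖deriv g ζ‖ hu (by nlinarith [hd2.2])
        (by rw [one_div_div]; exact h1)
      calc ‖f ζ‖ ≤ M := hM ζ (by simp [hζ])
        _ = M / W (ε * d / 4) * W (ε * d / 4) := by field_simp
        _ ≤ _ := by gcongr

theorem isW_ext {ω : ℝ → ℝ} {L : ℝ} (hm : MonotoneOn ω (Ioo 0 1))
    (hp : ∀ t ∈ Ioo (0:ℝ) 1, 0 < ω t) (h0 : Tendsto ω (𝓝[>] 0) (𝓝 0))
    (hL : ∀ s ∈ Ioo (0:ℝ) 1, ω s ≤ L) : IsW (fun t => if t < 1 then ω t else L) := by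
  have hL0 : 0 < L := (hp (1/2) (by norm_num)).trans_le (hL _ (by norm_num))
  constructor
  · intro t ht
    split_ifs with h
    · exact hp t ⟨ht, h⟩
    · exact hL0
  · intro s t hs hst
    by_cases ht : t < 1
    · have hs1 : s < 1 := hst.trans_lt ht
      simp only [ht, hs1, if_true]
      exact hm ⟨hs, hs1⟩ ⟨hs.trans_le hst, ht⟩ hst
    · by_cases hs1 : s < 1
      · simp only [ht, hs1, if_true, if_false]
        exact hL s ⟨hs, hs1⟩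
      · simp [ht, hs1]
  · refine h0.congr' ?_
    filter_upwards [Ioo_mem_nhdsGT (by norm_num : (0:ℝ) < 1)] with t ht
    simp [ht.2]

/-- Doubling below `1 / 2` and boundedness give dilation bounds at all scales. -/
theorem dil_of_doubling {W : ℝ → ℝ} (hW : IsW W) {L K : ℝ} (hL : ∀ t, 0 < t → W t ≤ L)
    (hK : ∀ t ∈ Ioo (0:ℝ) (1 / 2), W (2 * t) ≤ K * W t) (l : ℝ) :
    ∃ K' : ℝ, 0 ≤ K' ∧ ∀ s, 0 < s → 0 < l * s → W (l * s) ≤ K' * W s := by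
  have hW2 : 0 < W (1 / 2) := hW.pos _ (by norm_num)
  have hL0 : 0 ≤ L := hW2.le.trans (hL _ (by norm_num))
  set K1 : ℝ := |K| + L / W (1 / 2) with hK1
  have hK10 : 0 ≤ K1 := by positivity
  have h1 : ∀ t, 0 < t → W (2 * t) ≤ K1 * W t := by
    intro t ht
    have hWt := hW.pos t ht
    by_cases h : t < 1 / 2
    · calc W (2 * t) ≤ K * W t := hK t ⟨ht, h⟩
        _ ≤ (|K| + 0) * W t := by gcongr; rw [add_zero]; exact le_abs_self K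
        _ ≤ _ := by rw [hK1]; gcongr; positivity
    · have h2 : W (1 / 2) ≤ W t := hW.mono _ _ (by norm_num) (not_lt.mp h)
      calc W (2 * t) ≤ L := hL _ (by linarith)
        _ = (0 + L / W (1 / 2)) * W (1 / 2) := by field_simp; ring
        _ ≤ _ := by rw [hK1]; gcongr; positivity
  have h2 : ∀ n : ℕ, ∀ t, 0 < t → W (2 ^ n * t) ≤ K1 ^ n * W t := by
    intro n
    induction n with
    | zero => simp
    | succ n ih =>
      intro t ht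
      calc W (2 ^ (n + 1) * t) = W (2 * (2 ^ n * t)) := by rw [pow_succ]; ring_nf
        _ ≤ K1 * W (2 ^ n * t) := h1 _ (by positivity)
        _ ≤ K1 * (K1 ^ n * W t) := by gcongr; exact ih t ht
        _ = _ := by ring
  obtain ⟨n, hn⟩ := pow_unbounded_of_one_lt l (by norm_num : (1:ℝ) < 2)
  refine ⟨K1 ^ n, by positivity, fun s hs hls => ?_⟩
  exact (hW.mono _ _ hls (by gcongr)).trans (h2 n s hs)

/-- For a degenerate weight the boundary values are a nonzero constant. -/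
theorem lower_of_degenerate {W : ℝ → ℝ} {f : ℂ → ℂ}
    (hfd : DifferentiableOn ℂ f (ball 0 1)) (hfc : ContinuousOn f (closedBall 0 1))
    {A : ℝ} (hA : 0 ≤ A)
    (hmod : ∀ d : ℝ, 0 < d → ∀ ζ η : ℂ, ‖ζ‖ = 1 → ‖η‖ = 1 →
      ‖f η - f ζ‖ ≤ A * (1 + ‖η - ζ‖ / d) * W d)
    (hne : ∃ z ∈ ball (0:ℂ) 1, f z ≠ 0)
    (hdeg : ∀ c > (0:ℝ), ∃ t ∈ Ioo (0:ℝ) 1, W t < c * t) :
    ∃ m > (0:ℝ), ∀ ζ : ℂ, ‖ζ‖ = 1 → m ≤ ‖f ζ‖ := by
  have hconst : ∀ ζ η : ℂ, ‖ζ‖ = 1 → ‖η‖ = 1 → f η = f ζ := by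
    intro ζ η hζ hη
    rw [← sub_eq_zero, ← norm_le_zero_iff]
    refine le_of_forall_pos_le_add fun e he => ?_
    obtain ⟨t, ht, hWt⟩ := hdeg (e / (3 * A + 1)) (by positivity)
    have ht0 := ht.1
    have h2 : ‖η - ζ‖ ≤ 2 := by linarith [norm_sub_le η ζ]
    have h3 : 1 + ‖η - ζ‖ / t ≤ 3 / t := by
      rw [le_div_iff₀ ht0, add_mul, div_mul_cancel₀ _ ht0.ne']
      linarith [ht.2]
    calc ‖f η - f ζ‖ ≤ A * (1 + ‖η - ζ‖ / t) * W t := hmod t ht0 ζ η hζ hη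
      _ ≤ A * (1 + ‖η - ζ‖ / t) * (e / (3 * A + 1) * t) := by gcongr
      _ ≤ A * (3 / t) * (e / (3 * A + 1) * t) := by gcongr
      _ = 3 * A / (3 * A + 1) * e := by field_simp
      _ ≤ 1 * e := by
          gcongr
          rw [div_le_one (by positivity)]
          linarith
      _ = _ := by ring
  have hae : ∀ᵐ θ : ℝ, ¬ f (exp ((θ : ℂ) * I)) = 0 := by
    rw [ae_iff]
    simpa using volume_boundary_zeros hfd hfc hne
  obtain ⟨θ, hθ⟩ := hae.exists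
  exact ⟨_, norm_pos_iff.mpr hθ, fun ζ hζ => by
    rw [hconst ζ _ hζ (norm_exp_ofReal_mul_I θ)]⟩

end Pool.Agent.P.MP_32de40_an
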