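import Pool.Agent.P.MP_32de40_an.Defs
import Pool.Agent.P.MP_32de40_an.Pos
import Pool.Agent.P.MP_32de40_an.Neg

set_option autoImplicit false

open Complex Set Metric Filter Topology MeasureTheory ComplexConjugate

namespace Pool.Agent.P.MP_32de40_an

theorem ext_if (ω : ℝ → ℝ) (L x : ℝ) : (if 1 < x then (if 1 / x < 1 then ω (1 / x) else L)
    else (if (1:ℝ) < 1 then ω 1 else L)) = if 1 < x then ω (1 / x) else L := by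
  by_cases hx : 1 < x
  · rw [if_pos hx, if_pos hx, if_pos]
    rw [div_lt_one (by linarith)]
    exact hx
  · rw [if_neg hx, if_neg hx, if_neg (lt_irrefl _)]

theorem IsModulus.isW {ω : ℝ → ℝ} {L : ℝ} (h : IsModulus ω L) :
    IsW (fun t => if t < 1 then ω t else L) :=
  isW_ext h.2.1 h.2.2.1 h.2.2.2.1 fun _ hs => le_lim h.2.1 h.2.2.2.2 hs

theorem InLip.bound {ω : ℝ → ℝ} {L : ℝ} (h : IsModulus ω L) {f : ℂ → ℂ} (hf : InLip ω f) :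
    ∃ A : ℝ, 0 ≤ A ∧ ∀ d : ℝ, 0 < d → ∀ ζ η : ℂ, ‖ζ‖ = 1 → ‖η‖ = 1 →
      ‖f η - f ζ‖ ≤ A * (1 + ‖η - ζ‖ / d) * (fun t => if t < 1 then ω t else L) d := by
  refine boundary_gen h.isW hf.2.1 ?_
  obtain ⟨C, δ₀, hδ₀, hb⟩ := hf.2.2.1
  refine ⟨C, δ₀, hδ₀, fun δ hδ x h' hh => ?_⟩
  rw [if_pos (hδ.2.trans hδ₀.2)]
  exact hb δ hδ x h' hh

theorem condE_of_condS {ω : ℝ → ℝ} {L : ℝ} (h : IsModulus ω L) {f Θ : ℂ → ℂ}
    (hf : InLip ω f) (hΘ : IsInner Θ) (hS : CondS ω L f Θ) :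
    ∃ ε ∈ Ioo (0:ℝ) 1, CondE ω L f Θ ε := by
  obtain ⟨A, hA, hmod⟩ := hf.bound h
  obtain ⟨hnull, C, hC⟩ := hS
  refine s_imp_e h.isW hf.1 hf.2.1 hA hmod hΘ.1 hΘ.2.1 hΘ.2.2 hnull (C := C) ?_
  simp only [ext_if]
  exact hC

theorem condS_of_condE {ω : ℝ → ℝ} {L : ℝ} (h : IsModulus ω L)
    (hcl : (∃ K : ℝ, ∀ t ∈ Ioo (0:ℝ) (1 / 2), ω (2 * t) ≤ K * ω t) ∨
      ∀ c > (0:ℝ), ∃ t ∈ Ioo (0:ℝ) 1, ω t < c * t) {f Θ : ℂ → ℂ}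
    (hf : InLip ω f) (hΘ : IsInner Θ) {ε : ℝ} (hε : ε ∈ Ioo (0:ℝ) 1) (hE : CondE ω L f Θ ε) :
    CondS ω L f Θ := by
  obtain ⟨A, hA, hmod⟩ := hf.bound h
  obtain ⟨C, hC⟩ := hE
  have key := e_imp_s h.isW hf.1 hf.2.1 hA hmod hf.2.2.2 (by
    rcases hcl with ⟨K, hK⟩ | hdeg
    · left
      refine dil_of_doubling h.isW (L := L) (K := K) (fun t ht => ?_) fun t ht => ?_
      · split_ifs with h1
        · exact le_lim h.2.1 h.2.2.2.2 ⟨ht, h1⟩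
        · exact le_rfl
      · rw [if_pos (by linarith [ht.2]), if_pos (by linarith [ht.2])]
        exact hK t ht
    · right
      refine lower_of_degenerate hf.1 hf.2.1 hA hmod hf.2.2.2 fun c hc => ?_
      obtain ⟨t, ht, hw⟩ := hdeg c hc
      exact ⟨t, ht, by rw [if_pos ht.2]; exact hw⟩) hΘ.1 hΘ.2.1 hΘ.2.2 hε hC
  simp only [ext_if] at key
  exact key

theorem inLip_one_sub {ω : ℝ → ℝ} {c : ℝ} (hc0 : 0 < c) (hc : ∀ t ∈ Ioo (0:ℝ) 1, c * t ≤ ω t) :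
    InLip ω (fun z => 1 - z) := by
  refine ⟨by fun_prop, by fun_prop, ⟨1 / c, 1 / 2, by norm_num, fun δ hδ x u hu => ?_⟩,
    0, by simp, by simp⟩
  have e : (1 - exp (((x + u : ℝ) : ℂ) * I)) - (1 - exp ((x : ℂ) * I)) =
      -exp ((x : ℂ) * I) * (exp (I * u) - 1) := by
    push_cast
    rw [add_mul, exp_add, mul_comm I]
    ring
  rw [e, norm_mul, norm_neg, norm_exp_ofReal_mul_I, one_mul]
  refine Real.norm_exp_I_mul_ofReal_sub_one_le.trans (hu.trans ?_)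
  have := hc δ ⟨hδ.1, by linarith [hδ.2]⟩
  rw [one_div, ← div_eq_inv_mul, le_div_iff₀ hc0]
  linarith

theorem modulus_class {ω : ℝ → ℝ} {L : ℝ} (h : IsModulus ω L) :
    (∀ f Θ : ℂ → ℂ, InLip ω f → IsInner Θ →
      (CondS ω L f Θ ↔ ∃ ε ∈ Ioo (0:ℝ) 1, CondE ω L f Θ ε)) ↔
    ((∃ K : ℝ, ∀ t ∈ Ioo (0:ℝ) (1 / 2), ω (2 * t) ≤ K * ω t) ∨
      ∀ c > (0:ℝ), ∃ t ∈ Ioo (0:ℝ) 1, ω t < c * t) := by
  constructor
  · intro hall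
    by_contra hcon
    rw [not_or] at hcon
    obtain ⟨hnd, hdeg⟩ := hcon
    push Not at hdeg
    obtain ⟨c, hc0, hc⟩ := hdeg
    obtain ⟨Θ, h1, h2, h3, hE, hS⟩ := not_equiv h.2.1 h.2.2.1 h.2.2.2.1 h.2.2.2.2 hnd hc0 hc
    exact hS ((hall _ Θ (inLip_one_sub hc0 hc) ⟨h1, h2, h3⟩).mpr hE).2
  · intro hcl f Θ hf hΘ
    exact ⟨condE_of_condS h hf hΘ, fun ⟨ε, hε, hE⟩ => condS_of_condE h hcl hf hΘ hε hE⟩

end Pool.Agent.P.MP_32de40_an
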