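import Mathlib

set_option autoImplicit false

open Set Metric Filter Topology MeasureTheory

namespace Pool.Agent.P.MP_32de40_an

/-- A continuity modulus with no assumption on `ω t / t`; `L` is its limit at `1`. -/
def IsModulus (ω : ℝ → ℝ) (L : ℝ) : Prop :=
  ContinuousOn ω (Ioo 0 1) ∧ MonotoneOn ω (Ioo 0 1) ∧ (∀ t ∈ Ioo (0:ℝ) 1, 0 < ω t) ∧
    Tendsto ω (𝓝[>] 0) (𝓝 0) ∧ Tendsto ω (𝓝[<] 1) (𝓝 L)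

/-- `f` is a nonzero element of the analytic Lipschitz space of `ω`. -/
def InLip (ω : ℝ → ℝ) (f : ℂ → ℂ) : Prop :=
  DifferentiableOn ℂ f (ball 0 1) ∧ ContinuousOn f (closedBall 0 1) ∧
    (∃ C : ℝ, ∃ δ₀ ∈ Ioo (0:ℝ) 1, ∀ δ ∈ Ioo 0 δ₀, ∀ x h : ℝ, |h| ≤ δ →
      ‖f (Complex.exp (((x + h : ℝ) : ℂ) * Complex.I))
        - f (Complex.exp ((x : ℂ) * Complex.I))‖ ≤ C * ω δ) ∧
    ∃ z ∈ ball (0:ℂ) 1, f z ≠ 0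

/-- `Θ` is an inner function. -/
def IsInner (Θ : ℂ → ℂ) : Prop :=
  DifferentiableOn ℂ Θ (ball 0 1) ∧ (∀ z ∈ ball (0:ℂ) 1, ‖Θ z‖ ≤ 1) ∧
    ∀ᵐ θ : ℝ, ∃ w : ℂ, ‖w‖ = 1 ∧
      Tendsto (fun r : ℝ => Θ ((r : ℂ) * Complex.exp ((θ : ℂ) * Complex.I))) (𝓝[<] 1) (𝓝 w)

/-- Condition (S). -/
def CondS (ω : ℝ → ℝ) (L : ℝ) (f Θ : ℂ → ℂ) : Prop :=
  volume {θ : ℝ | ¬ ∃ r > (0:ℝ), ∃ g : ℂ → ℂ,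
      DifferentiableOn ℂ g (ball (Complex.exp ((θ:ℂ) * Complex.I)) r) ∧
      EqOn g Θ (ball (Complex.exp ((θ:ℂ) * Complex.I)) r ∩ ball 0 1)} = 0 ∧
    ∃ C : ℝ, ∀ ζ : ℂ, ‖ζ‖ = 1 → ∀ r > (0:ℝ), ∀ g : ℂ → ℂ,
      DifferentiableOn ℂ g (ball ζ r) → EqOn g Θ (ball ζ r ∩ ball 0 1) →
      ‖f ζ‖ ≤ C * (if 1 < ‖deriv g ζ‖ then ω (1 / ‖deriv g ζ‖) else L)

/-- Condition (E) at level `ε`. -/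
def CondE (ω : ℝ → ℝ) (L : ℝ) (f Θ : ℂ → ℂ) (ε : ℝ) : Prop :=
  ∃ C : ℝ, ∀ z ∈ ball (0:ℂ) 1, ‖Θ z‖ < ε →
    ‖f z‖ ≤ C * (if 1 - ‖z‖ < 1 then ω (1 - ‖z‖) else L)

end Pool.Agent.P.MP_32de40_an
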