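import Pool.Agent.P.MP_32de40_an.Levels

set_option autoImplicit false

open Complex Set Metric Filter Topology MeasureTheory ComplexConjugate

namespace Pool.Agent.P.MP_32de40_an

/-- (S) implies (E) at every level, for a doubling weight or boundary values bounded below. -/
theorem s_imp_e_all {W : ℝ → ℝ} (hW : IsW W) {f : ℂ → ℂ}
    (hfd : DifferentiableOn ℂ f (ball 0 1)) (hfc : ContinuousOn f (closedBall 0 1))
    {A : ℝ} (hA : 0 ≤ A)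
    (hmod : ∀ d : ℝ, 0 < d → ∀ ζ η : ℂ, ‖ζ‖ = 1 → ‖η‖ = 1 →
      ‖f η - f ζ‖ ≤ A * (1 + ‖η - ζ‖ / d) * W d) {Θ : ℂ → ℂ}
    (hd : DifferentiableOn ℂ Θ (ball 0 1)) (hb : ∀ z ∈ ball (0:ℂ) 1, ‖Θ z‖ ≤ 1)
    (hl : ∀ᵐ θ : ℝ, ∃ w : ℂ, ‖w‖ = 1 ∧
      Tendsto (fun r : ℝ => Θ ((r : ℂ) * exp ((θ : ℂ) * I))) (𝓝[<] 1) (𝓝 w))
    (hnull : volume {θ : ℝ | ¬ ∃ r > (0:ℝ), ∃ g : ℂ → ℂ,
        DifferentiableOn ℂ g (ball (exp ((θ:ℂ) * I)) r) ∧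
        EqOn g Θ (ball (exp ((θ:ℂ) * I)) r ∩ ball 0 1)} = 0)
    {C : ℝ} (hC : ∀ ζ : ℂ, ‖ζ‖ = 1 → ∀ r > (0:ℝ), ∀ g : ℂ → ℂ,
        DifferentiableOn ℂ g (ball ζ r) → EqOn g Θ (ball ζ r ∩ ball 0 1) →
        ‖f ζ‖ ≤ C * (if 1 < ‖deriv g ζ‖ then W (1 / ‖deriv g ζ‖) else W 1))
    (hcl : (∀ l : ℝ, ∃ K : ℝ, 0 ≤ K ∧ ∀ s, 0 < s → 0 < l * s → W (l * s) ≤ K * W s) ∨
      ∃ m > (0:ℝ), ∀ ζ : ℂ, ‖ζ‖ = 1 → m ≤ ‖f ζ‖) {ε : ℝ} (hε0 : 0 < ε) (hε : ε < 1) :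
    ∃ C : ℝ, ∀ z ∈ ball (0:ℂ) 1, ‖Θ z‖ < ε → ‖f z‖ ≤ C * W (1 - ‖z‖) := by
  obtain ⟨M, hM⟩ := (isCompact_closedBall (0:ℂ) 1).exists_bound_of_continuousOn hfc
  have hM0 : 0 ≤ M := (norm_nonneg _).trans (hM 0 (by simp))
  set l : ℝ := (1 + ε) / (1 - ε) with hl'
  have hl1 : 1 ≤ l := by
    rw [hl', one_le_div (by linarith)]
    linarith
  have hl0 : 0 < l := by linarith
  have hK : ∃ K : ℝ, 0 ≤ K ∧ ∀ ζ : ℂ, ‖ζ‖ = 1 → ∀ s, 0 < s → ‖f ζ‖ ≤ |C| * W (l * s) →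
      ‖f ζ‖ ≤ K * W s := by
    rcases hcl with hdb | ⟨m, hm, hfm⟩
    · obtain ⟨K, hK0, hK⟩ := hdb l
      refine ⟨|C| * K, by positivity, fun ζ _ s hs h => h.trans ?_⟩
      rw [mul_assoc]
      exact mul_le_mul_of_nonneg_left (hK s hs (by positivity)) (abs_nonneg C)
    · have h1 : Tendsto (fun d => |C| * W d) (𝓝[>] 0) (𝓝 0) := by
        simpa using hW.lim.const_mul |C|
      obtain ⟨d, hd1, hd2⟩ := ((h1.eventually (gt_mem_nhds hm)).and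
        (Ioo_mem_nhdsGT (by norm_num : (0:ℝ) < 1))).exists
      have hu : 0 < d / l := div_pos hd2.1 hl0
      have hWu := hW.pos _ hu
      refine ⟨M / W (d / l), by positivity, fun ζ hζ s hs h => ?_⟩
      have h2 : d / l ≤ s := by
        by_contra h3
        push Not at h3
        rw [lt_div_iff₀ hl0] at h3
        have h4 := mul_le_mul_of_nonneg_left
          (hW.mono (l * s) d (by positivity) (by linarith)) (abs_nonneg C)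
        linarith [hfm ζ hζ]
      have h3 := hW.mono _ _ hu h2
      calc ‖f ζ‖ ≤ M := hM ζ (by simp [hζ])
        _ = M / W (d / l) * W (d / l) := by field_simp
        _ ≤ _ := by gcongr
  obtain ⟨K, hK0, hK⟩ := hK
  refine ⟨K + 12 * A, fun z hz hzs => ?_⟩
  have hz1 : ‖z‖ < 1 := mem_ball_zero_iff.mp hz
  set ρ := ‖z‖ with hρ
  set δ := 1 - ρ with hδ
  have hρ0 : 0 ≤ ρ := norm_nonneg z
  have hδ0 : 0 < δ := by linarith
  have hδ1 : δ ≤ 1 := by linarith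
  -- choose a good direction
  have hcont : Continuous fun θ : ℝ => (ρ : ℂ) * exp ((θ : ℂ) * I) := by fun_prop
  have hmem : ∀ θ : ℝ, (ρ : ℂ) * exp ((θ : ℂ) * I) ∈ ball (0:ℂ) 1 := by
    intro θ
    rw [mem_ball_zero_iff, norm_mul, norm_exp_ofReal_mul_I, mul_one, norm_real,
      Real.norm_of_nonneg hρ0]
    exact hz1
  have hΘc : Continuous fun θ : ℝ => Θ ((ρ : ℂ) * exp ((θ : ℂ) * I)) :=
    hd.continuousOn.comp_continuous hcont hmem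
  set U : Set ℝ := {θ : ℝ | ‖Θ ((ρ : ℂ) * exp ((θ : ℂ) * I))‖ < ε} ∩
    {θ : ℝ | ‖z - (ρ : ℂ) * exp ((θ : ℂ) * I)‖ < δ} with hU
  have hUo : IsOpen U := (isOpen_lt hΘc.norm continuous_const).inter
    (isOpen_lt (continuous_const.sub hcont).norm continuous_const)
  have hUne : U.Nonempty := by
    refine ⟨arg z, ?_, ?_⟩
    · simp only [mem_ofPred_eq, hρ, norm_mul_exp_arg_mul_I]
      exact hzs
    · simp only [mem_ofPred_eq, hρ, norm_mul_exp_arg_mul_I, sub_self, norm_zero]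
      exact hδ0
  have hae : ∀ᵐ θ : ℝ, ∃ r > (0:ℝ), ∃ g : ℂ → ℂ,
      DifferentiableOn ℂ g (ball (exp ((θ:ℂ) * I)) r) ∧
      EqOn g Θ (ball (exp ((θ:ℂ) * I)) r ∩ ball 0 1) := by
    rw [ae_iff]
    exact hnull
  obtain ⟨θ, ⟨hθ1, hθ2⟩, ⟨r, hr, g, hg, hgΘ⟩, w, hw1, hw⟩ :=
    Measure.exists_mem_of_measure_ne_zero_of_ae (hUo.measure_ne_zero volume hUne)
      (ae_restrict_of_ae (hae.and hl))
  set ζ := exp ((θ : ℂ) * I) with hζ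
  have hζ1 : ‖ζ‖ = 1 := norm_exp_ofReal_mul_I θ
  have hg1 : ‖g ζ‖ = 1 := by
    have hc : ContinuousAt (fun t : ℝ => (t : ℂ) * ζ) 1 := by fun_prop
    have h1 : Tendsto (fun t : ℝ => g (t * ζ)) (𝓝[<] 1) (𝓝 (g ζ)) := by
      have := ContinuousAt.comp_of_eq
        (hg.continuousOn.continuousAt (ball_mem_nhds ζ hr)) hc (by simp)
      have h2 := this.tendsto.mono_left (nhdsWithin_le_nhds (s := Iio (1:ℝ)))
      simpa [Function.comp_def] using h2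
    have hev : ∀ᶠ t : ℝ in 𝓝 1, (t * ζ : ℂ) ∈ ball ζ r := by
      apply hc.eventually
      simp only [ofReal_one, one_mul]
      exact ball_mem_nhds ζ hr
    have h2 : Tendsto (fun t : ℝ => g (t * ζ)) (𝓝[<] 1) (𝓝 w) := by
      refine hw.congr' ?_
      filter_upwards [Ioo_mem_nhdsLT (by norm_num : (0:ℝ) < 1), nhdsWithin_le_nhds hev]
        with t ht ht2
      refine (hgΘ ⟨ht2, ?_⟩).symm
      rw [mem_ball_zero_iff, norm_mul, hζ1, mul_one, norm_real, Real.norm_of_nonneg ht.1.le]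
      exact ht.2
    rw [tendsto_nhds_unique h1 h2, hw1]
  have hJ : 1 ≤ ‖deriv g ζ‖ * (l * δ) := by
    rw [← div_le_iff₀ (by positivity)]
    refine le_trans ?_ (julia_gen hd hb hζ1 hρ0 hz1 hε (le_of_lt hθ1) hr hg hgΘ hg1)
    have e : 1 / (l * δ) = 1 / (1 - ρ) * ((1 - ε) / (1 + ε)) := by
      have : 1 - ε ≠ 0 := by linarith
      rw [hl', ← hδ]
      field_simp
    rw [e]
    have : 0 < 1 - ε := by linarith
    gcongr
    linarith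
  have hWδ := hW.pos δ hδ0
  have h1 : (if 1 < ‖deriv g ζ‖ then W (1 / ‖deriv g ζ‖) else W 1) ≤ W (l * δ) := by
    split_ifs with h
    · apply hW.mono _ _ (by positivity)
      rw [div_le_iff₀ (by linarith)]
      linarith
    · apply hW.mono _ _ one_pos
      push Not at h
      nlinarith [mul_pos hl0 hδ0]
  have h1' : 0 ≤ (if 1 < ‖deriv g ζ‖ then W (1 / ‖deriv g ζ‖) else W 1) := by
    split_ifs with h
    · exact (hW.pos _ (by positivity)).le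
    · exact (hW.pos _ one_pos).le
  have h2 : ‖f ζ‖ ≤ K * W δ := hK ζ hζ1 δ hδ0 ((hC ζ hζ1 r hr g hg hgΘ).trans
    (mul_le_mul (le_abs_self C) h1 h1' (abs_nonneg C)))
  have h3 : ‖z - ζ‖ ≤ 2 * δ := by
    have h4 : ‖(ρ : ℂ) * ζ - ζ‖ = δ := by
      have : (ρ : ℂ) * ζ - ζ = -((δ : ℝ) : ℂ) * ζ := by
        rw [hδ]
        push_cast
        ring
      rw [this, norm_mul, hζ1, mul_one, norm_neg, norm_real, Real.norm_of_nonneg hδ0.le]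
    have h5 := norm_sub_le_norm_sub_add_norm_sub z (ρ * ζ) ζ
    have h6 : ‖z - (ρ : ℂ) * ζ‖ < δ := hθ2
    linarith
  have h4 : ‖z - ζ‖ / δ ≤ 2 := by rwa [div_le_iff₀ hδ0]
  have h5 := interior_gen hfd hfc (A := A * W δ) (by positivity) hδ0 hζ1
    (fun η hη => (hmod δ hδ0 ζ η hζ1 hη).trans_eq (by ring)) hz
  calc ‖f z‖ ≤ ‖f ζ‖ + ‖f z - f ζ‖ := norm_le_insert' _ _
    _ ≤ K * W δ + 4 * (1 + 2) * (A * W δ) := by
        refine add_le_add h2 (h5.trans ?_)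
        gcongr
    _ = _ := by ring

theorem condE_of_condS_class {ω : ℝ → ℝ} {L : ℝ} (h : IsModulus ω L)
    (hcl : (∃ K : ℝ, ∀ t ∈ Ioo (0:ℝ) (1 / 2), ω (2 * t) ≤ K * ω t) ∨
      ∀ c > (0:ℝ), ∃ t ∈ Ioo (0:ℝ) 1, ω t < c * t) {f Θ : ℂ → ℂ}
    (hf : InLip ω f) (hΘ : IsInner Θ) (hS : CondS ω L f Θ) {ε : ℝ} (hε : ε ∈ Ioo (0:ℝ) 1) :
    CondE ω L f Θ ε := by
  obtain ⟨A, hA, hmod⟩ := hf.bound h
  obtain ⟨hnull, C, hC⟩ := hS
  refine s_imp_e_all h.isW hf.1 hf.2.1 hA hmod hΘ.1 hΘ.2.1 hΘ.2.2 hnull (C := C) ?_ ?_ hε.1 hε.2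
  · simp only [ext_if]
    exact hC
  · rcases hcl with ⟨K, hK⟩ | hdeg
    · left
      refine dil_of_doubling h.isW (L := L) (K := K) (fun t ht => ?_) fun t ht => ?_
      · split_ifs with h1
        · exact le_lim h.2.1 h.2.2.2.2 ⟨ht, h1⟩
        · exact le_rfl
      · rw [if_pos (by linarith [ht.2]), if_pos (by linarith [ht.2])]
        exact hK t ht
    · right
      refine lower_of_degenerate hf.1 hf.2.1 hA hmod hf.2.2.2 fun c hc => ?_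
      obtain ⟨t, ht, hw⟩ := hdeg c hc
      exact ⟨t, ht, by rw [if_pos ht.2]; exact hw⟩

theorem level_s_e {ω : ℝ → ℝ} {L : ℝ} (h : IsModulus ω L) {ε : ℝ} (hε : ε ∈ Ioo (0:ℝ) 1)
    (hne : ε ≠ 1 / 3) :
    (∀ f Θ : ℂ → ℂ, InLip ω f → IsInner Θ → CondS ω L f Θ → CondE ω L f Θ ε) ↔
    (ε < 1 / 3 ∨ (∃ K : ℝ, ∀ t ∈ Ioo (0:ℝ) (1 / 2), ω (2 * t) ≤ K * ω t) ∨
      ∀ c > (0:ℝ), ∃ t ∈ Ioo (0:ℝ) 1, ω t < c * t) := by
  constructor
  · intro hall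
    by_contra hcon
    rw [not_or, not_or] at hcon
    obtain ⟨h3, hnd, hdeg⟩ := hcon
    push Not at hdeg
    obtain ⟨c, hc0, hc⟩ := hdeg
    obtain ⟨Θ, h1, hS, hE⟩ := not_s_imp_e h hnd hc0 hc
      (lt_of_le_of_ne (not_lt.mp h3) hne.symm) hε.2
    exact hE (hall _ Θ (inLip_one_sub hc0 hc) h1 hS)
  · rintro (h3 | hcl) f Θ hf hΘ hS
    · exact condE_of_condS_level h hf hΘ hS hε.1 h3
    · exact condE_of_condS_class h hcl hf hΘ hS hε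

theorem level_e_s {ω : ℝ → ℝ} {L : ℝ} (h : IsModulus ω L) {ε : ℝ} (hε : ε ∈ Ioo (0:ℝ) 1)
    (hne : ε ≠ Real.exp (-1)) :
    (∀ f Θ : ℂ → ℂ, InLip ω f → IsInner Θ → CondE ω L f Θ ε → CondS ω L f Θ) ↔
    (Real.exp (-1) < ε ∨ (∃ K : ℝ, ∀ t ∈ Ioo (0:ℝ) (1 / 2), ω (2 * t) ≤ K * ω t) ∨
      ∀ c > (0:ℝ), ∃ t ∈ Ioo (0:ℝ) 1, ω t < c * t) := by
  constructor
  · intro hall
    by_contra hcon
    rw [not_or, not_or] at hcon
    obtain ⟨h3, hnd, hdeg⟩ := hcon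
    push Not at hdeg
    obtain ⟨c, hc0, hc⟩ := hdeg
    obtain ⟨Θ, h1, hE, hS⟩ := not_e_imp_s h hnd hc0 hc hε.1 (lt_of_le_of_ne (not_lt.mp h3) hne)
    exact hS (hall _ Θ (inLip_one_sub hc0 hc) h1 hE)
  · rintro (h3 | hcl) f Θ hf hΘ hE
    · exact condS_of_condE_level h hf hΘ hε h3 hE
    · exact condS_of_condE h hcl hf hΘ hε hE

end Pool.Agent.P.MP_32de40_an
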