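import Pool.Agent.P.MP_32de40_an.Reflect

set_option autoImplicit false

open Complex Set Metric Filter Topology MeasureTheory ComplexConjugate

namespace Pool.Agent.P.MP_32de40_an

theorem tendsto_vertical (x : ℝ) :
    Tendsto (fun y : ℝ => (x : ℂ) + y * I) (𝓝[>] 0) (𝓝 (x : ℂ)) := by
  have : ContinuousAt (fun y : ℝ => (x : ℂ) + y * I) 0 := by fun_prop
  simpa using this.tendsto.mono_left (nhdsWithin_le_nhds (s := Ioi (0:ℝ)))

/-- Reflection across the diameter of a disc. -/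
theorem reflect_ball {K : ℂ → ℂ} {r ε : ℝ} (hr : 0 < r) (hε : 0 < ε) (hε1 : ε ≤ 1)
    (hKd : ∀ u ∈ ball (0:ℂ) r, 0 < u.im → DifferentiableAt ℂ K u)
    (hKl : ∀ u ∈ ball (0:ℂ) r, 0 < u.im → ε ≤ ‖K u‖)
    (hKu : ∀ u ∈ ball (0:ℂ) r, 0 < u.im → ‖K u‖ ≤ 1)
    (hlim : ∀ x : ℝ, |x| < r → ∃ w : ℂ, ‖w‖ = 1 ∧
      Tendsto (fun y : ℝ => K (x + y * I)) (𝓝[>] 0) (𝓝 w)) :
    ∃ G : ℂ → ℂ, DifferentiableOn ℂ G (ball 0 r) ∧
      (∀ u ∈ ball (0:ℂ) r, 0 < u.im → G u = K u) ∧
      (∀ u ∈ ball (0:ℂ) r, ε ≤ ‖G u‖ ∧ ‖G u‖ ≤ 1 / ε) ∧ ‖G 0‖ = 1 := by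
  classical
  set F : ℂ → ℂ := fun u => if 0 < u.im then K u else (conj (K (conj u)))⁻¹ with hF
  have hFpos : ∀ u : ℂ, 0 < u.im → F u = K u := by
    intro u hu
    simp [hF, hu]
  have hFneg : ∀ u : ℂ, u.im < 0 → F u = (conj (K (conj u)))⁻¹ := by
    intro u hu
    simp [hF, hu.le]
  have hconj : ∀ u ∈ ball (0:ℂ) r, conj u ∈ ball (0:ℂ) r := by
    intro u hu
    simpa using hu
  obtain ⟨G, hG1, hG2, hG3⟩ := exists_extension (R := r) (M := 1 / ε) (F := F) (by
      intro u hu hu0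
      rcases lt_or_gt_of_ne hu0 with h | h
      · have h1 : DifferentiableAt ℂ (conj ∘ K ∘ conj) u := by
          rw [differentiableAt_conj_conj_iff]
          exact hKd _ (hconj u hu) (by simpa using h)
        have h2 : (conj ∘ K ∘ conj) u ≠ 0 := by
          have := hKl _ (hconj u hu) (by simpa using h)
          simp only [Function.comp_apply, ne_eq, map_eq_zero]
          intro h0
          rw [h0, norm_zero] at this
          linarith
        refine (h1.inv h2).congr_of_eventuallyEq ?_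
        have : {v : ℂ | v.im < 0} ∈ 𝓝 u :=
          (isOpen_lt continuous_im continuous_const).mem_nhds h
        filter_upwards [this] with v hv
        exact hFneg v hv
      · refine (hKd u hu h).congr_of_eventuallyEq ?_
        have : {v : ℂ | 0 < v.im} ∈ 𝓝 u :=
          (isOpen_lt continuous_const continuous_im).mem_nhds h
        filter_upwards [this] with v hv
        exact hFpos v hv)
    (by
      intro u hu hu0
      rcases lt_or_gt_of_ne hu0 with h | h
      · rw [hFneg u h, norm_inv, norm_conj, one_div]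
        exact inv_anti₀ hε (hKl _ (hconj u hu) (by simpa using h))
      · rw [hFpos u h]
        refine (hKu u hu h).trans ?_
        rw [le_div_iff₀ hε]
        linarith)
    (by
      refine Eventually.of_forall fun x hx => ?_
      obtain ⟨w, hw1, hKx⟩ := hlim x hx
      refine ⟨w, ?_⟩
      rw [← nhdsLT_sup_nhdsGT, tendsto_sup]
      constructor
      · have h1 := hKx.comp neg_tendsto
        have hw0 : conj w ≠ 0 := by
          intro h0
          rw [map_eq_zero] at h0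
          rw [h0, norm_zero] at hw1
          exact zero_ne_one hw1
        have h2 := ((continuous_conj.tendsto w).comp h1).inv₀ hw0
        have h3 : (conj w)⁻¹ = w := by
          rw [inv_eq_of_mul_eq_one_right]
          rw [mul_comm, mul_conj, normSq_eq_norm_sq, hw1]
          simp
        rw [h3] at h2
        refine h2.congr' ?_
        filter_upwards [self_mem_nhdsWithin] with y hy
        rw [hFneg _ (by simpa using hy)]
        simp
      · refine hKx.congr' ?_
        filter_upwards [self_mem_nhdsWithin] with y hy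
        rw [hFpos _ (by simpa using hy)])
  have hup : ∀ u ∈ ball (0:ℂ) r, 0 < u.im → G u = K u := fun u hu h0 => by
    rw [hG2 u hu h0.ne', hFpos u h0]
  have hreal : ∀ x : ℝ, |x| < r → ‖G x‖ = 1 := by
    intro x hx
    obtain ⟨w, hw1, hKx⟩ := hlim x hx
    have hxb : (x : ℂ) ∈ ball (0:ℂ) r := by simpa using hx
    have h1 := ((hG1.continuousOn.continuousAt (isOpen_ball.mem_nhds hxb)).tendsto).comp
      (tendsto_vertical x)
    have h2 : Tendsto (G ∘ fun y : ℝ => (x : ℂ) + y * I) (𝓝[>] 0) (𝓝 w) := by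
      refine hKx.congr' ?_
      filter_upwards [self_mem_nhdsWithin,
        (tendsto_vertical x).eventually (isOpen_ball.mem_nhds hxb)] with y hy hy2
      exact (hup _ hy2 (by simpa using hy)).symm
    rw [tendsto_nhds_unique h1 h2, hw1]
  refine ⟨G, hG1, hup, fun u hu => ⟨?_, hG3 u hu⟩, by simpa using hreal 0 (by simpa using hr)⟩
  rcases lt_trichotomy u.im 0 with h | h | h
  · rw [hG2 u hu h.ne, hFneg u h, norm_inv, norm_conj]
    have h1 := hKl _ (hconj u hu) (by simpa using h)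
    have h2 := hKu _ (hconj u hu) (by simpa using h)
    exact hε1.trans ((one_le_inv₀ (hε.trans_le h1)).mpr h2)
  · have e : u = (u.re : ℂ) := by
      apply Complex.ext <;> simp [h]
    rw [e, hreal u.re ((abs_re_le_norm u).trans_lt (mem_ball_zero_iff.mp hu))]
    exact hε1
  · rw [hup u hu h]
    exact hKl u hu h

/-- The Schwarz lemma for a map into an annulus, at a point of the core circle. -/
theorem annulus_schwarz {G : ℂ → ℂ} {r ε : ℝ} (hr : 0 < r) (hε : 0 < ε) (hε1 : ε < 1)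
    (hG : DifferentiableOn ℂ G (ball 0 r))
    (hb : ∀ u ∈ ball (0:ℂ) r, ε ≤ ‖G u‖ ∧ ‖G u‖ ≤ 1 / ε) (h0 : ‖G 0‖ = 1) :
    ‖deriv G 0‖ ≤ 4 * (-Real.log ε) / (Real.pi * r) := by
  set M := -Real.log ε with hM
  have hM0 : 0 < M := neg_pos.mpr (Real.log_neg hε hε1)
  have hpi := Real.pi_pos
  have hne : ∀ u ∈ ball (0:ℂ) r, G u ≠ 0 := fun u hu =>
    norm_pos_iff.mp (hε.trans_le (hb u hu).1)
  have h0b : (0:ℂ) ∈ ball (0:ℂ) r := mem_ball_self hr
  obtain ⟨H, hH0, hH⟩ := (((hG.deriv isOpen_ball).div hG hne).isExactOn_ball).with_val_at 0 0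
  have hHd : DifferentiableOn ℂ H (ball 0 r) := fun u hu =>
    (hH u hu).differentiableAt.differentiableWithinAt
  have hconst : ∀ u ∈ ball (0:ℂ) r, G u * exp (-H u) = G 0 * exp (-H 0) := by
    intro u hu
    refine isOpen_ball.is_const_of_deriv_eq_zero (f := fun u => G u * exp (-H u))
      (convex_ball (0:ℂ) r).isPreconnected (hG.mul hHd.neg.cexp) (fun v hv => ?_) hu h0b
    have h1 := ((hG.differentiableAt (isOpen_ball.mem_nhds hv)).hasDerivAt).mul
      (hH v hv).neg.cexp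
    have h2 := hne v hv
    refine h1.deriv.trans ?_
    simp only [Pi.div_apply, Pi.neg_apply, Pi.zero_apply]
    field_simp
    ring
  have hre : ∀ u ∈ ball (0:ℂ) r, |(H u).re| ≤ M := by
    intro u hu
    have h1 := congrArg norm (hconst u hu)
    rw [norm_mul, norm_mul, norm_exp, norm_exp, hH0, h0] at h1
    simp only [neg_re, neg_zero, zero_re, Real.exp_zero, mul_one] at h1
    have h2 : Real.log ‖G u‖ = (H u).re := by
      have h3 := congrArg Real.log h1
      rw [Real.log_mul (norm_ne_zero_iff.mpr (hne u hu)) (Real.exp_pos _).ne', Real.log_exp,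
        Real.log_one] at h3
      linarith
    have h3 := Real.log_le_log hε (hb u hu).1
    have h4 := Real.log_le_log (hε.trans_le (hb u hu).1) (hb u hu).2
    rw [one_div, Real.log_inv] at h4
    rw [← h2, abs_le]
    constructor <;> linarith
  set k : ℝ := Real.pi / (2 * M) with hk
  have hk0 : 0 < k := by positivity
  set q : ℂ → ℂ := fun u => exp (I * k * H u) with hq
  have hqre : ∀ u ∈ ball (0:ℂ) r, 0 ≤ (q u).re := by
    intro u hu
    simp only [hq]
    rw [exp_re]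
    apply mul_nonneg (Real.exp_pos _).le
    have e : (I * k * H u).im = k * (H u).re := by simp
    rw [e]
    have h1 : |k * (H u).re| ≤ Real.pi / 2 := by
      rw [abs_mul, abs_of_pos hk0]
      calc k * |(H u).re| ≤ k * M := by gcongr; exact hre u hu
        _ = Real.pi / 2 := by rw [hk]; field_simp
    exact Real.cos_nonneg_of_mem_Icc (abs_le.mp h1)
  have hq1 : ∀ u ∈ ball (0:ℂ) r, q u + 1 ≠ 0 := by
    intro u hu h
    have := congrArg re h
    simp only [add_re, one_re, zero_re] at this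
    linarith [hqre u hu]
  have hqd : DifferentiableOn ℂ q (ball 0 r) := (hHd.const_mul _).cexp
  have hq0 : q 0 = 1 := by simp [hq, hH0]
  have hT := norm_deriv_le_div_of_mapsTo_ball (f := fun u => (q u - 1) / (q u + 1)) (R₂ := 1)
    ((hqd.sub_const 1).div (hqd.add_const 1) hq1) (fun u hu => by
      simp only [hq0, sub_self, zero_div, mem_closedBall_zero_iff]
      rw [norm_div, div_le_one (norm_pos_iff.mpr (hq1 u hu)),
        ← sq_le_sq₀ (norm_nonneg _) (norm_nonneg _), ← normSq_eq_norm_sq, ← normSq_eq_norm_sq]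
      simp only [normSq_apply, sub_re, add_re, one_re, sub_im, add_im, one_im]
      nlinarith [hqre u hu]) hr
  have hq' : HasDerivAt q (I * k * (deriv G 0 / G 0)) 0 := by
    have := ((hH 0 h0b).const_mul (I * k)).cexp
    simpa [hH0] using this
  have hT' : HasDerivAt (fun u => (q u - 1) / (q u + 1)) (I * k * (deriv G 0 / G 0) / 2) 0 := by
    have := (hq'.sub_const 1).div (hq'.add_const 1) (hq1 0 h0b)
    refine this.congr_deriv ?_
    rw [hq0]
    ring
  rw [hT'.deriv, norm_div, norm_mul, norm_mul, norm_div, h0, norm_I, norm_real,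
    Real.norm_of_nonneg hk0.le] at hT
  simp only [one_mul, div_one, Complex.norm_ofNat] at hT
  rw [le_div_iff₀ hr] at hT
  rw [le_div_iff₀ (by positivity)]
  calc ‖deriv G 0‖ * (Real.pi * r) = 4 * M * (k * ‖deriv G 0‖ / 2 * r) := by
        rw [hk]
        field_simp
        ring
    _ ≤ 4 * M * 1 := by gcongr
    _ = _ := by ring

/-- A continuation of an inner function is unimodular at the boundary point. -/
theorem norm_cont_eq_one {Θ : ℂ → ℂ}
    (hl : ∀ᵐ θ : ℝ, ∃ w : ℂ, ‖w‖ = 1 ∧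
      Tendsto (fun r : ℝ => Θ ((r : ℂ) * exp ((θ : ℂ) * I))) (𝓝[<] 1) (𝓝 w))
    (θ₀ : ℝ) {r : ℝ} (hr : 0 < r) {g : ℂ → ℂ}
    (hg : DifferentiableOn ℂ g (ball (exp ((θ₀ : ℂ) * I)) r))
    (hgΘ : EqOn g Θ (ball (exp ((θ₀ : ℂ) * I)) r ∩ ball 0 1)) :
    ‖g (exp ((θ₀ : ℂ) * I))‖ = 1 := by
  have hce : Continuous fun θ : ℝ => exp ((θ : ℂ) * I) := by fun_prop
  have h1 := mem_closure_iff_frequently.mp (Measure.dense_of_ae hl θ₀)
  have h2 : ∀ᶠ θ : ℝ in 𝓝 θ₀, exp ((θ : ℂ) * I) ∈ ball (exp ((θ₀ : ℂ) * I)) r :=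
    hce.continuousAt.eventually (ball_mem_nhds _ hr)
  have h3 : Tendsto (fun θ : ℝ => ‖g (exp ((θ : ℂ) * I))‖) (𝓝 θ₀)
      (𝓝 ‖g (exp ((θ₀ : ℂ) * I))‖) :=
    ((hg.continuousOn.continuousAt (ball_mem_nhds _ hr)).tendsto.comp
      hce.continuousAt.tendsto).norm
  refine tendsto_nhds_unique_of_frequently_eq h3 tendsto_const_nhds
    ((h1.and_eventually h2).mono ?_)
  rintro θ ⟨⟨w, hw1, hw⟩, hθ⟩
  set η := exp ((θ : ℂ) * I) with hη
  have hη1 : ‖η‖ = 1 := norm_exp_ofReal_mul_I θ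
  have hc : ContinuousAt (fun t : ℝ => (t : ℂ) * η) 1 := by fun_prop
  have h4 : Tendsto (fun t : ℝ => g (t * η)) (𝓝[<] 1) (𝓝 (g η)) := by
    have := ContinuousAt.comp_of_eq
      (hg.continuousOn.continuousAt (isOpen_ball.mem_nhds hθ)) hc (by simp)
    have h2 := this.tendsto.mono_left (nhdsWithin_le_nhds (s := Iio (1:ℝ)))
    simpa [Function.comp_def] using h2
  have hev : ∀ᶠ t : ℝ in 𝓝 1, (t * η : ℂ) ∈ ball (exp ((θ₀ : ℂ) * I)) r := by
    apply hc.eventually
    simp only [ofReal_one, one_mul]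
    exact isOpen_ball.mem_nhds hθ
  have h5 : Tendsto (fun t : ℝ => g (t * η)) (𝓝[<] 1) (𝓝 w) := by
    refine hw.congr' ?_
    filter_upwards [Ioo_mem_nhdsLT (by norm_num : (0:ℝ) < 1), nhdsWithin_le_nhds hev]
      with t ht ht2
    refine (hgΘ ⟨ht2, ?_⟩).symm
    rw [mem_ball_zero_iff, norm_mul, hη1, mul_one, norm_real, Real.norm_of_nonneg ht.1.le]
    exact ht.2
  rw [tendsto_nhds_unique h4 h5, hw1]

/-- The map of the disc onto a horizontal strip. -/
noncomputable def lg (w : ℂ) : ℂ := log ((1 + w) / (1 - w))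

theorem cayley_re {w : ℂ} (hw : ‖w‖ < 1) : 0 < ((1 + w) / (1 - w)).re := by
  have h0 : 1 - w ≠ 0 := by
    intro h
    rw [← sub_eq_zero.mp h] at hw
    simp at hw
  have h1 := normSq_pos.mpr h0
  have h2 : normSq w < 1 := by
    rw [normSq_eq_norm_sq]
    nlinarith [norm_nonneg w]
  rw [div_re, ← add_div]
  apply div_pos _ h1
  simp only [normSq_apply, add_re, one_re, sub_re, add_im, one_im, sub_im] at h2 ⊢
  nlinarith

theorem cayley_im (w : ℂ) : ((1 + w) / (1 - w)).im = 2 * w.im / normSq (1 - w) := by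
  rw [div_im, ← sub_div]
  simp only [add_re, one_re, sub_re, add_im, one_im, sub_im]
  ring

theorem lg_hasDerivAt {w : ℂ} (hw : ‖w‖ < 1) : HasDerivAt lg (2 / ((1 + w) * (1 - w))) w := by
  have h0 : 1 - w ≠ 0 := by
    intro h
    rw [← sub_eq_zero.mp h] at hw
    simp at hw
  have h1 : 1 + w ≠ 0 := by
    intro h
    have := cayley_re hw
    simp [h] at this
  have h2 := (((hasDerivAt_id w).const_add 1).div ((hasDerivAt_id w).const_sub 1) h0).clog
    (Or.inl (cayley_re hw))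
  refine h2.congr_deriv ?_
  simp only [id, Pi.div_apply]
  field_simp
  ring

theorem lg_im {w : ℂ} (hw : ‖w‖ < 1) (h : 0 < w.im) : 0 < (lg w).im ∧ (lg w).im < Real.pi / 2 := by
  have h0 : 1 - w ≠ 0 := by
    intro h
    rw [← sub_eq_zero.mp h] at hw
    simp at hw
  have h1 : 0 < ((1 + w) / (1 - w)).im := by
    rw [cayley_im]
    exact div_pos (by linarith) (normSq_pos.mpr h0)
  rw [lg, log_im]
  refine ⟨lt_of_le_of_ne (arg_nonneg_iff.mpr h1.le) fun h2 => ?_,
    (abs_lt.mp (abs_arg_lt_pi_div_two_iff.mpr (Or.inl (cayley_re hw)))).2⟩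
  exact h1.ne' (arg_eq_zero_iff.mp h2.symm).2

theorem lg_real {x : ℝ} (hx : |x| < 1) : lg x = ((lg x).re : ℂ) := by
  apply Complex.ext
  · simp
  · rw [ofReal_im, lg, log_im, arg_eq_zero_iff]
    refine ⟨(cayley_re (by simpa using hx)).le, ?_⟩
    rw [cayley_im]
    simp

/-- The sharp bound for the boundary derivative when the level set avoids a long thin window. -/
theorem deriv_le_sharp {r : ℝ} (hr0 : 0 < r) (hr1 : r < 1) : ∃ R : ℝ, 1 ≤ R ∧
    ∀ Θ : ℂ → ℂ, DifferentiableOn ℂ Θ (ball 0 1) → (∀ z ∈ ball (0:ℂ) 1, ‖Θ z‖ ≤ 1) →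
    (∀ᵐ θ : ℝ, ∃ w : ℂ, ‖w‖ = 1 ∧
      Tendsto (fun r : ℝ => Θ ((r : ℂ) * exp ((θ : ℂ) * I))) (𝓝[<] 1) (𝓝 w)) →
    ∀ ε d : ℝ, 0 < ε → ε < 1 → 0 < d → R * d ≤ 1 → ∀ ζ : ℂ, ‖ζ‖ = 1 →
    (∀ z ∈ ball (0:ℂ) 1, 1 - ‖z‖ < d → ‖z - ζ‖ ≤ 3 * R * d → ε ≤ ‖Θ z‖) →
    ∀ ρ > (0:ℝ), ∀ g : ℂ → ℂ, DifferentiableOn ℂ g (ball ζ ρ) →
    EqOn g Θ (ball ζ ρ ∩ ball 0 1) → ‖deriv g ζ‖ ≤ -Real.log ε / (r * d) := by
  have hpi := Real.pi_pos
  obtain ⟨R0, hR0⟩ := (isCompact_closedBall (0:ℂ) r).exists_bound_of_continuousOn (f := lg)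
    fun w hw => (lg_hasDerivAt ((mem_closedBall_zero_iff.mp hw).trans_lt hr1)).continuousAt
      |>.continuousWithinAt
  refine ⟨max R0 1, le_max_right _ _, ?_⟩
  set R := max R0 1 with hR
  have hR1 : 1 ≤ R := le_max_right _ _
  intro Θ hd hb hl ε d hε hε1 hd0 hRd ζ hζ hlow ρ hρ g hg hgΘ
  obtain ⟨θ₀, rfl⟩ : ∃ θ₀ : ℝ, ζ = exp ((θ₀ : ℂ) * I) :=
    ⟨arg ζ, by simpa [hζ] using (norm_mul_exp_arg_mul_I ζ).symm⟩
  have hd1 : d ≤ 1 := by nlinarith
  set k : ℝ := 2 * d / Real.pi with hk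
  have hk0 : 0 < k := by positivity
  have hkd : k ≤ d := by
    rw [hk, div_le_iff₀ hpi]
    nlinarith [Real.two_le_pi]
  set e : ℂ → ℂ := fun u => exp ((θ₀ + k * lg u) * I) with he
  have hlt : ∀ u ∈ ball (0:ℂ) r, ‖u‖ < 1 := fun u hu => (mem_ball_zero_iff.mp hu).trans hr1
  have hed : ∀ u : ℂ, ‖u‖ < 1 → HasDerivAt e (e u * (k * (2 / ((1 + u) * (1 - u))) * I)) u :=
    fun u hu => ((((lg_hasDerivAt hu).const_mul (k : ℂ)).const_add (θ₀ : ℂ)).mul_const I).cexp
  have hnorm : ∀ u : ℂ, ‖e u‖ = Real.exp (-(k * (lg u).im)) := by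
    intro u
    simp only [he]
    rw [norm_exp]
    simp
  have hin : ∀ u : ℂ, ‖u‖ < 1 → 0 < u.im → e u ∈ ball (0:ℂ) 1 := by
    intro u hu h0
    rw [mem_ball_zero_iff, hnorm, Real.exp_lt_one_iff, neg_lt_zero]
    exact mul_pos hk0 (lg_im hu h0).1
  have hdepth : ∀ u : ℂ, ‖u‖ < 1 → 0 < u.im → 1 - ‖e u‖ < d := by
    intro u hu h0
    rw [hnorm]
    have h1 := Real.add_one_le_exp (-(k * (lg u).im))
    have h2 : k * (lg u).im < k * (Real.pi / 2) := by
      gcongr
      exact (lg_im hu h0).2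
    have h3 : k * (Real.pi / 2) = d := by
      rw [hk]
      field_simp
    linarith
  have hnear : ∀ u ∈ ball (0:ℂ) r, ‖e u - exp ((θ₀ : ℂ) * I)‖ ≤ 2 * (R * d) := by
    intro u hu
    have h1 : e u - exp (θ₀ * I) = exp (θ₀ * I) * (exp (k * lg u * I) - 1) := by
      simp only [he]
      rw [add_mul, exp_add]
      ring
    have h2 : ‖k * lg u * I‖ ≤ R * d := by
      rw [norm_mul, norm_mul, norm_I, mul_one, norm_real, Real.norm_of_nonneg hk0.le, mul_comm]
      gcongr
      exact (hR0 u (ball_subset_closedBall hu)).trans (le_max_left _ _)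
    rw [h1, norm_mul, norm_exp_ofReal_mul_I, one_mul]
    exact (norm_exp_sub_one_le (h2.trans hRd)).trans (by gcongr)
  obtain ⟨G, hG1, hG2, hG3, hG0⟩ := reflect_ball (K := fun u => Θ (e u)) hr0 hε hε1.le
    (fun u hu h0 => (hd.differentiableAt (isOpen_ball.mem_nhds (hin u (hlt u hu) h0))).comp u
      (hed u (hlt u hu)).differentiableAt)
    (fun u hu h0 => hlow _ (hin u (hlt u hu) h0) (hdepth u (hlt u hu) h0)
      ((hnear u hu).trans (by nlinarith)))
    (fun u hu h0 => hb _ (hin u (hlt u hu) h0))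
    (by
      intro x hx
      have hxb : (x : ℂ) ∈ ball (0:ℂ) r := by simpa using hx
      have hex : e x = exp (((θ₀ + k * (lg x).re : ℝ) : ℂ) * I) := by
        simp only [he]
        rw [lg_real (hx.trans hr1)]
        simp
      obtain ⟨r', hr', g', hg', hg'Θ⟩ := exists_continuation hd hb hl hε hε1.le hd0 hd1
        (θ₀ + k * (lg x).re) (fun z hz hzd => by
          rw [← hex, mem_ball, dist_eq_norm] at hzd
          have h1 := norm_sub_norm_le (e x) z
          rw [norm_sub_rev, hex, norm_exp_ofReal_mul_I, ← hex] at h1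
          have h2 := norm_sub_le_norm_sub_add_norm_sub z (e x) (exp ((θ₀ : ℂ) * I))
          exact hlow z hz (by linarith) (by nlinarith [hnear x hxb]))
      refine ⟨_, norm_cont_eq_one hl _ hr' hg' hg'Θ, ?_⟩
      rw [← hex] at hg' hg'Θ ⊢
      have h1 := (hed x (hlt x hxb)).continuousAt.tendsto.comp (tendsto_vertical x)
      have h2 := (hg'.continuousOn.continuousAt (ball_mem_nhds _ hr')).tendsto.comp h1
      refine h2.congr' ?_
      filter_upwards [self_mem_nhdsWithin, h1.eventually (ball_mem_nhds _ hr'),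
        (tendsto_vertical x).eventually (isOpen_ball.mem_nhds hxb)] with y hy hy1 hy2
      exact hg'Θ ⟨hy1, hin _ (hlt _ hy2) (by simpa using hy)⟩)
  have hG4 := annulus_schwarz hr0 hε hε1 hG1 hG3 hG0
  have he0 : e 0 = exp ((θ₀ : ℂ) * I) := by simp [he, lg]
  have hea : AnalyticAt ℂ e 0 :=
    DifferentiableOn.analyticAt (s := ball 0 r)
      (fun u hu => (hed u (hlt u hu)).differentiableAt.differentiableWithinAt)
      (ball_mem_nhds _ hr0)
  have hga : AnalyticAt ℂ g (e 0) := by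
    rw [he0]
    exact hg.analyticAt (ball_mem_nhds _ hρ)
  have hGa : AnalyticAt ℂ G 0 := hG1.analyticAt (ball_mem_nhds _ hr0)
  have heq : ∀ᶠ u in 𝓝 (0:ℂ), (g ∘ e) u = G u := by
    rw [← (hga.comp hea).frequently_eq_iff_eventually_eq hGa]
    have h1 : ∀ᶠ u in 𝓝 (0:ℂ), e u ∈ ball (exp ((θ₀ : ℂ) * I)) ρ := by
      apply hea.continuousAt.eventually
      rw [he0]
      exact ball_mem_nhds _ hρ
    have h2 : ∃ᶠ u in 𝓝[≠] (0:ℂ), 0 < u.im := by
      have h3 : Tendsto (fun y : ℝ => ((0:ℝ) : ℂ) + y * I) (𝓝[>] 0) (𝓝[≠] 0) := by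
        apply tendsto_nhdsWithin_of_tendsto_nhds_of_eventually_within
        · simpa using tendsto_vertical 0
        · filter_upwards [self_mem_nhdsWithin] with y hy
          have : y ≠ 0 := ne_of_gt hy
          simpa using this
      apply h3.frequently
      apply Eventually.frequently
      filter_upwards [self_mem_nhdsWithin] with y hy
      simpa using hy
    refine (h2.and_eventually
      (nhdsWithin_le_nhds (h1.and (ball_mem_nhds (0:ℂ) hr0)))).mono ?_
    rintro u ⟨hu0, hu1, hu2⟩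
    rw [hG2 u hu2 hu0, Function.comp_apply]
    exact hgΘ ⟨hu1, hin u (hlt u hu2) hu0⟩
  have h5 := (hga.differentiableAt.hasDerivAt.comp (0:ℂ) (hed 0 (by simp))).deriv
  rw [EventuallyEq.deriv_eq heq, he0] at h5
  rw [h5, norm_mul, norm_mul, norm_exp_ofReal_mul_I, norm_mul, norm_I, norm_mul, norm_real,
    Real.norm_of_nonneg hk0.le] at hG4
  simp only [add_zero, sub_zero, mul_one, div_one, Complex.norm_ofNat, one_mul] at hG4
  rw [le_div_iff₀ (by positivity)] at hG4 ⊢
  have h6 : ‖deriv g (exp ((θ₀ : ℂ) * I))‖ * (k * 2) * (Real.pi * r) =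
      4 * (‖deriv g (exp ((θ₀ : ℂ) * I))‖ * (r * d)) := by
    rw [hk]
    field_simp
    ring
  linarith

end Pool.Agent.P.MP_32de40_an
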