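import Pool.Agent.P.MP_32de40_an.Gen

set_option autoImplicit false

open Complex Set Metric Filter Topology MeasureTheory ComplexConjugate

namespace Pool.Agent.P.MP_32de40_an

theorem bf_near' {a z : ℂ} (ha : ‖a‖ < 1) (hz : ‖z‖ ≤ 1) {κ : ℝ}
    (h : 1 - ‖z‖ ≤ κ * (1 - ‖a‖)) : 1 - 4 * κ ≤ ‖bf a z‖ ^ 2 := by
  rw [bf_sq ha hz]
  set D := ‖1 - conj a * z‖ with hD
  have h2 : 1 - ‖a‖ ≤ D := den_ge_left hz
  have h6 : 0 < 1 - ‖a‖ := by linarith
  have h3 : 1 - ‖a‖ ^ 2 ≤ 2 * (1 - ‖a‖) := by nlinarith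
  have h4 : 1 - ‖z‖ ^ 2 ≤ 2 * (κ * (1 - ‖a‖)) := by nlinarith
  have h5 : 0 ≤ 1 - ‖z‖ ^ 2 := by nlinarith [norm_nonneg z]
  have h7 : (1 - ‖a‖ ^ 2) * (1 - ‖z‖ ^ 2) / D ^ 2 ≤ 4 * κ := by
    calc (1 - ‖a‖ ^ 2) * (1 - ‖z‖ ^ 2) / D ^ 2
        ≤ (2 * (1 - ‖a‖)) * (2 * (κ * (1 - ‖a‖))) / (1 - ‖a‖) ^ 2 := by
          gcongr
          nlinarith
      _ = 4 * κ := by field_simp; ring
  linarith

theorem bf_hasDerivAt {a z : ℂ} (ha : ‖a‖ < 1) (hz : ‖z‖ ≤ 1) :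
    ∃ D : ℂ, HasDerivAt (bf a) D z ∧ ‖D‖ ≤ 2 * (1 - ‖a‖) / ‖1 - conj a * z‖ ^ 2 := by
  have h0 : 0 < ‖1 - conj a * z‖ := by linarith [den_ge_left (a := a) hz]
  have h1 := ((hasDerivAt_id z).const_sub a).div
    (((hasDerivAt_id z).const_mul (conj a)).const_sub 1) (norm_pos_iff.mp h0)
  refine ⟨_, h1, ?_⟩
  simp only [id]
  have e : -1 * (1 - conj a * z) - (a - z) * -(conj a * 1) = -((1 - ‖a‖ ^ 2 : ℝ) : ℂ) := by
    have : a * conj a = ((‖a‖ ^ 2 : ℝ) : ℂ) := by rw [mul_conj, normSq_eq_norm_sq]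
    push_cast at this ⊢
    linear_combination this
  have h2 : 0 ≤ 1 - ‖a‖ ^ 2 := by nlinarith [norm_nonneg a]
  rw [e, norm_div, norm_neg, norm_real, Real.norm_of_nonneg h2, norm_pow]
  gcongr
  nlinarith

/-- Local convergence of a Blaschke product whose zeros tend to `1` fast. -/
theorem local_deriv {a : ℕ → ℂ} (ha : ∀ k, ‖a k‖ < 1) (hs : Summable fun k => ‖1 - a k‖)
    {z0 : ℂ} (hz0 : ‖z0‖ ≤ 1) (hne : z0 ≠ 1) :
    Tendsto (fun n => deriv (fun z => ∏ k ∈ Finset.range n, bf (a k) z) z0) atTop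
      (𝓝 (deriv (fun z => ∏' k, bf (a k) z) z0)) := by
  have ha1 : Tendsto a atTop (𝓝 1) := by
    rw [tendsto_iff_norm_sub_tendsto_zero]
    simpa [norm_sub_rev] using hs.tendsto_atTop_zero
  have hpos : ∀ k, 0 < ‖1 - conj (a k) * z0‖ := fun k => by
    linarith [den_ge_left (a := a k) hz0, ha k]
  have hlim : Tendsto (fun k => ‖1 - conj (a k) * z0‖⁻¹) atTop (𝓝 ‖1 - conj 1 * z0‖⁻¹) := by
    apply Tendsto.inv₀
    · exact (((continuous_conj.tendsto 1).comp ha1).mul_const z0).const_sub 1 |>.norm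
    · simp only [map_one, one_mul]
      exact norm_ne_zero_iff.mpr (sub_ne_zero.mpr hne.symm)
  obtain ⟨M, hM⟩ := hlim.bddAbove_range
  have hM' : ∀ k, ‖1 - conj (a k) * z0‖⁻¹ ≤ M := fun k => hM ⟨k, rfl⟩
  have hM0 : 0 < M := (inv_pos.mpr (hpos 0)).trans_le (hM' 0)
  set c : ℝ := min (M⁻¹ / 2) 1 with hc
  have hc0 : 0 < c := lt_min (by positivity) one_pos
  have hc1 : c ≤ 1 := min_le_right _ _
  have hc2 : 2 * c ≤ M⁻¹ := by linarith [min_le_left (M⁻¹ / 2) 1]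
  have hden : ∀ k, ∀ z ∈ ball z0 c, c ≤ ‖1 - conj (a k) * z‖ := by
    intro k z hz
    rw [mem_ball, dist_eq_norm] at hz
    have h1 : M⁻¹ ≤ ‖1 - conj (a k) * z0‖ := inv_le_of_inv_le₀ (hpos k) (hM' k)
    have h2 : 1 - conj (a k) * z0 = (1 - conj (a k) * z) + conj (a k) * (z - z0) := by ring
    have h3 : ‖conj (a k) * (z - z0)‖ ≤ c := by
      rw [norm_mul, norm_conj]
      nlinarith [ha k, norm_nonneg (a k), norm_nonneg (z - z0)]
    have h4 := norm_add_le (1 - conj (a k) * z) (conj (a k) * (z - z0))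
    rw [← h2] at h4
    linarith
  have hne' : ∀ k, ∀ z ∈ ball z0 c, 1 - conj (a k) * z ≠ 0 := fun k z hz =>
    norm_pos_iff.mp (hc0.trans_le (hden k z hz))
  have hdiff : ∀ k, DifferentiableOn ℂ (bf (a k)) (ball z0 c) := by
    intro k
    unfold bf
    exact DifferentiableOn.div (by fun_prop) (by fun_prop) (hne' k)
  have hbd : ∀ k, ∀ z ∈ ball z0 c, ‖bf (a k) z - 1‖ ≤ 3 / c * ‖1 - a k‖ := by
    intro k z hz
    have hz2 : ‖z‖ ≤ 2 := by
      rw [mem_ball, dist_eq_norm] at hz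
      have := norm_le_insert' z z0
      linarith
    have h1 : bf (a k) z - 1 = -((1 - a k) + conj (1 - a k) * z) / (1 - conj (a k) * z) := by
      have := hne' k z hz
      rw [bf, map_sub, map_one, div_sub_one this]
      ring
    have h2 : ‖(1 - a k) + conj (1 - a k) * z‖ ≤ 3 * ‖1 - a k‖ := by
      refine (norm_add_le _ _).trans ?_
      rw [norm_mul, norm_conj]
      nlinarith [norm_nonneg (1 - a k)]
    rw [h1, norm_div, norm_neg]
    calc _ ≤ 3 * ‖1 - a k‖ / c := by gcongr; exact hden k z hz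
      _ = _ := by ring
  have hP := Summable.hasProdLocallyUniformlyOn_nat_one_add (f := fun k z => bf (a k) z - 1)
    isOpen_ball (hs.mul_left (3 / c)) (Eventually.of_forall hbd)
    (fun k => ((hdiff k).sub_const 1).continuousOn)
  simp only [add_sub_cancel] at hP
  exact (hP.tendstoLocallyUniformlyOn_finsetRange.deriv
    (Eventually.of_forall fun n => DifferentiableOn.fun_finsetProd fun k _ => hdiff k)
    isOpen_ball).tendsto_at (mem_ball_self hc0)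

/-- A thin Blaschke product with zeros at prescribed depth and prescribed distance from `1`. -/
theorem exists_blaschke2 {δ ρ : ℕ → ℝ} {η : ℝ} (hη : 0 < η) (hη1 : η ≤ 1) (hδ : ∀ k, 0 < δ k)
    (hρ1 : ρ 0 ≤ 1) (hlac : ∀ k, 3 * ρ (k + 1) ≤ ρ k)
    (hthin : ∀ k, 32 * 2 ^ k * δ k ≤ η * ρ k) :
    ∃ B : ℂ → ℂ, DifferentiableOn ℂ B (ball 0 1) ∧ (∀ z ∈ ball (0:ℂ) 1, ‖B z‖ ≤ 1) ∧
      (∀ ζ : ℂ, ‖ζ‖ = 1 → ζ ≠ 1 → ‖B ζ‖ = 1 ∧ ∃ r > (0:ℝ), DifferentiableOn ℂ B (ball ζ r)) ∧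
      (∀ z ∈ ball (0:ℂ) 1, ∀ κ : ℝ, 0 ≤ κ →
        (∃ k, ‖1 - z‖ ≤ 2 * ρ k ∧ κ * δ k ≤ 1 - ‖z‖) ∨ 1 - η - 4 * κ ≤ ‖B z‖ ^ 2) ∧
      (∀ k, δ k ≤ η / 32 ∧ ∃ ζ : ℂ, ‖ζ‖ = 1 ∧ ‖1 - ζ‖ = ρ k ∧
        ∀ z ∈ ball (0:ℂ) 1, ‖B z‖ ≤ ‖bf (((1 - δ k : ℝ) : ℂ) * ζ) z‖) ∧
      ∀ ξ : ℂ, ‖ξ‖ = 1 → ξ ≠ 1 → ‖deriv B ξ‖ ≤ 8 / ‖1 - ξ‖ ∨
        ∃ k, ‖1 - ξ‖ ≤ 2 * ρ k ∧ ‖deriv B ξ‖ ≤ (2 + η) / δ k := by
  have h2k : ∀ k : ℕ, (1:ℝ) ≤ 2 ^ k := fun k => one_le_pow₀ (by norm_num)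
  have hδη : ∀ k, 32 * δ k ≤ η * ρ k := fun k => by nlinarith [hthin k, h2k k, hδ k]
  have hδρ : ∀ k, 32 * δ k ≤ ρ k := fun k => by
    have h0 : 0 < η * ρ k := by linarith [hδη k, hδ k]
    have h1 : 0 < ρ k := (mul_pos_iff_of_pos_left hη).mp h0
    nlinarith [hδη k]
  have hρ0 : ∀ k, 0 < ρ k := fun k => by linarith [hδρ k, hδ k]
  have hanti : Antitone ρ := antitone_nat_of_succ_le fun k => by linarith [hlac k, hρ0 (k + 1)]
  have hρle : ∀ k, ρ k ≤ 1 := fun k => (hanti (Nat.zero_le k)).trans hρ1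
  have hgeo : ∀ k, ρ k ≤ (1 / 2) ^ k := by
    intro k
    induction k with
    | zero => simpa using hρ1
    | succ k ih =>
      rw [pow_succ]
      linarith [hlac k, hρ0 (k + 1)]
  have hex : ∀ k, ∃ ζ : ℂ, ‖ζ‖ = 1 ∧ ‖1 - ζ‖ = ρ k := by
    intro k
    refine ⟨exp (I * ((2 * Real.arcsin (ρ k / 2) : ℝ) : ℂ)), norm_exp_I_mul_ofReal _, ?_⟩
    rw [norm_sub_rev, norm_exp_I_mul_ofReal_sub_one, mul_div_cancel_left₀ _ two_ne_zero,
      Real.sin_arcsin (by linarith [hρ0 k]) (by linarith [hρle k]),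
      Real.norm_of_nonneg (by linarith [hρ0 k])]
    ring
  choose ζ hζ1 hζρ using hex
  set a : ℕ → ℂ := fun k => ((1 - δ k : ℝ) : ℂ) * ζ k with ha
  have hδ1 : ∀ k, δ k < 1 := fun k => by linarith [hδρ k, hρle k, hδ k]
  have hna : ∀ k, ‖a k‖ = 1 - δ k := fun k => by
    simp only [ha]
    rw [norm_mul, hζ1, mul_one, norm_real, Real.norm_of_nonneg (by linarith [hδ1 k])]
  have ha1 : ∀ k, ‖a k‖ < 1 := fun k => by linarith [hna k, hδ k]
  have haζ : ∀ k, ‖ζ k - a k‖ = δ k := fun k => by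
    have : ζ k - a k = ((δ k : ℝ) : ℂ) * ζ k := by
      simp only [ha]
      push_cast
      ring
    rw [this, norm_mul, hζ1, mul_one, norm_real, Real.norm_of_nonneg (hδ k).le]
  have hs : Summable fun k => ‖1 - a k‖ := by
    refine Summable.of_nonneg_of_le (fun k => norm_nonneg _) (fun k => ?_)
      (summable_geometric_two.mul_left 2)
    have := norm_sub_le_norm_sub_add_norm_sub 1 (ζ k) (a k)
    linarith [hζρ k, haζ k, hδρ k, hgeo k, hδ k]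
  have hnorm : ∀ z : ℂ, ‖z‖ ≤ 1 → z ≠ 1 →
      Tendsto (fun n => ∏ k ∈ Finset.range n, ‖bf (a k) z‖) atTop (𝓝 ‖∏' k, bf (a k) z‖) := by
    intro z hz hne
    simpa only [norm_prod] using (local_prod ha1 hs hz hne).2.norm
  have hball : ∀ z ∈ ball (0:ℂ) 1, ‖z‖ ≤ 1 ∧ z ≠ 1 := by
    intro z hz
    rw [mem_ball_zero_iff] at hz
    refine ⟨hz.le, fun h => ?_⟩
    simp [h] at hz
  have htri : ∀ z : ℂ, ∀ k, ‖z - ζ k‖ < ρ k / 2 → ρ k / 2 < ‖1 - z‖ ∧ ‖1 - z‖ < 3 * ρ k / 2 := by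
    intro z k hk
    have h1 := norm_sub_le_norm_sub_add_norm_sub 1 z (ζ k)
    have h2 := norm_sub_le_norm_sub_add_norm_sub 1 (ζ k) z
    rw [norm_sub_rev (ζ k) z] at h2
    constructor <;> linarith [hζρ k]
  have huniq : ∀ z : ℂ, ∃ j, ∀ k, k ≠ j → ρ k / 2 ≤ ‖z - ζ k‖ := by
    intro z
    by_cases h : ∃ j, ‖z - ζ j‖ < ρ j / 2
    · obtain ⟨j, hj⟩ := h
      refine ⟨j, fun k hk => ?_⟩
      by_contra hk2
      push Not at hk2
      have h1 := htri z j hj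
      have h2 := htri z k hk2
      rcases lt_or_gt_of_ne hk with h3 | h3
      · have := hanti (Nat.succ_le_of_lt h3)
        linarith [hlac k, h1.2, h2.1]
      · have := hanti (Nat.succ_le_of_lt h3)
        linarith [hlac j, h1.1, h2.2]
    · push Not at h
      exact ⟨0, fun k _ => h k⟩
  have hsep : ∀ z : ℂ, ∀ k, ρ k / 2 ≤ ‖z - ζ k‖ → ρ k / 4 ≤ ‖a k - z‖ := by
    intro z k hk
    have h1 := norm_sub_le_norm_sub_add_norm_sub z (a k) (ζ k)
    rw [norm_sub_rev (a k) (ζ k), haζ k, norm_sub_rev z (a k)] at h1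
    linarith [hδρ k, hδ k]
  have hratio : ∀ k, δ k / ρ k ≤ η / 32 * (1 / 2) ^ k := by
    intro k
    have h5 : (0:ℝ) < 2 ^ k := by positivity
    rw [one_div_pow, div_mul_div_comm, div_le_div_iff₀ (hρ0 k) (by positivity)]
    nlinarith [hthin k]
  refine ⟨fun z => ∏' k, bf (a k) z, fun z hz => ?_, fun z hz => ?_, fun η hη hne => ⟨?_, ?_⟩,
    fun z hz κ hκ => ?_, fun k => ⟨by nlinarith [hδη k, hρle k], ζ k, hζ1 k, hζρ k,
      fun z hz => ?_⟩, fun ξ hξ hne => ?_⟩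
  · obtain ⟨r, hr, hd⟩ := (local_prod ha1 hs (hball z hz).1 (hball z hz).2).1
    exact (hd.differentiableAt (ball_mem_nhds z hr)).differentiableWithinAt
  · refine le_of_tendsto' (hnorm z (hball z hz).1 (hball z hz).2) fun n => ?_
    exact Finset.prod_le_one (fun k _ => norm_nonneg _)
      fun k _ => norm_bf_le (ha1 k) (hball z hz).1
  · have h := hnorm η hη.le hne
    simp only [norm_bf_eq (ha1 _) hη, Finset.prod_const_one] at h
    exact tendsto_nhds_unique h tendsto_const_nhds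
  · exact (local_prod ha1 hs hη.le hne).1
  · rw [or_iff_not_imp_left]
    intro hcon
    push Not at hcon
    have hz1 := (hball z hz).1
    obtain ⟨j, hj⟩ := huniq z
    have hfar : ∀ k, ρ k / 2 ≤ ‖z - ζ k‖ → 1 - η / 2 * (1 / 2) ^ k ≤ ‖bf (a k) z‖ ^ 2 := by
      intro k hk
      refine le_trans ?_ (bf_far (ha1 k) hz1 (by linarith [hρ0 k]) (hsep z k hk))
      have h3 : 4 * (1 - ‖a k‖) / (ρ k / 4) = 16 * (δ k / ρ k) := by
        have := (hρ0 k).ne'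
        rw [hna]
        field_simp
        ring
      linarith [hratio k]
    have hall : ∀ k, 1 - (η / 2 * (1 / 2) ^ k + if k = j then 4 * κ else 0) ≤
        ‖bf (a k) z‖ ^ 2 := by
      intro k
      have h0 : (0:ℝ) ≤ η / 2 * (1 / 2) ^ k := by positivity
      split_ifs with hk
      · by_cases h : ρ k / 2 ≤ ‖z - ζ k‖
        · linarith [hfar k h]
        · push Not at h
          have h1 := hcon k (by linarith [(htri z k h).2, hρ0 k])
          have h2 := bf_near' (ha1 k) hz1 (κ := κ) (by rw [hna]; nlinarith)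
          linarith
      · linarith [hfar k (hj k hk)]
    refine ge_of_tendsto' ((hnorm z hz1 (hball z hz).2).pow 2) fun n => ?_
    have h1 := one_sub_sum_le_prod (fun k => ‖bf (a k) z‖ ^ 2)
      (fun k => η / 2 * (1 / 2) ^ k + if k = j then 4 * κ else 0)
      (fun k => by split_ifs <;> positivity) (fun k => sq_nonneg _) hall n
    rw [Finset.sum_add_distrib, ← Finset.mul_sum, Finset.prod_pow, Finset.sum_ite_eq'] at h1
    have h2 := mul_le_mul_of_nonneg_left (sum_geometric_two_le n) (by positivity : 0 ≤ η / 2)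
    have h3 : (if j ∈ Finset.range n then 4 * κ else 0) ≤ 4 * κ := by
      split_ifs
      · exact le_rfl
      · positivity
    linarith
  · refine le_of_tendsto (hnorm z (hball z hz).1 (hball z hz).2) ?_
    filter_upwards [eventually_gt_atTop k] with n hn
    rw [← Finset.mul_prod_erase _ _ (Finset.mem_range.mpr hn)]
    exact mul_le_of_le_one_right (norm_nonneg _) (Finset.prod_le_one (fun k _ => norm_nonneg _)
      fun k _ => norm_bf_le (ha1 k) (hball z hz).1)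
  · choose D hD hDn using fun k => bf_hasDerivAt (ha1 k) hξ.le
    have hx0 : 0 < ‖1 - ξ‖ := norm_pos_iff.mpr (sub_ne_zero.mpr hne.symm)
    have hsum : ∀ (T : ℝ), (∀ n, ∑ k ∈ Finset.range n, ‖D k‖ ≤ T) →
        ‖deriv (fun z => ∏' k, bf (a k) z) ξ‖ ≤ T := by
      intro T hT
      refine le_of_tendsto' (local_deriv ha1 hs hξ.le hne).norm fun n => le_trans ?_ (hT n)
      rw [(HasDerivAt.fun_finsetProd (u := Finset.range n) fun k _ => hD k).deriv]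
      refine (norm_sum_le _ _).trans (Finset.sum_le_sum fun k _ => ?_)
      rw [norm_smul, norm_prod]
      simp only [norm_bf_eq (ha1 _) hξ, Finset.prod_const_one, one_mul, le_refl]
    have hfar : ∀ k, ρ k / 2 ≤ ‖ξ - ζ k‖ → ‖D k‖ ≤ 4 * η / ‖1 - ξ‖ * (1 / 2) ^ k := by
      intro k hk
      have h1 := hsep ξ k hk
      have h2 := den_ge_dist (ha1 k).le hξ.le
      have h3 : ‖1 - ξ‖ / 16 ≤ ‖a k - ξ‖ := by
        have h4 := norm_sub_le_norm_sub_add_norm_sub 1 (a k) ξ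
        have h5 := norm_sub_le_norm_sub_add_norm_sub 1 (ζ k) (a k)
        linarith [hζρ k, haζ k, hδρ k, hδ k]
      have hρk := hρ0 k
      have hδk := hδ k
      calc ‖D k‖ ≤ 2 * (1 - ‖a k‖) / ‖1 - conj (a k) * ξ‖ ^ 2 := hDn k
        _ = 2 * δ k / (‖1 - conj (a k) * ξ‖ * ‖1 - conj (a k) * ξ‖) := by rw [hna]; ring
        _ ≤ 2 * δ k / (ρ k / 4 * (‖1 - ξ‖ / 16)) := by gcongr <;> linarith
        _ = 128 / ‖1 - ξ‖ * (δ k / ρ k) := by field_simp; ring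
        _ ≤ 128 / ‖1 - ξ‖ * (η / 32 * (1 / 2) ^ k) := by gcongr; exact hratio k
        _ = _ := by ring
    have hgs : ∀ n, ∑ k ∈ Finset.range n, 4 * η / ‖1 - ξ‖ * (1 / 2 : ℝ) ^ k ≤ 8 * η / ‖1 - ξ‖ := by
      intro n
      rw [← Finset.mul_sum]
      calc _ ≤ 4 * η / ‖1 - ξ‖ * 2 := by gcongr; exact sum_geometric_two_le n
        _ = _ := by ring
    obtain ⟨j, hj⟩ := huniq ξ
    by_cases h : ρ j / 2 ≤ ‖ξ - ζ j‖
    · left
      refine hsum _ fun n => (Finset.sum_le_sum fun k _ => hfar k ?_).trans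
        ((hgs n).trans (by gcongr; linarith))
      by_cases hk : k = j
      · rw [hk]; exact h
      · exact hj k hk
    · push Not at h
      have hδj := hδ j
      refine Or.inr ⟨j, by linarith [(htri ξ j h).2, hρ0 j], hsum _ fun n => ?_⟩
      have h1 : ∀ k, ‖D k‖ ≤ 4 * η / ‖1 - ξ‖ * (1 / 2) ^ k + if k = j then 2 / δ j else 0 := by
        intro k
        split_ifs with hk
        · have h2 := den_ge_left (a := a k) hξ.le
          have h3 : (0:ℝ) ≤ 4 * η / ‖1 - ξ‖ * (1 / 2) ^ k := by positivity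
          have h4 : ‖D k‖ ≤ 2 / δ j :=
            calc ‖D k‖ ≤ 2 * (1 - ‖a k‖) / ‖1 - conj (a k) * ξ‖ ^ 2 := hDn k
              _ ≤ 2 * (1 - ‖a k‖) / (1 - ‖a k‖) ^ 2 := by
                  have : 0 < 1 - ‖a k‖ := by linarith [ha1 k]
                  gcongr
              _ = 2 / δ j := by rw [hna, hk, sub_sub_cancel]; field_simp
          linarith
        · linarith [hfar k (hj k hk)]
      have h2 := Finset.sum_le_sum fun k (_ : k ∈ Finset.range n) => h1 k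
      rw [Finset.sum_add_distrib, Finset.sum_ite_eq'] at h2
      have h3 : (if j ∈ Finset.range n then 2 / δ j else 0) ≤ 2 / δ j := by
        split_ifs
        · exact le_rfl
        · positivity
      have h4 : 8 * η / ‖1 - ξ‖ ≤ η / δ j := by
        rw [div_le_div_iff₀ hx0 hδj]
        nlinarith [(htri ξ j h).1, hδρ j]
      rw [add_div]
      linarith [hgs n]

/-- The Julia lemma along a radius, with the exact constant. -/
theorem julia_gen {Θ : ℂ → ℂ} (hd : DifferentiableOn ℂ Θ (ball 0 1))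
    (hb : ∀ z ∈ ball (0:ℂ) 1, ‖Θ z‖ ≤ 1) {ζ : ℂ} (hζ : ‖ζ‖ = 1) {ρ β : ℝ} (hρ0 : 0 ≤ ρ)
    (hρ1 : ρ < 1) (hβ : β < 1) (hsmall : ‖Θ (ρ * ζ)‖ ≤ β)
    {r : ℝ} (hr : 0 < r) {g : ℂ → ℂ} (hg : DifferentiableOn ℂ g (ball ζ r))
    (hgΘ : EqOn g Θ (ball ζ r ∩ ball 0 1)) (hg1 : ‖g ζ‖ = 1) :
    (1 + ρ) / (1 - ρ) * ((1 - β) / (1 + β)) ≤ ‖deriv g ζ‖ := by
  have hβ0 : 0 ≤ β := (norm_nonneg _).trans hsmall
  set γ : ℝ := (1 - β) / (1 + β) with hγ
  have hγ0 : 0 < γ := div_pos (by linarith) (by linarith)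
  have hnt : ∀ t : ℝ, 0 ≤ t → ‖(t : ℂ) * ζ‖ = t := fun t ht => by
    rw [norm_mul, hζ, mul_one, norm_real, Real.norm_of_nonneg ht]
  set φ : ℝ → ℝ := fun t => (1 - ρ ^ 2) * (1 + t) * γ / (2 * (1 - ρ * t) ^ 2) with hφ
  have hkey : ∀ t : ℝ, ρ < t → t < 1 → φ t * (1 - t) ≤ 1 - ‖Θ (t * ζ)‖ := by
    intro t ht0 ht1
    have ha : ‖(ρ : ℂ) * ζ‖ < 1 := by rw [hnt ρ (by linarith)]; exact hρ1
    have hz : ‖(t : ℂ) * ζ‖ < 1 := by rw [hnt t (by linarith)]; exact ht1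
    have h1 := schwarz_pick hd hb ha hz (by linarith)
    have hv1 : ‖Θ (t * ζ)‖ ≤ 1 := hb _ (mem_ball_zero_iff.mpr hz)
    rw [← sq_le_sq₀ (norm_nonneg _) (norm_nonneg _), bf_sq (by linarith) hv1, bf_sq ha hz.le,
      hnt ρ (by linarith), hnt t (by linarith)] at h1
    have hρt : 0 < 1 - ρ * t := by nlinarith
    have e1 : ‖1 - conj ((ρ : ℂ) * ζ) * ((t : ℂ) * ζ)‖ = 1 - ρ * t := by
      have h2 : conj ζ * ζ = 1 := by
        rw [mul_comm, mul_conj, normSq_eq_norm_sq, hζ]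
        simp
      have h3 : 1 - conj ((ρ : ℂ) * ζ) * ((t : ℂ) * ζ) = ((1 - ρ * t : ℝ) : ℂ) := by
        rw [map_mul, conj_ofReal]
        push_cast
        linear_combination (-(ρ : ℂ) * t) * h2
      rw [h3, norm_real, Real.norm_of_nonneg hρt.le]
    rw [e1] at h1
    set b := Θ (ρ * ζ) with hbdef
    set v := Θ (t * ζ) with hv
    have h4 : 1 - ‖b‖ ≤ ‖1 - conj b * v‖ := den_ge_left hv1
    have h5 : 0 ≤ 1 - ‖v‖ ^ 2 := by nlinarith [norm_nonneg v]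
    have h6 : 0 < 1 - ‖b‖ := by linarith
    have h7 : (1 - ‖b‖ ^ 2) * (1 - ‖v‖ ^ 2) / ‖1 - conj b * v‖ ^ 2 ≤ 2 * (1 - ‖v‖) / γ := by
      rw [div_le_div_iff₀ (pow_pos (h6.trans_le h4) 2) hγ0]
      have h8 : (1 - ‖b‖ ^ 2) * γ ≤ (1 - ‖b‖) ^ 2 := by
        rw [hγ, ← mul_div_assoc, div_le_iff₀ (by linarith)]
        nlinarith [mul_nonneg h6.le (sub_nonneg.mpr hsmall)]
      have h9 : 1 - ‖v‖ ^ 2 ≤ 2 * (1 - ‖v‖) := by nlinarith
      calc (1 - ‖b‖ ^ 2) * (1 - ‖v‖ ^ 2) * γ = ((1 - ‖b‖ ^ 2) * γ) * (1 - ‖v‖ ^ 2) := by ring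
        _ ≤ (1 - ‖b‖) ^ 2 * (2 * (1 - ‖v‖)) := by gcongr
        _ = 2 * (1 - ‖v‖) * (1 - ‖b‖) ^ 2 := by ring
        _ ≤ _ := by gcongr
    have e2 : φ t * (1 - t) = (1 - ρ ^ 2) * (1 - t ^ 2) / (1 - ρ * t) ^ 2 * (γ / 2) := by
      simp only [hφ]
      field_simp
      ring
    have e3 : 2 * (1 - ‖v‖) / γ * (γ / 2) = 1 - ‖v‖ := by field_simp
    rw [e2]
    refine le_trans (mul_le_mul_of_nonneg_right ?_ (by positivity)) e3.le
    linarith
  have hgd : HasDerivAt g (deriv g ζ) (((1:ℝ):ℂ) * ζ) := by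
    simpa using (hg.differentiableAt (ball_mem_nhds ζ hr)).hasDerivAt
  have hline : HasDerivAt (fun t : ℝ => (t : ℂ) * ζ) ζ 1 := by
    simpa using (ofRealCLM.hasDerivAt (x := (1:ℝ))).mul_const ζ
  have hcomp : HasDerivAt (fun t : ℝ => g (t * ζ)) (ζ * deriv g ζ) 1 := by
    simpa [Function.comp_def] using hgd.scomp (1:ℝ) hline
  have hsl := (hasDerivAt_iff_tendsto_slope.mp hcomp).mono_left
    (nhdsWithin_mono (1:ℝ) (fun t (ht : t ∈ Iio (1:ℝ)) => (ne_of_lt ht : t ≠ 1)))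
  have hsl2 := hsl.norm
  rw [norm_mul, hζ, one_mul] at hsl2
  have hρ2 : 0 < 1 - ρ := by linarith
  have hφc : ContinuousAt φ 1 := by
    simp only [hφ]
    refine ContinuousAt.div (by fun_prop) (by fun_prop) ?_
    rw [mul_one]
    positivity
  have hφ1 : (1 + ρ) / (1 - ρ) * γ ≤ φ 1 := by
    simp only [hφ, mul_one]
    apply le_of_eq
    field_simp
    ring
  refine hφ1.trans (le_of_tendsto_of_tendsto (hφc.tendsto.mono_left nhdsWithin_le_nhds) hsl2 ?_)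
  have hev : ∀ᶠ t : ℝ in 𝓝 1, (t * ζ : ℂ) ∈ ball ζ r := by
    apply hline.continuousAt.eventually
    simp only [ofReal_one, one_mul]
    exact ball_mem_nhds ζ hr
  filter_upwards [Ioo_mem_nhdsLT hρ1, nhdsWithin_le_nhds hev] with t ht ht2
  have ht3 : (t * ζ : ℂ) ∈ ball (0:ℂ) 1 := by
    rw [mem_ball_zero_iff, hnt t (by linarith [ht.1])]
    exact ht.2
  have h1 := hkey t ht.1 ht.2
  rw [← hgΘ ⟨ht2, ht3⟩] at h1
  have h2 : 0 < 1 - t := by linarith [ht.2]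
  rw [slope_def_module, norm_smul, norm_inv, Real.norm_eq_abs, abs_sub_comm, abs_of_pos h2,
    ← div_eq_inv_mul, le_div_iff₀ h2]
  have h3 := norm_sub_norm_le (g ζ) (g (t * ζ))
  rw [hg1, norm_sub_rev] at h3
  simp only [ofReal_one, one_mul]
  exact h1.trans h3

end Pool.Agent.P.MP_32de40_an
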