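import Pool.Agent.P.MP_32de40_an.Class
import Pool.Agent.P.MP_32de40_an.Thin
import Pool.Agent.P.MP_32de40_an.Strip

set_option autoImplicit false

open Complex Set Metric Filter Topology MeasureTheory ComplexConjugate

namespace Pool.Agent.P.MP_32de40_an

/-- (S) implies (E) at every level below `1 / 3`, for every weight. -/
theorem s_imp_e_level {W : ℝ → ℝ} (hW : IsW W) {f : ℂ → ℂ}
    (hfd : DifferentiableOn ℂ f (ball 0 1)) (hfc : ContinuousOn f (closedBall 0 1))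
    {A : ℝ} (hA : 0 ≤ A)
    (hmod : ∀ d : ℝ, 0 < d → ∀ ζ η : ℂ, ‖ζ‖ = 1 → ‖η‖ = 1 →
      ‖f η - f ζ‖ ≤ A * (1 + ‖η - ζ‖ / d) * W d) {Θ : ℂ → ℂ}
    (hd : DifferentiableOn ℂ Θ (ball 0 1)) (hb : ∀ z ∈ ball (0:ℂ) 1, ‖Θ z‖ ≤ 1)
    (hl : ∀ᵐ θ : ℝ, ∃ w : ℂ, ‖w‖ = 1 ∧
      Tendsto (fun r : ℝ => Θ ((r : ℂ) * exp ((θ : ℂ) * I))) (𝓝[<] 1) (𝓝 w))
    (hnull : volume {θ : ℝ | ¬ ∃ r > (0:ℝ), ∃ g : ℂ → ℂ,
        DifferentiableOn ℂ g (ball (exp ((θ:ℂ) * I)) r) ∧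
        EqOn g Θ (ball (exp ((θ:ℂ) * I)) r ∩ ball 0 1)} = 0)
    {C : ℝ} (hC : ∀ ζ : ℂ, ‖ζ‖ = 1 → ∀ r > (0:ℝ), ∀ g : ℂ → ℂ,
        DifferentiableOn ℂ g (ball ζ r) → EqOn g Θ (ball ζ r ∩ ball 0 1) →
        ‖f ζ‖ ≤ C * (if 1 < ‖deriv g ζ‖ then W (1 / ‖deriv g ζ‖) else W 1))
    {ε : ℝ} (hε0 : 0 < ε) (hε : ε < 1 / 3) :
    ∃ C : ℝ, ∀ z ∈ ball (0:ℂ) 1, ‖Θ z‖ < ε → ‖f z‖ ≤ C * W (1 - ‖z‖) := by
  obtain ⟨M, hM⟩ := (isCompact_closedBall (0:ℂ) 1).exists_bound_of_continuousOn hfc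
  have hM0 : 0 ≤ M := (norm_nonneg _).trans (hM 0 (by simp))
  set u : ℝ := (1 - 3 * ε) / 2 with hu
  have hu0 : 0 < u := by rw [hu]; linarith
  have hW2 : 0 < W u := hW.pos _ hu0
  refine ⟨M / W u + (|C| + 12 * A), fun z hz hzs => ?_⟩
  have hz1 : ‖z‖ < 1 := mem_ball_zero_iff.mp hz
  by_cases hhalf : u ≤ 1 - ‖z‖
  · have h1 : W u ≤ W (1 - ‖z‖) := hW.mono _ _ hu0 hhalf
    calc ‖f z‖ ≤ M := hM z (ball_subset_closedBall hz)
      _ = (M / W u + 0) * W u := by field_simp; ring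
      _ ≤ _ := by gcongr; positivity
  push Not at hhalf
  set ρ := ‖z‖ with hρ
  set δ := 1 - ρ with hδ
  have hρ0 : 0 ≤ ρ := norm_nonneg z
  have hδ0 : 0 < δ := by linarith
  have hδ1 : δ ≤ 1 := by linarith
  -- choose a good direction
  have hcont : Continuous fun θ : ℝ => (ρ : ℂ) * exp ((θ : ℂ) * I) := by fun_prop
  have hmem : ∀ θ : ℝ, (ρ : ℂ) * exp ((θ : ℂ) * I) ∈ ball (0:ℂ) 1 := by
    intro θ
    rw [mem_ball_zero_iff, norm_mul, norm_exp_ofReal_mul_I, mul_one, norm_real,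
      Real.norm_of_nonneg hρ0]
    exact hz1
  have hΘc : Continuous fun θ : ℝ => Θ ((ρ : ℂ) * exp ((θ : ℂ) * I)) :=
    hd.continuousOn.comp_continuous hcont hmem
  set U : Set ℝ := {θ : ℝ | ‖Θ ((ρ : ℂ) * exp ((θ : ℂ) * I))‖ < ε} ∩
    {θ : ℝ | ‖z - (ρ : ℂ) * exp ((θ : ℂ) * I)‖ < δ} with hU
  have hUo : IsOpen U := (isOpen_lt hΘc.norm continuous_const).inter
    (isOpen_lt (continuous_const.sub hcont).norm continuous_const)
  have hUne : U.Nonempty := by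
    refine ⟨arg z, ?_, ?_⟩
    · simp only [mem_ofPred_eq, hρ, norm_mul_exp_arg_mul_I]
      exact hzs
    · simp only [mem_ofPred_eq, hρ, norm_mul_exp_arg_mul_I, sub_self, norm_zero]
      exact hδ0
  have hae : ∀ᵐ θ : ℝ, ∃ r > (0:ℝ), ∃ g : ℂ → ℂ,
      DifferentiableOn ℂ g (ball (exp ((θ:ℂ) * I)) r) ∧
      EqOn g Θ (ball (exp ((θ:ℂ) * I)) r ∩ ball 0 1) := by
    rw [ae_iff]
    exact hnull
  obtain ⟨θ, ⟨hθ1, hθ2⟩, ⟨r, hr, g, hg, hgΘ⟩, w, hw1, hw⟩ :=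
    Measure.exists_mem_of_measure_ne_zero_of_ae (hUo.measure_ne_zero volume hUne)
      (ae_restrict_of_ae (hae.and hl))
  set ζ := exp ((θ : ℂ) * I) with hζ
  have hζ1 : ‖ζ‖ = 1 := norm_exp_ofReal_mul_I θ
  have hg1 : ‖g ζ‖ = 1 := by
    have hc : ContinuousAt (fun t : ℝ => (t : ℂ) * ζ) 1 := by fun_prop
    have h1 : Tendsto (fun t : ℝ => g (t * ζ)) (𝓝[<] 1) (𝓝 (g ζ)) := by
      have := ContinuousAt.comp_of_eq
        (hg.continuousOn.continuousAt (ball_mem_nhds ζ hr)) hc (by simp)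
      have h2 := this.tendsto.mono_left (nhdsWithin_le_nhds (s := Iio (1:ℝ)))
      simpa [Function.comp_def] using h2
    have hev : ∀ᶠ t : ℝ in 𝓝 1, (t * ζ : ℂ) ∈ ball ζ r := by
      apply hc.eventually
      simp only [ofReal_one, one_mul]
      exact ball_mem_nhds ζ hr
    have h2 : Tendsto (fun t : ℝ => g (t * ζ)) (𝓝[<] 1) (𝓝 w) := by
      refine hw.congr' ?_
      filter_upwards [Ioo_mem_nhdsLT (by norm_num : (0:ℝ) < 1), nhdsWithin_le_nhds hev]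
        with t ht ht2
      refine (hgΘ ⟨ht2, ?_⟩).symm
      rw [mem_ball_zero_iff, norm_mul, hζ1, mul_one, norm_real, Real.norm_of_nonneg ht.1.le]
      exact ht.2
    rw [tendsto_nhds_unique h1 h2, hw1]
  have hJ : 1 / δ ≤ ‖deriv g ζ‖ := by
    refine le_trans ?_ (julia_gen hd hb hζ1 hρ0 hz1 (by linarith : ε < 1) (le_of_lt hθ1)
      hr hg hgΘ hg1)
    rw [div_mul_div_comm, div_le_div_iff₀ hδ0 (by positivity)]
    have : 1 + ε ≤ (1 + ρ) * (1 - ε) := by nlinarith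
    nlinarith
  have hWδ := hW.pos δ hδ0
  have hD1 : 1 < ‖deriv g ζ‖ := by
    refine lt_of_lt_of_le ?_ hJ
    rw [one_lt_div hδ0]
    linarith
  have h1 : W (1 / ‖deriv g ζ‖) ≤ W δ := by
    apply hW.mono _ _ (by positivity)
    rw [div_le_iff₀ (by linarith)]
    rw [div_le_iff₀ hδ0] at hJ
    linarith
  have h2 : ‖f ζ‖ ≤ |C| * W δ := by
    refine (hC ζ hζ1 r hr g hg hgΘ).trans ?_
    rw [if_pos hD1]
    exact mul_le_mul (le_abs_self C) h1 (hW.pos _ (by positivity)).le (abs_nonneg C)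
  have h3 : ‖z - ζ‖ ≤ 2 * δ := by
    have h4 : ‖(ρ : ℂ) * ζ - ζ‖ = δ := by
      have : (ρ : ℂ) * ζ - ζ = -((δ : ℝ) : ℂ) * ζ := by
        rw [hδ]
        push_cast
        ring
      rw [this, norm_mul, hζ1, mul_one, norm_neg, norm_real, Real.norm_of_nonneg hδ0.le]
    have h5 := norm_sub_le_norm_sub_add_norm_sub z (ρ * ζ) ζ
    have h6 : ‖z - (ρ : ℂ) * ζ‖ < δ := hθ2
    linarith
  have h4 : ‖z - ζ‖ / δ ≤ 2 := by rwa [div_le_iff₀ hδ0]
  have h5 := interior_gen hfd hfc (A := A * W δ) (by positivity) hδ0 hζ1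
    (fun η hη => (hmod δ hδ0 ζ η hζ1 hη).trans_eq (by ring)) hz
  calc ‖f z‖ ≤ ‖f ζ‖ + ‖f z - f ζ‖ := norm_le_insert' _ _
    _ ≤ |C| * W δ + 4 * (1 + 2) * (A * W δ) := by
        refine add_le_add h2 (h5.trans ?_)
        gcongr
    _ = (0 + (|C| + 12 * A)) * W δ := by ring
    _ ≤ _ := by gcongr; positivity

/-- (E) at a level above `1 / e` implies (S), for every weight. -/
theorem e_imp_s_level {W : ℝ → ℝ} (hW : IsW W) {f : ℂ → ℂ}
    (hfd : DifferentiableOn ℂ f (ball 0 1)) (hfc : ContinuousOn f (closedBall 0 1))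
    {A : ℝ} (hA : 0 ≤ A)
    (hmod : ∀ d : ℝ, 0 < d → ∀ ζ η : ℂ, ‖ζ‖ = 1 → ‖η‖ = 1 →
      ‖f η - f ζ‖ ≤ A * (1 + ‖η - ζ‖ / d) * W d)
    (hne : ∃ z ∈ ball (0:ℂ) 1, f z ≠ 0)
    {Θ : ℂ → ℂ}
    (hd : DifferentiableOn ℂ Θ (ball 0 1)) (hb : ∀ z ∈ ball (0:ℂ) 1, ‖Θ z‖ ≤ 1)
    (hl : ∀ᵐ θ : ℝ, ∃ w : ℂ, ‖w‖ = 1 ∧
      Tendsto (fun r : ℝ => Θ ((r : ℂ) * exp ((θ : ℂ) * I))) (𝓝[<] 1) (𝓝 w))
    {ε : ℝ} (hε : ε ∈ Ioo (0:ℝ) 1) (hεe : Real.exp (-1) < ε) {C : ℝ}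
    (hC : ∀ z ∈ ball (0:ℂ) 1, ‖Θ z‖ < ε → ‖f z‖ ≤ C * W (1 - ‖z‖)) :
    volume {θ : ℝ | ¬ ∃ r > (0:ℝ), ∃ g : ℂ → ℂ,
        DifferentiableOn ℂ g (ball (exp ((θ:ℂ) * I)) r) ∧
        EqOn g Θ (ball (exp ((θ:ℂ) * I)) r ∩ ball 0 1)} = 0 ∧
      ∃ C : ℝ, ∀ ζ : ℂ, ‖ζ‖ = 1 → ∀ r > (0:ℝ), ∀ g : ℂ → ℂ,
        DifferentiableOn ℂ g (ball ζ r) → EqOn g Θ (ball ζ r ∩ ball 0 1) →
        ‖f ζ‖ ≤ C * (if 1 < ‖deriv g ζ‖ then W (1 / ‖deriv g ζ‖) else W 1) := by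
  have hkey : ∀ ζ : ℂ, ‖ζ‖ = 1 → ∀ d : ℝ, ∀ z ∈ ball (0:ℂ) 1, z ∈ ball ζ d → ‖Θ z‖ < ε →
      ‖f ζ‖ ≤ (|C| + 8 * A) * W d := by
    intro ζ hζ d z hz hzd hzε
    have hz1 : ‖z‖ < 1 := mem_ball_zero_iff.mp hz
    rw [mem_ball, dist_eq_norm] at hzd
    have hd0 : 0 < d := (norm_nonneg _).trans_lt hzd
    have hWd := hW.pos d hd0
    have h0 : 0 < 1 - ‖z‖ := by linarith
    have h1 : W (1 - ‖z‖) ≤ W d := hW.mono _ _ h0 ((one_sub_norm_le hζ).trans hzd.le)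
    have h2 : ‖z - ζ‖ / d ≤ 1 := by
      rw [div_le_one hd0]
      exact hzd.le
    have h3 : ‖f z‖ ≤ |C| * W d :=
      (hC z hz hzε).trans (mul_le_mul (le_abs_self C) h1 (hW.pos _ h0).le (abs_nonneg C))
    have h4 := interior_gen hfd hfc (A := A * W d) (by positivity) hd0 hζ
      (fun η hη => (hmod d hd0 ζ η hζ hη).trans_eq (by ring)) hz
    calc ‖f ζ‖ ≤ ‖f z‖ + ‖f z - f ζ‖ := norm_le_insert _ _
      _ ≤ |C| * W d + 4 * (1 + 1) * (A * W d) := by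
          refine add_le_add h3 (h4.trans ?_)
          gcongr
      _ = _ := by ring
  have hsmall : ∀ m > (0:ℝ), ∃ d ∈ Ioo (0:ℝ) 1, (|C| + 8 * A) * W d < m := by
    intro m hm
    have h1 : Tendsto (fun d => (|C| + 8 * A) * W d) (𝓝[>] 0) (𝓝 0) := by
      simpa using hW.lim.const_mul (|C| + 8 * A)
    obtain ⟨d, hd1, hd2⟩ := ((h1.eventually (gt_mem_nhds hm)).and
      (Ioo_mem_nhdsGT (by norm_num : (0:ℝ) < 1))).exists
    exact ⟨d, hd2, hd1⟩
  obtain ⟨M, hM⟩ := (isCompact_closedBall (0:ℂ) 1).exists_bound_of_continuousOn hfc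
  have hM0 : 0 ≤ M := (norm_nonneg _).trans (hM 0 (by simp))
  have hε0 := hε.1
  have hε1 := hε.2
  have hlowW : ∀ u D : ℝ, 0 < u → u ≤ 1 → D ≤ 1 / u →
      W u ≤ (if 1 < D then W (1 / D) else W 1) := by
    intro u D hu hu1 hD
    split_ifs with h
    · apply hW.mono _ _ hu
      rw [le_div_iff₀ hu] at hD
      rw [le_div_iff₀ (by linarith)]
      linarith
    · exact hW.mono _ _ hu hu1
  constructor
  · refine measure_mono_null ?_ (volume_boundary_zeros hfd hfc hne)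
    intro θ hθ
    by_contra h0
    apply hθ
    obtain ⟨d, hd2, hd1⟩ := hsmall _ (norm_pos_iff.mpr h0)
    apply exists_continuation hd hb hl hε.1 hε.2.le hd2.1 hd2.2.le θ
    intro z hz hzd
    by_contra hlt
    push Not at hlt
    have := hkey _ (norm_exp_ofReal_mul_I θ) d z hz hzd hlt
    linarith
  · have hlog0 : 0 < -Real.log ε := neg_pos.mpr (Real.log_neg hε0 hε1)
    have hlog1 : -Real.log ε < 1 := by
      have := Real.log_lt_log (Real.exp_pos _) hεe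
      rw [Real.log_exp] at this
      linarith
    obtain ⟨r0, hr0, hr1⟩ := exists_between hlog1
    obtain ⟨R, hR1, hR⟩ := deriv_le_sharp (hlog0.trans hr0) hr1
    have hu : 0 < 1 / (R + 1) := by positivity
    have hWu := hW.pos _ hu
    refine ⟨M / W (1 / (R + 1)) + (|C| + 4 * (1 + 3 * R) * A), fun ζ hζ r hr g hg hgΘ => ?_⟩
    have hc1 : 0 ≤ M / W (1 / (R + 1)) := by positivity
    have hc2 : 0 ≤ |C| + 4 * (1 + 3 * R) * A := by positivity
    by_cases hbig : R + 1 ≤ ‖deriv g ζ‖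
    · have hD1 : 1 < ‖deriv g ζ‖ := by linarith
      have hD0 : 0 < ‖deriv g ζ‖ := by linarith
      rw [if_pos hD1]
      set d : ℝ := 1 / ‖deriv g ζ‖ with hdd
      have hd0 : 0 < d := by positivity
      have hWd := hW.pos d hd0
      have hex : ∃ z ∈ ball (0:ℂ) 1, 1 - ‖z‖ < d ∧ ‖z - ζ‖ ≤ 3 * R * d ∧ ‖Θ z‖ < ε := by
        by_contra hcon
        push Not at hcon
        have h1 := hR Θ hd hb hl ε d hε0 hε1 hd0 (by
          rw [hdd, mul_one_div, div_le_one hD0]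
          linarith) ζ hζ hcon r hr g hg hgΘ
        have hr00 : 0 < r0 := hlog0.trans hr0
        rw [le_div_iff₀ (by positivity)] at h1
        have h2 : ‖deriv g ζ‖ * (r0 * d) = r0 := by
          rw [hdd]
          field_simp
        linarith
      obtain ⟨z, hz, hz1, hz2, hzε⟩ := hex
      have h0 : 0 < 1 - ‖z‖ := by linarith [mem_ball_zero_iff.mp hz]
      have h3 : ‖f z‖ ≤ |C| * W d :=
        (hC z hz hzε).trans (mul_le_mul (le_abs_self C) (hW.mono _ _ h0 hz1.le)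
          (hW.pos _ h0).le (abs_nonneg C))
      have h2 : ‖z - ζ‖ / d ≤ 3 * R := by rwa [div_le_iff₀ hd0]
      have h4 := interior_gen hfd hfc (A := A * W d) (by positivity) hd0 hζ
        (fun η hη => (hmod d hd0 ζ η hζ hη).trans_eq (by ring)) hz
      calc ‖f ζ‖ ≤ ‖f z‖ + ‖f z - f ζ‖ := norm_le_insert _ _
        _ ≤ |C| * W d + 4 * (1 + 3 * R) * (A * W d) := by
            refine add_le_add h3 (h4.trans ?_)
            gcongr
        _ = (0 + (|C| + 4 * (1 + 3 * R) * A)) * W d := by ring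
        _ ≤ _ := by gcongr
    · push Not at hbig
      have h1 := hlowW (1 / (R + 1)) ‖deriv g ζ‖ hu (by rw [div_le_one (by linarith)]; linarith)
        (by rw [one_div_one_div]; exact hbig.le)
      calc ‖f ζ‖ ≤ M := hM ζ (by simp [hζ])
        _ = (M / W (1 / (R + 1)) + 0) * W (1 / (R + 1)) := by field_simp; ring
        _ ≤ _ := by gcongr

/-- Jumps at any ratio. -/
theorem exists_jump_ratio {ω : ℝ → ℝ} {L : ℝ} (h : IsModulus ω L)
    (hnd : ¬ ∃ K : ℝ, ∀ t ∈ Ioo (0:ℝ) (1 / 2), ω (2 * t) ≤ K * ω t) {l : ℝ} (hl : 1 < l)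
    (K η : ℝ) : ∃ s : ℝ, 0 < η → s ∈ Ioo (0:ℝ) 1 ∧ K * ω (s / l) ≤ ω s ∧ ω s ≤ η := by
  by_cases hη : 0 < η
  swap
  · exact ⟨0, fun h => absurd h hη⟩
  obtain ⟨t0, ht0η, ht0⟩ := ((h.2.2.2.1.eventually (gt_mem_nhds hη)).and
    (Ioo_mem_nhdsGT (by norm_num : (0:ℝ) < 1))).exists
  by_contra hcon
  push Not at hcon
  apply hnd
  have hW := h.isW
  set W : ℝ → ℝ := fun t => if t < 1 then ω t else L with hWdef
  have hWω : ∀ t, t < 1 → W t = ω t := fun t ht => if_pos ht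
  have hl0 : 0 < l := by linarith
  have hL : ∀ t, 0 < t → W t ≤ L := by
    intro t ht
    by_cases h1 : t < 1
    · rw [hWω t h1]
      exact le_lim h.2.1 h.2.2.2.2 ⟨ht, h1⟩
    · exact (if_neg h1).le
  have hu : 0 < t0 / l := div_pos ht0.1 hl0
  have hW2 := hW.pos _ hu
  have hL0 : 0 ≤ L := hW2.le.trans (hL _ hu)
  set K1 : ℝ := |K| + L / W (t0 / l) with hK1
  have hK10 : 0 ≤ K1 := by positivity
  have h1 : ∀ t, 0 < t → W (l * t) ≤ K1 * W t := by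
    intro t ht
    have hWt := hW.pos t ht
    by_cases h2 : l * t < t0
    · have hs : l * t ∈ Ioo (0:ℝ) 1 := ⟨by positivity, h2.trans ht0.2⟩
      have ht1 : t < 1 := by nlinarith [hs.2]
      have h3 : ω (l * t) < K * ω t := by
        by_contra h4
        push Not at h4
        have h5 := (hcon (l * t)).2 hs (by rwa [mul_div_cancel_left₀ _ hl0.ne'])
        linarith [h.2.1 hs ht0 h2.le]
      calc W (l * t) = ω (l * t) := hWω _ hs.2
        _ ≤ K * W t := by rw [hWω t ht1]; exact h3.le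
        _ ≤ (|K| + 0) * W t := by gcongr; rw [add_zero]; exact le_abs_self K
        _ ≤ _ := by rw [hK1]; gcongr; positivity
    · have h3 : W (t0 / l) ≤ W t := hW.mono _ _ hu (by rw [div_le_iff₀ hl0]; linarith)
      calc W (l * t) ≤ L := hL _ (by positivity)
        _ = (0 + L / W (t0 / l)) * W (t0 / l) := by field_simp; ring
        _ ≤ _ := by rw [hK1]; gcongr; positivity
  have h2 : ∀ n : ℕ, ∀ t, 0 < t → W (l ^ n * t) ≤ K1 ^ n * W t := by
    intro n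
    induction n with
    | zero => simp
    | succ n ih =>
      intro t ht
      calc W (l ^ (n + 1) * t) = W (l * (l ^ n * t)) := by rw [pow_succ]; ring_nf
        _ ≤ K1 * W (l ^ n * t) := h1 _ (by positivity)
        _ ≤ K1 * (K1 ^ n * W t) := by gcongr; exact ih t ht
        _ = _ := by ring
  obtain ⟨n, hn⟩ := pow_unbounded_of_one_lt 2 hl
  refine ⟨K1 ^ n, fun t ht => ?_⟩
  have ht' := ht.1
  rw [← hWω _ (by linarith [ht.2] : 2 * t < 1), ← hWω _ (by linarith [ht.2] : t < 1)]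
  exact (hW.mono _ _ (by positivity) (by gcongr)).trans (h2 n t ht')

/-- A lacunary sequence of jump points. -/
theorem exists_jump_seq {ω : ℝ → ℝ} {L : ℝ} (h : IsModulus ω L)
    (hnd : ¬ ∃ K : ℝ, ∀ t ∈ Ioo (0:ℝ) (1 / 2), ω (2 * t) ≤ K * ω t)
    {c : ℝ} (hc0 : 0 < c) (hc : ∀ t ∈ Ioo (0:ℝ) 1, c * t ≤ ω t) {l m η : ℝ} (hl : 1 < l)
    (hm : 0 < m) (hη : 0 < η) :
    ∃ s : ℕ → ℝ, (∀ k, s k ∈ Ioo (0:ℝ) 1) ∧ ω (s 0) ≤ 1 ∧ (∀ k, 3 * ω (s (k + 1)) ≤ ω (s k)) ∧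
      (∀ k, 32 * 2 ^ k * (m * s k) ≤ η * ω (s k)) ∧ ∀ k : ℕ, k * ω (s k / l) ≤ ω (s k) := by
  have hp := h.2.2.1
  have hl0 : 0 < l := by linarith
  choose F hF using exists_jump_ratio h hnd hl
  set K : ℕ → ℝ := fun k => k + 32 * 2 ^ k * m * l / (η * c) with hK
  let s : ℕ → ℝ := fun n => Nat.rec (F (K 0) 1) (fun k x => F (K (k + 1)) (ω x / 3)) n
  have hsS : ∀ k, s (k + 1) = F (K (k + 1)) (ω (s k) / 3) := fun k => rfl
  have hs : ∀ k, s k ∈ Ioo (0:ℝ) 1 := by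
    intro k
    induction k with
    | zero => exact (hF _ _ one_pos).1
    | succ k ih => exact (hF _ _ (by linarith [hp _ ih])).1
  have hsh : ∀ k, s k / l ∈ Ioo (0:ℝ) 1 := fun k =>
    ⟨div_pos (hs k).1 hl0, (div_lt_one hl0).mpr ((hs k).2.trans hl)⟩
  have hjump : ∀ k, K k * ω (s k / l) ≤ ω (s k) := by
    intro k
    cases k with
    | zero => exact (hF _ _ one_pos).2.1
    | succ k => exact (hF _ _ (by linarith [hp _ (hs k)])).2.1
  refine ⟨s, hs, (hF _ _ one_pos).2.2, fun k => ?_, fun k => ?_, fun k => ?_⟩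
  · have := (hF (K (k + 1)) (ω (s k) / 3) (by linarith [hp _ (hs k)])).2.2
    rw [← hsS] at this
    linarith
  · have h1 := hp _ (hsh k)
    calc 32 * 2 ^ k * (m * s k) = η * ((0 + 32 * 2 ^ k * m * l / (η * c)) * (c * (s k / l))) := by
          field_simp
          ring
      _ ≤ η * (K k * ω (s k / l)) := by
          have := (hsh k).1
          simp only [hK]
          gcongr
          · positivity
          · exact hc _ (hsh k)
      _ ≤ _ := by gcongr; exact hjump k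
  · refine le_trans (mul_le_mul_of_nonneg_right ?_ (hp _ (hsh k)).le) (hjump k)
    simp only [hK]
    exact le_add_of_nonneg_right (by positivity)

theorem inner_of_cont {B : ℂ → ℂ} (hBd : DifferentiableOn ℂ B (ball 0 1))
    (hBb : ∀ z ∈ ball (0:ℂ) 1, ‖B z‖ ≤ 1)
    (hBc : ∀ ζ : ℂ, ‖ζ‖ = 1 → ζ ≠ 1 → ‖B ζ‖ = 1 ∧ ∃ r > (0:ℝ), DifferentiableOn ℂ B (ball ζ r))
    (N : ℕ) : IsInner fun z => B z ^ N := by
  refine ⟨hBd.pow N, fun z hz => ?_, ?_⟩
  · rw [norm_pow]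
    exact pow_le_one₀ (norm_nonneg _) (hBb z hz)
  · filter_upwards [ae_exp_ne_one] with θ hθ
    obtain ⟨hB1, r, hr, hd⟩ := hBc _ (norm_exp_ofReal_mul_I θ) hθ
    refine ⟨B (exp ((θ : ℂ) * I)) ^ N, by rw [norm_pow, hB1, one_pow], ?_⟩
    have hcont : ContinuousAt (fun t : ℝ => (t : ℂ) * exp ((θ : ℂ) * I)) 1 := by fun_prop
    have h2 := ContinuousAt.comp_of_eq
      (hd.continuousOn.continuousAt (ball_mem_nhds _ hr)) hcont (by simp)
    have h3 := h2.tendsto.mono_left (nhdsWithin_le_nhds (s := Iio (1:ℝ)))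
    exact Tendsto.pow (by simpa [Function.comp_def] using h3) N

theorem not_bdd {x y : ℕ → ℝ} (hx : ∀ k, 0 < x k) (hj : ∀ k : ℕ, k * x k ≤ y k) {C : ℝ}
    (hC : ∀ k, y k ≤ C * x k) : False := by
  obtain ⟨k, hk⟩ := exists_nat_gt C
  have := le_of_mul_le_mul_right ((hj k).trans (hC k)) (hx k)
  linarith

/-- Below `1 / e`, (E) does not imply (S). -/
theorem not_e_imp_s {ω : ℝ → ℝ} {L : ℝ} (h : IsModulus ω L)
    (hnd : ¬ ∃ K : ℝ, ∀ t ∈ Ioo (0:ℝ) (1 / 2), ω (2 * t) ≤ K * ω t)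
    {c : ℝ} (hc0 : 0 < c) (hc : ∀ t ∈ Ioo (0:ℝ) 1, c * t ≤ ω t) {ε : ℝ} (hε0 : 0 < ε)
    (hε : ε < Real.exp (-1)) :
    ∃ Θ : ℂ → ℂ, IsInner Θ ∧ CondE ω L (fun z => 1 - z) Θ ε ∧ ¬ CondS ω L (fun z => 1 - z) Θ := by
  have hm := h.2.1
  have hp := h.2.2.1
  set M := -Real.log ε with hM
  have hM1 : 1 < M := by
    have := Real.log_lt_log hε0 hε
    rw [Real.log_exp] at this
    linarith
  set σ : ℝ := min ((M - 1) / 4) (1 / 2) with hσ
  have hσ0 : 0 < σ := lt_min (by linarith) (by norm_num)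
  have hσ1 : σ ≤ 1 / 2 := min_le_right _ _
  have hσ2 : 1 + 4 * σ ≤ M := by linarith [min_le_left ((M - 1) / 4) (1 / 2)]
  obtain ⟨N, hN⟩ := exists_nat_gt (20 / σ)
  have hNσ : 20 < N * σ := by rwa [div_lt_iff₀ hσ0] at hN
  have hN0 : (0:ℝ) < N := by nlinarith
  have hN1 : (40:ℝ) ≤ N := by nlinarith
  set τ : ℝ := 1 + 2 * σ with hτ
  have hτ0 : 0 < τ := by positivity
  obtain ⟨s, hs, hs0, hlac, hthin, hjump⟩ := exists_jump_seq h hnd hc0 hc (l := 1 + σ)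
    (m := 2 * N / τ) (η := 2 * σ / N) (by linarith) (by positivity) (by positivity)
  have hη1 : 2 * σ / N ≤ 2 * σ / 40 := by gcongr
  obtain ⟨B, hBd, hBb, hBc, hBl, hBz, -⟩ := exists_blaschke2 (δ := fun k => 2 * N / τ * s k)
    (ρ := fun k => ω (s k)) (η := 2 * σ / N) (by positivity) (by linarith)
    (fun k => by have := (hs k).1; positivity) hs0 hlac hthin
  refine ⟨_, inner_of_cont hBd hBb hBc N, ⟨2, fun z hz hsm => ?_⟩, ?_⟩
  · rcases hBl z hz (τ / (2 * N)) (by positivity) with ⟨k, hk1, hk2⟩ | hlow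
    · have e : τ / (2 * N) * (2 * N / τ * s k) = s k := by field_simp
      rw [e] at hk2
      refine hk1.trans (mul_le_mul_of_nonneg_left ?_ (by norm_num))
      split_ifs with h1
      · exact hm (hs k) ⟨by linarith [(hs k).1], h1⟩ hk2
      · exact le_lim hm h.2.2.2.2 (hs k)
    · exfalso
      set y : ℝ := 2 * (1 + 3 * σ) / N with hy
      have hy0 : 0 < y := by positivity
      have hyN : y * N = 2 * (1 + 3 * σ) := by rw [hy]; field_simp
      have hy1 : y < σ / 4 := by nlinarith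
      have e : 1 - 2 * σ / N - 4 * (τ / (2 * N)) = 1 - y := by
        rw [hy, hτ]
        field_simp
        ring
      rw [e] at hlow
      have h1 : Real.exp (-(y / (1 - y))) ≤ 1 - y := by
        have h2 := Real.add_one_le_exp (y / (1 - y))
        have h3 : 0 < 1 - y := by linarith
        have h4 : y / (1 - y) + 1 = (1 - y)⁻¹ := by field_simp; ring
        rw [h4] at h2
        rw [Real.exp_neg]
        exact inv_le_of_inv_le₀ h3 h2
      have h2 : N * (y / (1 - y)) ≤ 2 * M := by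
        rw [← mul_div_assoc, div_le_iff₀ (by linarith)]
        nlinarith
      have h3 : ε ^ 2 ≤ (‖B z‖ ^ N) ^ 2 :=
        calc ε ^ 2 = Real.exp (-(2 * M)) := by
              rw [hM, show -(2 * -Real.log ε) = (2:ℕ) * Real.log ε by push_cast; ring,
                Real.exp_nat_mul, Real.exp_log hε0]
          _ ≤ Real.exp (N * -(y / (1 - y))) := Real.exp_le_exp.mpr (by linarith)
          _ = Real.exp (-(y / (1 - y))) ^ N := Real.exp_nat_mul _ _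
          _ ≤ (‖B z‖ ^ 2) ^ N := by gcongr; exact h1.trans hlow
          _ = _ := by ring
      rw [norm_pow] at hsm
      nlinarith [pow_nonneg (norm_nonneg (B z)) N]
  · rintro ⟨-, C, hC⟩
    have hsh : ∀ k, s k / (1 + σ) ∈ Ioo (0:ℝ) 1 := fun k =>
      ⟨div_pos (hs k).1 (by linarith), (div_lt_one (by linarith)).mpr (by linarith [(hs k).2])⟩
    refine not_bdd (fun k => hp _ (hsh k)) hjump (C := |C|) fun k => ?_
    obtain ⟨hδ1, ζ, hζ1, hζρ, hζ0⟩ := hBz k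
    have hne : ζ ≠ 1 := by
      intro h
      have := hp _ (hs k)
      simp [h] at hζρ
      linarith
    obtain ⟨hB1, r, hr, hd⟩ := hBc ζ hζ1 hne
    have hsk := (hs k).1
    set δ : ℝ := 2 * N / τ * s k with hδ
    have hδ0 : 0 < δ := by positivity
    have hδσ : δ ≤ σ / 2 := by linarith
    have ha : ((1 - δ : ℝ) : ℂ) * ζ ∈ ball (0:ℂ) 1 := by
      rw [mem_ball_zero_iff, norm_mul, hζ1, mul_one, norm_real, Real.norm_of_nonneg (by linarith)]
      linarith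
    have hJ := julia_gen hBd hBb hζ1 (ρ := 1 - δ) (β := 0) (by linarith) (by linarith) one_pos
      (by simpa [bf] using hζ0 _ ha) hr hd (fun _ _ => rfl) hB1
    have hder : ‖deriv (fun z => B z ^ N) ζ‖ = N * ‖deriv B ζ‖ := by
      rw [deriv_fun_pow (hd.differentiableAt (ball_mem_nhds ζ hr)), norm_mul, norm_mul,
        norm_pow, hB1]
      simp
    have h2 := hC ζ hζ1 r hr (fun z => B z ^ N) (hd.pow N) (fun _ _ => rfl)
    set D := ‖deriv (fun z => B z ^ N) ζ‖ with hD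
    have h3 : (1 + σ) / s k ≤ D := by
      rw [hder]
      refine le_trans ?_ (mul_le_mul_of_nonneg_left hJ hN0.le)
      have e : N * ((1 + (1 - δ)) / (1 - (1 - δ)) * ((1 - 0) / (1 + 0))) =
          τ * (1 - δ / 2) / s k := by
        rw [sub_sub_cancel, hδ]
        field_simp
        ring
      rw [e]
      apply div_le_div_of_nonneg_right _ hsk.le
      nlinarith
    have h4 : 1 < (1 + σ) / s k := by
      rw [one_lt_div hsk]
      linarith [(hs k).2]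
    have hD1 : 1 < D := h4.trans_le h3
    have hD0 : 0 < D := by linarith
    have h5 : 1 / D ≤ s k / (1 + σ) := by
      rw [div_le_iff₀ hsk] at h3
      rw [div_le_div_iff₀ hD0 (by linarith)]
      linarith
    have hmem : 1 / D ∈ Ioo (0:ℝ) 1 := ⟨by positivity, h5.trans_lt (hsh k).2⟩
    rw [if_pos hD1] at h2
    simp only [hζρ] at h2
    exact h2.trans (mul_le_mul (le_abs_self C) (hm hmem (hsh k) h5) (hp _ hmem).le (abs_nonneg C))

theorem deriv_eq_of_eqOn {g B : ℂ → ℂ} {ζ : ℂ} (hζ : ‖ζ‖ = 1) {r r' : ℝ} (hr : 0 < r)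
    (hr' : 0 < r') (hg : DifferentiableOn ℂ g (ball ζ r)) (hB : DifferentiableOn ℂ B (ball ζ r'))
    (he : EqOn g B (ball ζ r ∩ ball 0 1)) : deriv g ζ = deriv B ζ := by
  apply EventuallyEq.deriv_eq
  refine ((hg.analyticAt (ball_mem_nhds _ hr)).frequently_eq_iff_eventually_eq
    (hB.analyticAt (ball_mem_nhds _ hr'))).mp ?_
  have hn : ∀ t : ℝ, 0 ≤ t → ‖(t : ℂ) * ζ‖ = t := fun t ht => by
    rw [norm_mul, hζ, mul_one, norm_real, Real.norm_of_nonneg ht]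
  have h1 : Tendsto (fun t : ℝ => (t : ℂ) * ζ) (𝓝[<] 1) (𝓝 ζ) := by
    have : ContinuousAt (fun t : ℝ => (t : ℂ) * ζ) 1 := by fun_prop
    simpa using this.tendsto.mono_left (nhdsWithin_le_nhds (s := Iio (1:ℝ)))
  have h2 : Tendsto (fun t : ℝ => (t : ℂ) * ζ) (𝓝[<] 1) (𝓝[≠] ζ) := by
    apply tendsto_nhdsWithin_of_tendsto_nhds_of_eventually_within _ h1
    filter_upwards [Ioo_mem_nhdsLT (by norm_num : (0:ℝ) < 1)] with t ht h
    have h3 := hn t ht.1.le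
    rw [mem_singleton_iff.mp h, hζ] at h3
    linarith [ht.2]
  refine h2.frequently (Eventually.frequently ?_)
  filter_upwards [Ioo_mem_nhdsLT (by norm_num : (0:ℝ) < 1), h1.eventually (ball_mem_nhds ζ hr)]
    with t ht ht2
  exact he ⟨ht2, by rw [mem_ball_zero_iff, hn t ht.1.le]; exact ht.2⟩

/-- Above `1 / 3`, (S) does not imply (E). -/
theorem not_s_imp_e {ω : ℝ → ℝ} {L : ℝ} (h : IsModulus ω L)
    (hnd : ¬ ∃ K : ℝ, ∀ t ∈ Ioo (0:ℝ) (1 / 2), ω (2 * t) ≤ K * ω t)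
    {c : ℝ} (hc0 : 0 < c) (hc : ∀ t ∈ Ioo (0:ℝ) 1, c * t ≤ ω t) {ε : ℝ} (hε : 1 / 3 < ε)
    (hε1 : ε < 1) :
    ∃ Θ : ℂ → ℂ, IsInner Θ ∧ CondS ω L (fun z => 1 - z) Θ ∧ ¬ CondE ω L (fun z => 1 - z) Θ ε := by
  have hm := h.2.1
  have hp := h.2.2.1
  have hL : ∀ t ∈ Ioo (0:ℝ) 1, ω t ≤ L := fun t ht => le_lim hm h.2.2.2.2 ht
  have hL0 : 0 < L := (hp (1 / 2) (by norm_num)).trans_le (hL _ (by norm_num))
  set σ : ℝ := (3 * ε - 1) / 8 with hσ
  have hσ0 : 0 < σ := by rw [hσ]; linarith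
  have hσ1 : σ < 1 / 4 := by rw [hσ]; linarith
  obtain ⟨s, hs, hs0, hlac, hthin, hjump⟩ := exists_jump_seq h hnd hc0 hc (l := 1 + σ)
    (m := 2 + σ) (η := σ) (by linarith) (by positivity) hσ0
  obtain ⟨B, hBd, hBb, hBc, -, hBz, hBD⟩ := exists_blaschke2 (δ := fun k => (2 + σ) * s k)
    (ρ := fun k => ω (s k)) hσ0 (by linarith)
    (fun k => by have := (hs k).1; positivity) hs0 hlac hthin
  refine ⟨B, by simpa using inner_of_cont hBd hBb hBc 1, ⟨?_, 2 / L + 8 / c + 2, ?_⟩, ?_⟩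
  · refine measure_mono_null (fun θ hθ => ?_) (ae_iff.mp ae_exp_ne_one)
    intro hne
    obtain ⟨-, r, hr, hd⟩ := hBc _ (norm_exp_ofReal_mul_I θ) hne
    exact hθ ⟨r, hr, B, hd, fun _ _ => rfl⟩
  · intro ζ hζ r hr g hg hgB
    have hw0 : 0 < (if 1 < ‖deriv g ζ‖ then ω (1 / ‖deriv g ζ‖) else L) := by
      split_ifs with h1
      · exact hp _ ⟨by positivity, (div_lt_one (by linarith)).mpr h1⟩
      · exact hL0
    by_cases hne : ζ = 1
    · simp only [hne, sub_self, norm_zero]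
      rw [hne] at hw0
      positivity
    obtain ⟨-, r', hr', hd⟩ := hBc ζ hζ hne
    have hx0 : 0 < ‖1 - ζ‖ := norm_pos_iff.mpr (sub_ne_zero.mpr (Ne.symm hne))
    have hx2 : ‖1 - ζ‖ ≤ 2 := by
      have := norm_sub_le 1 ζ
      rw [norm_one, hζ] at this
      linarith
    have hc1 : 0 < 2 / L := by positivity
    have hc2 : 0 < 8 / c := by positivity
    rw [deriv_eq_of_eqOn hζ hr hr' hg hd hgB] at hw0 ⊢
    by_cases h1 : 1 < ‖deriv B ζ‖
    · rw [if_pos h1] at hw0 ⊢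
      have hD0 : 0 < ‖deriv B ζ‖ := by linarith
      have hmem : 1 / ‖deriv B ζ‖ ∈ Ioo (0:ℝ) 1 := ⟨by positivity, (div_lt_one hD0).mpr h1⟩
      rcases hBD ζ hζ hne with h2 | ⟨k, hk1, hk2⟩
      · have h3 : ‖1 - ζ‖ ≤ 8 * (1 / ‖deriv B ζ‖) := by
          rw [le_div_iff₀ hx0] at h2
          rw [mul_one_div, le_div_iff₀ hD0]
          linarith
        calc ‖1 - ζ‖ ≤ 8 / c * (c * (1 / ‖deriv B ζ‖)) := by
              refine h3.trans_eq ?_
              field_simp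
          _ ≤ 8 / c * ω (1 / ‖deriv B ζ‖) := by gcongr; exact hc _ hmem
          _ ≤ _ := by gcongr; linarith
      · have hsk := (hs k).1
        have h3 : s k ≤ 1 / ‖deriv B ζ‖ := by
          have e : (2 + σ) / ((2 + σ) * s k) = 1 / s k := by field_simp
          rw [e, le_div_iff₀ hsk] at hk2
          rw [le_div_iff₀ hD0]
          linarith
        calc ‖1 - ζ‖ ≤ 2 * ω (s k) := hk1
          _ ≤ 2 * ω (1 / ‖deriv B ζ‖) := by gcongr; exact hm (hs k) hmem h3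
          _ ≤ _ := by gcongr; linarith
    · rw [if_neg h1]
      calc ‖1 - ζ‖ ≤ 2 / L * L := by rw [div_mul_cancel₀ _ hL0.ne']; exact hx2
        _ ≤ _ := by gcongr; linarith
  · rintro ⟨C, hC⟩
    have hsh : ∀ k, s k / (1 + σ) ∈ Ioo (0:ℝ) 1 := fun k =>
      ⟨div_pos (hs k).1 (by linarith), (div_lt_one (by linarith)).mpr (by linarith [(hs k).2])⟩
    refine not_bdd (fun k => hp _ (hsh k)) hjump (C := |C| + 1 / c) fun k => ?_
    obtain ⟨hδ1, ζ, hζ1, hζρ, hζ0⟩ := hBz k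
    have hsk := (hs k).1
    set t : ℝ := s k / (1 + σ) with ht
    set δ : ℝ := (2 + σ) * s k with hδ
    have ht0 : t ∈ Ioo (0:ℝ) 1 := hsh k
    have hts : (1 + σ) * t = s k := by rw [ht]; field_simp
    have hδ0 : 0 < δ := by positivity
    have hnz : ‖((1 - t : ℝ) : ℂ) * ζ‖ = 1 - t := by
      rw [norm_mul, hζ1, mul_one, norm_real, Real.norm_of_nonneg (by linarith [ht0.2])]
    have hz : ((1 - t : ℝ) : ℂ) * ζ ∈ ball (0:ℂ) 1 := by
      rw [mem_ball_zero_iff, hnz]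
      linarith [ht0.1]
    have hsmall : ‖B (((1 - t : ℝ) : ℂ) * ζ)‖ < ε := by
      refine (hζ0 _ hz).trans_lt ?_
      have h1 := den_ge (((1 - δ : ℝ) : ℂ) * ζ) (((1 - t : ℝ) : ℂ) * ζ)
      rw [hnz, norm_mul, hζ1, mul_one, norm_real, Real.norm_of_nonneg (by linarith)] at h1
      have h2 : ((1 - δ : ℝ) : ℂ) * ζ - ((1 - t : ℝ) : ℂ) * ζ = -((δ - t : ℝ) : ℂ) * ζ := by
        push_cast
        ring
      have hδt : δ = (2 + σ) * ((1 + σ) * t) := by rw [hts]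
      have ht00 := ht0.1
      have h3 : 0 < 1 - (1 - δ) * (1 - t) := by nlinarith [ht0.2]
      have h4 : δ - t < ε * (1 - (1 - δ) * (1 - t)) := by
        have e1 : ε = (8 * σ + 1) / 3 := by rw [hσ]; ring
        have h5 : (3 - σ + 3 * σ + σ ^ 2) * t ≤ 1 - (1 - δ) * (1 - t) := by
          have : δ * t ≤ σ * t := by gcongr; linarith
          nlinarith
        have h6 : δ - t = (1 + 3 * σ + σ ^ 2) * t := by rw [hδt]; ring
        have h7 : 1 + 3 * σ + σ ^ 2 < ε * (3 - σ + 3 * σ + σ ^ 2) := by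
          rw [e1]
          nlinarith [pow_pos hσ0 3]
        calc δ - t < ε * (3 - σ + 3 * σ + σ ^ 2) * t := by rw [h6]; gcongr
          _ = ε * ((3 - σ + 3 * σ + σ ^ 2) * t) := by ring
          _ ≤ _ := by gcongr
      rw [bf, norm_div, h2, norm_mul, hζ1, mul_one, norm_neg, norm_real,
        Real.norm_of_nonneg (by nlinarith), div_lt_iff₀ (h3.trans_le h1)]
      exact h4.trans_le (by gcongr)
    have h2 := hC _ hz hsmall
    rw [hnz, sub_sub_cancel, if_pos ht0.2] at h2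
    have h3 : ‖((1 - t : ℝ) : ℂ) * ζ - ζ‖ = t := by
      have : ((1 - t : ℝ) : ℂ) * ζ - ζ = -(t : ℂ) * ζ := by
        push_cast
        ring
      rw [this, norm_mul, hζ1, mul_one, norm_neg, norm_real, Real.norm_of_nonneg ht0.1.le]
    have h4 := norm_sub_le_norm_sub_add_norm_sub 1 (((1 - t : ℝ) : ℂ) * ζ) ζ
    have h5 : t ≤ 1 / c * ω t := by
      rw [one_div, ← div_eq_inv_mul, le_div_iff₀ hc0]
      linarith [hc t ht0]
    have h6 : C * ω t ≤ |C| * ω t := mul_le_mul_of_nonneg_right (le_abs_self C) (hp t ht0).le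
    rw [add_mul]
    linarith

theorem condE_of_condS_level {ω : ℝ → ℝ} {L : ℝ} (h : IsModulus ω L) {f Θ : ℂ → ℂ}
    (hf : InLip ω f) (hΘ : IsInner Θ) (hS : CondS ω L f Θ) {ε : ℝ} (hε0 : 0 < ε)
    (hε : ε < 1 / 3) : CondE ω L f Θ ε := by
  obtain ⟨A, hA, hmod⟩ := hf.bound h
  obtain ⟨hnull, C, hC⟩ := hS
  refine s_imp_e_level h.isW hf.1 hf.2.1 hA hmod hΘ.1 hΘ.2.1 hΘ.2.2 hnull (C := C) ?_ hε0 hε
  simp only [ext_if]
  exact hC

theorem condS_of_condE_level {ω : ℝ → ℝ} {L : ℝ} (h : IsModulus ω L) {f Θ : ℂ → ℂ}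
    (hf : InLip ω f) (hΘ : IsInner Θ) {ε : ℝ} (hε : ε ∈ Ioo (0:ℝ) 1) (hεe : Real.exp (-1) < ε)
    (hE : CondE ω L f Θ ε) : CondS ω L f Θ := by
  obtain ⟨A, hA, hmod⟩ := hf.bound h
  obtain ⟨C, hC⟩ := hE
  have key := e_imp_s_level h.isW hf.1 hf.2.1 hA hmod hf.2.2.2 hΘ.1 hΘ.2.1 hΘ.2.2 hε hεe hC
  simp only [ext_if] at key
  exact key

end Pool.Agent.P.MP_32de40_an
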