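import Mathlib

set_option autoImplicit false

open Complex Set Metric Filter Topology MeasureTheory ComplexConjugate

namespace Pool.Agent.P.MP_32de40_an

/-- Abstract properties of the extended modulus. -/
structure IsMod (W : ℝ → ℝ) : Prop where
  pos : ∀ t, 0 < t → 0 < W t
  mono : ∀ s t, 0 < s → s ≤ t → W s ≤ W t
  dil : ∀ s t, 0 < s → s ≤ t → W t ≤ t / s * W s
  lim : Tendsto W (𝓝[>] 0) (𝓝 0)

theorem IsMod.le_mul {W : ℝ → ℝ} (h : IsMod W) {s t c : ℝ} (hs : 0 < s) (ht : 0 < t)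
    (hc : 1 ≤ c) (hts : t ≤ c * s) : W t ≤ c * W s := by
  have h1 : s ≤ c * s := by nlinarith
  have h2 := h.dil s (c * s) hs h1
  have h3 : c * s / s = c := by field_simp
  rw [h3] at h2
  exact (h.mono t (c * s) ht hts).trans h2

theorem isMod_ext {ω : ℝ → ℝ} {L : ℝ}
    (hmono : MonotoneOn ω (Set.Ioo 0 1))
    (hpos : ∀ t ∈ Set.Ioo (0:ℝ) 1, 0 < ω t)
    (h0 : Filter.Tendsto ω (nhdsWithin 0 (Set.Ioi 0)) (nhds 0))
    (hanti : AntitoneOn (fun t => ω t / t) (Set.Ioo 0 1))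
    (h1 : Filter.Tendsto ω (nhdsWithin 1 (Set.Iio 1)) (nhds L)) :
    IsMod (fun t => if t < 1 then ω t else L) := by
  have hL : ∀ s ∈ Ioo (0:ℝ) 1, ω s ≤ L := by
    intro s hs
    refine ge_of_tendsto h1 ?_
    filter_upwards [Ioo_mem_nhdsLT hs.2] with t ht
    exact hmono hs ⟨hs.1.trans ht.1, ht.2⟩ ht.1.le
  have hL' : ∀ s ∈ Ioo (0:ℝ) 1, L ≤ ω s / s := by
    intro s hs
    have h2 : Tendsto (fun t => ω t / t) (𝓝[<] 1) (𝓝 (L / 1)) :=
      h1.div (tendsto_id.mono_left nhdsWithin_le_nhds) one_ne_zero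
    rw [div_one] at h2
    refine le_of_tendsto h2 ?_
    filter_upwards [Ioo_mem_nhdsLT hs.2] with t ht
    exact hanti hs ⟨hs.1.trans ht.1, ht.2⟩ ht.1.le
  have hL0 : 0 < L := (hpos (1/2) (by norm_num)).trans_le (hL _ (by norm_num))
  constructor
  · intro t ht
    split_ifs with h
    · exact hpos t ⟨ht, h⟩
    · exact hL0
  · intro s t hs hst
    by_cases ht : t < 1
    · have hs1 : s < 1 := hst.trans_lt ht
      simp only [ht, hs1, if_true]
      exact hmono ⟨hs, hs1⟩ ⟨hs.trans_le hst, ht⟩ hst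
    · by_cases hs1 : s < 1
      · simp only [ht, hs1, if_true, if_false]
        exact hL s ⟨hs, hs1⟩
      · simp [ht, hs1]
  · intro s t hs hst
    have ht0 : 0 < t := hs.trans_le hst
    by_cases ht : t < 1
    · have hs1 : s < 1 := hst.trans_lt ht
      simp only [ht, hs1, if_true]
      have := hanti ⟨hs, hs1⟩ ⟨ht0, ht⟩ hst
      simp only at this
      rw [div_le_iff₀ ht0] at this
      refine this.trans_eq ?_
      ring
    · by_cases hs1 : s < 1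
      · simp only [ht, hs1, if_true, if_false]
        have h3 := hL' s ⟨hs, hs1⟩
        have h4 : 0 ≤ ω s / s := hL0.le.trans h3
        calc L ≤ ω s / s := h3
          _ = 1 * (ω s / s) := by ring
          _ ≤ t * (ω s / s) := by gcongr; linarith
          _ = t / s * ω s := by ring
      · simp only [ht, hs1, if_false]
        have : 1 ≤ t / s := by rwa [one_le_div hs]
        nlinarith
  · refine h0.congr' ?_
    filter_upwards [Ioo_mem_nhdsGT (by norm_num : (0:ℝ) < 1)] with t ht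
    simp [ht.2]

/-- The boundary modulus estimate, for all pairs of boundary points. -/
theorem boundary_modulus {W : ℝ → ℝ} (hW : IsMod W) {f : ℂ → ℂ}
    (hc : ContinuousOn f (closedBall 0 1))
    (h : ∃ C : ℝ, ∃ δ₀ ∈ Set.Ioo (0:ℝ) 1, ∀ δ ∈ Set.Ioo 0 δ₀, ∀ x h : ℝ, |h| ≤ δ →
          ‖f (Complex.exp (((x + h : ℝ) : ℂ) * Complex.I))
            - f (Complex.exp ((x : ℂ) * Complex.I))‖ ≤ C * W δ) :
    ∃ A : ℝ, 0 ≤ A ∧ ∀ ζ η : ℂ, ‖ζ‖ = 1 → ‖η‖ = 1 → η ≠ ζ → ‖f η - f ζ‖ ≤ A * W ‖η - ζ‖ := by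
  obtain ⟨C, δ₀, hδ₀, h⟩ := h
  obtain ⟨M, hM⟩ := (isCompact_closedBall (0:ℂ) 1).exists_bound_of_continuousOn hc
  have hM0 : 0 ≤ M := (norm_nonneg _).trans (hM 0 (by simp))
  have hW0 : 0 < W (δ₀ / 2) := hW.pos _ (by linarith [hδ₀.1])
  refine ⟨2 * |C| + 2 * M / W (δ₀ / 2), by positivity, fun ζ η hζ hη hne => ?_⟩
  have hζ0 : ζ ≠ 0 := by
    intro h0
    simp [h0] at hζ
  have hη0 : η ≠ 0 := by
    intro h0
    simp [h0] at hη
  have hd : 0 < ‖η - ζ‖ := norm_pos_iff.mpr (sub_ne_zero.mpr hne)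
  have hWd := hW.pos _ hd
  have hang : |(η / ζ).arg| ≤ 2 * ‖η - ζ‖ := by
    have h1 := angle_le_mul_norm_sub hη hζ
    rw [angle_eq_abs_arg hη0 hζ0] at h1
    refine h1.trans ?_
    gcongr
    linarith [Real.pi_le_four]
  by_cases hsmall : 2 * ‖η - ζ‖ < δ₀
  · have h1 := h (2 * ‖η - ζ‖) ⟨by linarith, hsmall⟩ ζ.arg (η / ζ).arg hang
    have e1 : exp ((ζ.arg : ℂ) * I) = ζ := by simpa [hζ] using norm_mul_exp_arg_mul_I ζ
    have e2 : exp (((η / ζ).arg : ℂ) * I) = η / ζ := by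
      simpa [hζ, hη] using norm_mul_exp_arg_mul_I (η / ζ)
    have e3 : exp (((ζ.arg + (η / ζ).arg : ℝ) : ℂ) * I) = η := by
      push_cast
      rw [add_mul, exp_add, e1, e2]
      field_simp
    rw [e1, e3] at h1
    have h2 : W (2 * ‖η - ζ‖) ≤ 2 * W ‖η - ζ‖ := hW.le_mul hd (by linarith) (by norm_num) le_rfl
    have h3 := hW.pos (2 * ‖η - ζ‖) (by linarith)
    calc ‖f η - f ζ‖ ≤ C * W (2 * ‖η - ζ‖) := h1
      _ ≤ |C| * W (2 * ‖η - ζ‖) := by gcongr; exact le_abs_self C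
      _ ≤ |C| * (2 * W ‖η - ζ‖) := by gcongr
      _ = (2 * |C| + 0) * W ‖η - ζ‖ := by ring
      _ ≤ _ := by gcongr; positivity
  · have h1 : W (δ₀ / 2) ≤ W ‖η - ζ‖ := hW.mono _ _ (by linarith [hδ₀.1]) (by linarith)
    calc ‖f η - f ζ‖ ≤ ‖f η‖ + ‖f ζ‖ := norm_sub_le _ _
      _ ≤ M + M := add_le_add (hM η (by simp [hη])) (hM ζ (by simp [hζ]))
      _ = (0 + 2 * M / W (δ₀ / 2)) * W (δ₀ / 2) := by field_simp; ring
      _ ≤ _ := by gcongr; positivity

/-- The boundary modulus controls the oscillation between an interior and a boundary point. -/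
theorem interior_modulus {W : ℝ → ℝ} (hW : IsMod W) {f : ℂ → ℂ}
    (hd : DifferentiableOn ℂ f (ball 0 1)) (hc : ContinuousOn f (closedBall 0 1))
    {A : ℝ} (hA : 0 ≤ A)
    (h : ∀ ζ η : ℂ, ‖ζ‖ = 1 → ‖η‖ = 1 → η ≠ ζ → ‖f η - f ζ‖ ≤ A * W ‖η - ζ‖)
    {z ζ : ℂ} (hz : z ∈ ball (0:ℂ) 1) (hζ : ‖ζ‖ = 1) :
    ‖f z - f ζ‖ ≤ 4 * A * W ‖z - ζ‖ := by
  rw [mem_ball_zero_iff] at hz
  have hden : ∀ η ∈ closedBall (0:ℂ) 1, 1 - conj z * η ≠ 0 := by
    intro η hη h0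
    rw [mem_closedBall_zero_iff] at hη
    have h1 : ‖conj z * η‖ = 1 := by
      rw [← sub_eq_zero.mp h0, norm_one]
    rw [norm_mul, norm_conj] at h1
    nlinarith [norm_nonneg z, norm_nonneg η]
  set H : ℂ → ℂ := fun η => (f η - f ζ) * ((1 - ‖z‖ ^ 2 : ℝ) : ℂ) / (1 - conj z * η) with hH
  have hHd : DiffContOnCl ℂ H (ball 0 1) := by
    constructor
    · apply DifferentiableOn.div
      · exact (hd.sub_const _).mul_const _
      · fun_prop
      · exact fun η hη => hden η (ball_subset_closedBall hη)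
    · rw [closure_ball _ one_ne_zero]
      apply ContinuousOn.div
      · exact (hc.sub continuousOn_const).mul continuousOn_const
      · fun_prop
      · exact hden
  set δ := ‖z - ζ‖ with hδ
  have hδ1 : 1 - ‖z‖ ≤ δ := by
    have := norm_sub_norm_le ζ z
    rw [hζ, norm_sub_rev] at this
    exact this
  have hδ0 : 0 < δ := by linarith
  have hWδ := hW.pos δ hδ0
  have hz2 : 0 < 1 - ‖z‖ ^ 2 := by nlinarith [norm_nonneg z]
  have hbound : ∀ η ∈ frontier (ball (0:ℂ) 1), ‖H η‖ ≤ 4 * A * W δ := by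
    intro η hη
    rw [frontier_ball _ one_ne_zero, mem_sphere_zero_iff_norm] at hη
    by_cases hne : η = ζ
    · simp only [hH, hne, sub_self, zero_mul, zero_div, norm_zero]
      positivity
    set ρ := ‖η - z‖ with hρ
    have hρ1 : 1 - ‖z‖ ≤ ρ := by
      have := norm_sub_norm_le η z
      rwa [hη] at this
    have hρ0 : 0 < ρ := by linarith
    have e1 : ‖1 - conj z * η‖ = ρ := by
      have h1 : (1 - conj z * η) = conj (η - z) * η := by
        have : conj η * η = 1 := by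
          rw [mul_comm, mul_conj, normSq_eq_norm_sq, hη]
          simp
        rw [map_sub, sub_mul, this]
      rw [h1, norm_mul, norm_conj, hη, mul_one]
    have h1 := h ζ η hζ hη hne
    have h2 : W ‖η - ζ‖ ≤ (ρ + δ) / δ * W δ := by
      refine (hW.mono _ (ρ + δ) (norm_pos_iff.mpr (sub_ne_zero.mpr hne)) ?_).trans
        (hW.dil δ (ρ + δ) hδ0 (by linarith))
      exact norm_sub_le_norm_sub_add_norm_sub η z ζ
    simp only [hH]
    rw [norm_div, norm_mul, e1, norm_real, Real.norm_of_nonneg hz2.le, div_le_iff₀ hρ0]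
    have h3 : 1 - ‖z‖ ^ 2 ≤ 2 * (1 - ‖z‖) := by nlinarith [norm_nonneg z]
    have h4 : (ρ + δ) / δ * (1 - ‖z‖ ^ 2) ≤ 4 * ρ := by
      rw [div_mul_eq_mul_div, div_le_iff₀ hδ0]
      nlinarith
    calc ‖f η - f ζ‖ * (1 - ‖z‖ ^ 2) ≤ A * ((ρ + δ) / δ * W δ) * (1 - ‖z‖ ^ 2) := by
          gcongr
          exact h1.trans (by gcongr)
      _ = A * W δ * ((ρ + δ) / δ * (1 - ‖z‖ ^ 2)) := by ring
      _ ≤ A * W δ * (4 * ρ) := by gcongr
      _ = _ := by ring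
  have := norm_le_of_forall_mem_frontier_norm_le isBounded_ball hHd hbound
    (subset_closure (mem_ball_zero_iff.mpr hz))
  have e2 : H z = f z - f ζ := by
    have h1 : (1 - conj z * z) = ((1 - ‖z‖ ^ 2 : ℝ) : ℂ) := by
      rw [mul_comm, mul_conj, normSq_eq_norm_sq]
      push_cast
      ring
    simp only [hH]
    rw [h1, mul_div_assoc, div_self, mul_one]
    exact_mod_cast hz2.ne'
  rwa [e2] at this

/-- A form of the Julia lemma along a radius. -/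
theorem le_norm_deriv {Θ : ℂ → ℂ} (hd : DifferentiableOn ℂ Θ (ball 0 1))
    (hb : ∀ z ∈ ball (0:ℂ) 1, ‖Θ z‖ ≤ 1) {ζ : ℂ} (hζ : ‖ζ‖ = 1) {ρ : ℝ} (hρ0 : 0 ≤ ρ)
    (hρ1 : ρ < 1) (hsmall : ‖Θ (ρ * ζ)‖ < 1 / 2)
    {r : ℝ} (hr : 0 < r) {g : ℂ → ℂ} (hg : DifferentiableOn ℂ g (ball ζ r))
    (hgΘ : EqOn g Θ (ball ζ r ∩ ball 0 1)) (hg1 : ‖g ζ‖ = 1) :
    1 / (8 * (1 - ρ)) ≤ ‖deriv g ζ‖ := by
  set a : ℂ := ρ * ζ with ha
  set b : ℂ := Θ a with hbdef
  set δ : ℝ := 1 - ρ with hδ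
  have hδ0 : 0 < δ := by linarith
  have hna : ‖a‖ = ρ := by simp [ha, hζ, abs_of_nonneg hρ0]
  have hsub : ball a δ ⊆ ball 0 1 := by
    apply ball_subset_ball'
    simp [hna, hδ]
  have hden : ∀ v : ℂ, ‖v‖ ≤ 1 → 1 / 2 ≤ ‖1 - conj b * v‖ := by
    intro v hv
    have h1 := norm_sub_norm_le (1:ℂ) (conj b * v)
    rw [norm_one, norm_mul, norm_conj] at h1
    nlinarith [norm_nonneg b, norm_nonneg v]
  have hid : ∀ v : ℂ, ‖1 - conj b * v‖ ^ 2 - ‖v - b‖ ^ 2 = (1 - ‖b‖ ^ 2) * (1 - ‖v‖ ^ 2) := by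
    intro v
    simp only [← normSq_eq_norm_sq, normSq_apply, sub_re, one_re, mul_re, conj_re, conj_im,
      sub_im, one_im, mul_im]
    ring
  set Ψ : ℂ → ℂ := fun w => (Θ w - b) / (1 - conj b * Θ w) with hΨ
  have hΨd : DifferentiableOn ℂ Ψ (ball a δ) := by
    apply DifferentiableOn.div
    · exact (hd.mono hsub).sub_const _
    · exact ((hd.mono hsub).const_mul _).const_sub _
    · intro w hw h0
      have := hden _ (hb w (hsub hw))
      rw [h0, norm_zero] at this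
      linarith
  have hΨa : Ψ a = 0 := by simp [hΨ, hbdef]
  have hb2 : 0 ≤ 1 - ‖b‖ ^ 2 := by nlinarith [norm_nonneg b]
  have hΨm : MapsTo Ψ (ball a δ) (closedBall (Ψ a) 1) := by
    intro w hw
    have h1 := hb w (hsub hw)
    have h2 := hden _ h1
    rw [hΨa, mem_closedBall_zero_iff, hΨ]
    simp only
    rw [norm_div, div_le_one (by linarith), ← sq_le_sq₀ (norm_nonneg _) (norm_nonneg _)]
    have h3 : 0 ≤ 1 - ‖Θ w‖ ^ 2 := by nlinarith [norm_nonneg (Θ w)]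
    nlinarith [hid (Θ w), mul_nonneg hb2 h3]
  have hkey : ∀ t : ℝ, ρ < t → t < 1 → (1 - t) / (8 * δ) ≤ 1 - ‖Θ (t * ζ)‖ := by
    intro t ht0 ht1
    have hdist : dist (t * ζ : ℂ) a = t - ρ := by
      rw [dist_eq_norm, ha, ← sub_mul, norm_mul, hζ, mul_one, ← ofReal_sub, norm_real,
        Real.norm_of_nonneg (by linarith)]
    have hmem : (t * ζ : ℂ) ∈ ball a δ := by
      rw [mem_ball, hdist]
      linarith
    have h1 := dist_le_div_mul_dist_of_mapsTo_ball hΨd hΨm hmem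
    rw [hΨa, dist_zero_right, hdist] at h1
    set v := Θ (t * ζ) with hv
    have hv1 : ‖v‖ ≤ 1 := hb _ (hsub hmem)
    have h2 := hden v hv1
    set s : ℝ := 1 / δ * (t - ρ) with hs
    have hs1 : 1 - s = (1 - t) / δ := by
      rw [hs]
      field_simp
      rw [hδ]
      ring
    have hs0 : 0 ≤ s := by
      have : 0 < t - ρ := by linarith
      positivity
    have hs2 : 0 ≤ 1 - s := by
      rw [hs1]
      have : 0 < 1 - t := by linarith
      positivity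
    have h3 : ‖v - b‖ ≤ s * ‖1 - conj b * v‖ := by
      simp only [hΨ] at h1
      rwa [norm_div, div_le_iff₀ (by linarith)] at h1
    have h4 : ‖v - b‖ ^ 2 ≤ s ^ 2 * ‖1 - conj b * v‖ ^ 2 := by
      rw [← mul_pow]
      gcongr
    have h5 := hid v
    have h6 : 1 / 4 ≤ ‖1 - conj b * v‖ ^ 2 := by nlinarith
    have h7 : (1 - s) / 4 ≤ (1 - s ^ 2) * ‖1 - conj b * v‖ ^ 2 := by
      have : 1 - s ≤ 1 - s ^ 2 := by nlinarith
      nlinarith
    have h8 : (1 - ‖b‖ ^ 2) * (1 - ‖v‖ ^ 2) ≤ 2 * (1 - ‖v‖) := by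
      have h9 : 0 ≤ 1 - ‖v‖ ^ 2 := by nlinarith [norm_nonneg v]
      nlinarith [sq_nonneg ‖b‖, sq_nonneg (1 - ‖v‖), mul_nonneg (sq_nonneg ‖b‖) h9]
    have h10 : (1 - t) / (8 * δ) = (1 - s) / 8 := by
      rw [hs1]
      field_simp
    rw [h10]
    nlinarith
  have hgd : HasDerivAt g (deriv g ζ) (((1:ℝ):ℂ) * ζ) := by
    simpa using (hg.differentiableAt (ball_mem_nhds ζ hr)).hasDerivAt
  have hline : HasDerivAt (fun t : ℝ => (t : ℂ) * ζ) ζ 1 := by
    simpa using (ofRealCLM.hasDerivAt (x := (1:ℝ))).mul_const ζ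
  have hcomp : HasDerivAt (fun t : ℝ => g (t * ζ)) (ζ * deriv g ζ) 1 := by
    simpa [Function.comp_def] using hgd.scomp (1:ℝ) hline
  have hsl := (hasDerivAt_iff_tendsto_slope.mp hcomp).mono_left
    (nhdsWithin_mono (1:ℝ) (fun t (ht : t ∈ Iio (1:ℝ)) => (ne_of_lt ht : t ≠ 1)))
  have hsl2 := hsl.norm
  rw [norm_mul, hζ, one_mul] at hsl2
  refine ge_of_tendsto hsl2 ?_
  have hev : ∀ᶠ t : ℝ in 𝓝 1, (t * ζ : ℂ) ∈ ball ζ r := by
    apply hline.continuousAt.eventually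
    simp only [ofReal_one, one_mul]
    exact ball_mem_nhds ζ hr
  filter_upwards [Ioo_mem_nhdsLT hρ1, nhdsWithin_le_nhds hev] with t ht ht2
  have ht3 : (t * ζ : ℂ) ∈ ball (0:ℂ) 1 := by
    rw [mem_ball_zero_iff, norm_mul, hζ, mul_one, norm_real,
      Real.norm_of_nonneg (by linarith [ht.1])]
    exact ht.2
  have h1 := hkey t ht.1 ht.2
  rw [← hgΘ ⟨ht2, ht3⟩] at h1
  have h2 : 0 < 1 - t := by linarith [ht.2]
  rw [slope_def_module, norm_smul, norm_inv, Real.norm_eq_abs, abs_sub_comm, abs_of_pos h2,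
    ← div_eq_inv_mul, le_div_iff₀ h2]
  have h3 := norm_sub_norm_le (g ζ) (g (t * ζ))
  rw [hg1, norm_sub_rev] at h3
  simp only [ofReal_one, one_mul]
  calc 1 / (8 * δ) * (1 - t) = (1 - t) / (8 * δ) := by ring
    _ ≤ _ := h1.trans h3

end Pool.Agent.P.MP_32de40_an
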