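import Pool.Agent.P.MP_32de40_an.Reflect
import Pool.Agent.P.MP_32de40_an.Zeros
import Pool.Agent.P.MP_32de40_an.Modulus

set_option autoImplicit false

open Complex Set Metric Filter Topology MeasureTheory ComplexConjugate

namespace Pool.Agent.P.MP_32de40_an

theorem main_abstract {W : ℝ → ℝ} (hW : IsMod W) {f : ℂ → ℂ}
    (hfd : DifferentiableOn ℂ f (ball 0 1)) (hfc : ContinuousOn f (closedBall 0 1))
    {A : ℝ} (hA : 0 ≤ A)
    (hmod : ∀ ζ η : ℂ, ‖ζ‖ = 1 → ‖η‖ = 1 → η ≠ ζ → ‖f η - f ζ‖ ≤ A * W ‖η - ζ‖)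
    (hne : ∃ z ∈ ball (0:ℂ) 1, f z ≠ 0) {Θ : ℂ → ℂ}
    (hd : DifferentiableOn ℂ Θ (ball 0 1)) (hb : ∀ z ∈ ball (0:ℂ) 1, ‖Θ z‖ ≤ 1)
    (hl : ∀ᵐ θ : ℝ, ∃ w : ℂ, ‖w‖ = 1 ∧
      Tendsto (fun r : ℝ => Θ ((r : ℂ) * exp ((θ : ℂ) * I))) (𝓝[<] 1) (𝓝 w)) :
    (volume {θ : ℝ | ¬ ∃ r > (0:ℝ), ∃ g : ℂ → ℂ,
        DifferentiableOn ℂ g (ball (exp ((θ:ℂ) * I)) r) ∧
        EqOn g Θ (ball (exp ((θ:ℂ) * I)) r ∩ ball 0 1)} = 0 ∧
      ∃ C : ℝ, ∀ ζ : ℂ, ‖ζ‖ = 1 → ∀ r > (0:ℝ), ∀ g : ℂ → ℂ,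
        DifferentiableOn ℂ g (ball ζ r) → EqOn g Θ (ball ζ r ∩ ball 0 1) →
        ‖f ζ‖ ≤ C * (if 1 < ‖deriv g ζ‖ then W (1 / ‖deriv g ζ‖) else W 1)) ↔
    (∃ ε ∈ Ioo (0:ℝ) 1, ∃ C : ℝ, ∀ z ∈ ball (0:ℂ) 1, ‖Θ z‖ < ε → ‖f z‖ ≤ C * W (1 - ‖z‖)) := by
  have hint : ∀ {z ζ : ℂ}, z ∈ ball (0:ℂ) 1 → ‖ζ‖ = 1 → ‖f z - f ζ‖ ≤ 4 * A * W ‖z - ζ‖ :=
    fun hz hζ => interior_modulus hW hfd hfc hA hmod hz hζ
  have hdist : ∀ {z ζ : ℂ}, ‖ζ‖ = 1 → 1 - ‖z‖ ≤ ‖z - ζ‖ := by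
    intro z ζ hζ
    have := norm_sub_norm_le ζ z
    rwa [hζ, norm_sub_rev] at this
  constructor
  · rintro ⟨hnull, C, hC⟩
    refine ⟨1 / 2, by norm_num, 8 * |C| + 8 * A, fun z hz hzs => ?_⟩
    have hz1 : ‖z‖ < 1 := mem_ball_zero_iff.mp hz
    set ρ := ‖z‖ with hρ
    set δ := 1 - ρ with hδ
    have hρ0 : 0 ≤ ρ := norm_nonneg z
    have hδ0 : 0 < δ := by linarith
    have hδ1 : δ ≤ 1 := by linarith
    -- choose a good direction
    have hcont : Continuous fun θ : ℝ => (ρ : ℂ) * exp ((θ : ℂ) * I) := by fun_prop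
    have hmem : ∀ θ : ℝ, (ρ : ℂ) * exp ((θ : ℂ) * I) ∈ ball (0:ℂ) 1 := by
      intro θ
      rw [mem_ball_zero_iff, norm_mul, norm_exp_ofReal_mul_I, mul_one, norm_real,
        Real.norm_of_nonneg hρ0]
      exact hz1
    have hΘc : Continuous fun θ : ℝ => Θ ((ρ : ℂ) * exp ((θ : ℂ) * I)) :=
      hd.continuousOn.comp_continuous hcont hmem
    set U : Set ℝ := {θ : ℝ | ‖Θ ((ρ : ℂ) * exp ((θ : ℂ) * I))‖ < 1 / 2} ∩
      {θ : ℝ | ‖z - (ρ : ℂ) * exp ((θ : ℂ) * I)‖ < δ} with hU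
    have hUo : IsOpen U := (isOpen_lt hΘc.norm continuous_const).inter
      (isOpen_lt (continuous_const.sub hcont).norm continuous_const)
    have hUne : U.Nonempty := by
      refine ⟨arg z, ?_, ?_⟩
      · simp only [mem_ofPred_eq, hρ, norm_mul_exp_arg_mul_I]
        exact hzs
      · simp only [mem_ofPred_eq, hρ, norm_mul_exp_arg_mul_I, sub_self, norm_zero]
        exact hδ0
    have hae : ∀ᵐ θ : ℝ, ∃ r > (0:ℝ), ∃ g : ℂ → ℂ,
        DifferentiableOn ℂ g (ball (exp ((θ:ℂ) * I)) r) ∧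
        EqOn g Θ (ball (exp ((θ:ℂ) * I)) r ∩ ball 0 1) := by
      rw [ae_iff]
      exact hnull
    obtain ⟨θ, ⟨hθ1, hθ2⟩, ⟨r, hr, g, hg, hgΘ⟩, w, hw1, hw⟩ :=
      Measure.exists_mem_of_measure_ne_zero_of_ae (hUo.measure_ne_zero volume hUne)
        (ae_restrict_of_ae (hae.and hl))
    set ζ := exp ((θ : ℂ) * I) with hζ
    have hζ1 : ‖ζ‖ = 1 := norm_exp_ofReal_mul_I θ
    have hg1 : ‖g ζ‖ = 1 := by
      have hc : ContinuousAt (fun t : ℝ => (t : ℂ) * ζ) 1 := by fun_prop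
      have h1 : Tendsto (fun t : ℝ => g (t * ζ)) (𝓝[<] 1) (𝓝 (g ζ)) := by
        have := ContinuousAt.comp_of_eq
          (hg.continuousOn.continuousAt (ball_mem_nhds ζ hr)) hc (by simp)
        have h2 := this.tendsto.mono_left (nhdsWithin_le_nhds (s := Iio (1:ℝ)))
        simpa [Function.comp_def] using h2
      have hev : ∀ᶠ t : ℝ in 𝓝 1, (t * ζ : ℂ) ∈ ball ζ r := by
        apply hc.eventually
        simp only [ofReal_one, one_mul]
        exact ball_mem_nhds ζ hr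
      have h2 : Tendsto (fun t : ℝ => g (t * ζ)) (𝓝[<] 1) (𝓝 w) := by
        refine hw.congr' ?_
        filter_upwards [Ioo_mem_nhdsLT (by norm_num : (0:ℝ) < 1), nhdsWithin_le_nhds hev]
          with t ht ht2
        refine (hgΘ ⟨ht2, ?_⟩).symm
        rw [mem_ball_zero_iff, norm_mul, hζ1, mul_one, norm_real, Real.norm_of_nonneg ht.1.le]
        exact ht.2
      rw [tendsto_nhds_unique h1 h2, hw1]
    have hJ := le_norm_deriv hd hb hζ1 hρ0 hz1 hθ1 hr hg hgΘ hg1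
    have hWδ := hW.pos δ hδ0
    have h1 : (if 1 < ‖deriv g ζ‖ then W (1 / ‖deriv g ζ‖) else W 1) ≤ 8 * W δ := by
      have h8 : 0 < 1 / (8 * δ) := by positivity
      split_ifs with h
      · apply hW.le_mul hδ0 (by positivity) (by norm_num)
        rw [div_le_iff₀ (by linarith)]
        rw [div_le_iff₀ (by positivity)] at hJ
        linarith
      · apply hW.le_mul hδ0 one_pos (by norm_num)
        rw [div_le_iff₀ (by positivity)] at hJ
        push Not at h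
        nlinarith
    have h1' : 0 ≤ (if 1 < ‖deriv g ζ‖ then W (1 / ‖deriv g ζ‖) else W 1) := by
      split_ifs with h
      · exact (hW.pos _ (by positivity)).le
      · exact (hW.pos _ one_pos).le
    have h2 : ‖f ζ‖ ≤ |C| * (8 * W δ) := by
      refine (hC ζ hζ1 r hr g hg hgΘ).trans ?_
      exact mul_le_mul (le_abs_self C) h1 h1' (abs_nonneg C)
    have h3 : ‖z - ζ‖ ≤ 2 * δ := by
      have h4 : ‖(ρ : ℂ) * ζ - ζ‖ = δ := by
        have : (ρ : ℂ) * ζ - ζ = -((δ : ℝ) : ℂ) * ζ := by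
          rw [hδ]
          push_cast
          ring
        rw [this, norm_mul, hζ1, mul_one, norm_neg, norm_real, Real.norm_of_nonneg hδ0.le]
      have h5 := norm_sub_le_norm_sub_add_norm_sub z (ρ * ζ) ζ
      have h6 : ‖z - (ρ : ℂ) * ζ‖ < δ := hθ2
      linarith
    have h4 : W ‖z - ζ‖ ≤ 2 * W δ :=
      hW.le_mul hδ0 (hδ0.trans_le (hdist hζ1)) (by norm_num) h3
    have h5 := hint hz hζ1
    calc ‖f z‖ ≤ ‖f ζ‖ + ‖f z - f ζ‖ := norm_le_insert' _ _
      _ ≤ |C| * (8 * W δ) + 4 * A * (2 * W δ) := by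
          refine add_le_add h2 (h5.trans ?_)
          gcongr
      _ = _ := by ring
  · rintro ⟨ε, hε, C, hC⟩
    have hkey : ∀ ζ : ℂ, ‖ζ‖ = 1 → ∀ d : ℝ, ∀ z ∈ ball (0:ℂ) 1, z ∈ ball ζ d → ‖Θ z‖ < ε →
        ‖f ζ‖ ≤ (|C| + 4 * A) * W d := by
      intro ζ hζ d z hz hzd hzε
      have hz1 : ‖z‖ < 1 := mem_ball_zero_iff.mp hz
      rw [mem_ball, dist_eq_norm] at hzd
      have h0 : 0 < 1 - ‖z‖ := by linarith
      have h1 : W (1 - ‖z‖) ≤ W d := hW.mono _ _ h0 ((hdist hζ).trans hzd.le)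
      have h2 : W ‖z - ζ‖ ≤ W d := hW.mono _ _ (h0.trans_le (hdist hζ)) hzd.le
      have h3 : ‖f z‖ ≤ |C| * W d :=
        (hC z hz hzε).trans (mul_le_mul (le_abs_self C) h1 (hW.pos _ h0).le (abs_nonneg C))
      have h4 := hint hz hζ
      calc ‖f ζ‖ ≤ ‖f z‖ + ‖f z - f ζ‖ := norm_le_insert _ _
        _ ≤ |C| * W d + 4 * A * W d := by
            refine add_le_add h3 (h4.trans ?_)
            gcongr
        _ = _ := by ring
    constructor
    · refine measure_mono_null ?_ (volume_boundary_zeros hfd hfc hne)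
      intro θ hθ
      by_contra h0
      apply hθ
      have hpos : 0 < ‖f (exp ((θ : ℂ) * I))‖ := norm_pos_iff.mpr h0
      have h1 : Tendsto (fun d => (|C| + 4 * A) * W d) (𝓝[>] 0) (𝓝 0) := by
        simpa using hW.lim.const_mul (|C| + 4 * A)
      obtain ⟨d, hd1, hd2⟩ := ((h1.eventually (gt_mem_nhds hpos)).and
        (Ioo_mem_nhdsGT (by norm_num : (0:ℝ) < 1))).exists
      apply exists_continuation hd hb hl hε.1 hε.2.le hd2.1 hd2.2.le θ
      intro z hz hzd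
      by_contra hlt
      push Not at hlt
      have := hkey _ (norm_exp_ofReal_mul_I θ) d z hz hzd hlt
      linarith
    · obtain ⟨M, hM⟩ := (isCompact_closedBall (0:ℂ) 1).exists_bound_of_continuousOn hfc
      have hM0 : 0 ≤ M := (norm_nonneg _).trans (hM 0 (by simp))
      have hε0 := hε.1
      have hε1 := hε.2
      have hW5 : 0 < W (ε / 5) := hW.pos _ (by positivity)
      refine ⟨M / W (ε / 5) + (|C| + 4 * A) * (5 / ε), fun ζ hζ r hr g hg hgΘ => ?_⟩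
      have hc1 : 0 ≤ M / W (ε / 5) := by positivity
      have hc2 : 0 ≤ (|C| + 4 * A) * (5 / ε) := by positivity
      by_cases hbig : 5 / ε ≤ ‖deriv g ζ‖
      · have h5 : 1 < 5 / ε := by
          rw [one_lt_div hε0]
          linarith
        have hD1 : 1 < ‖deriv g ζ‖ := h5.trans_le hbig
        have hD0 : 0 < ‖deriv g ζ‖ := by linarith
        rw [if_pos hD1]
        set d : ℝ := 5 / ε * (1 / ‖deriv g ζ‖) with hdd
        have hd0 : 0 < d := by positivity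
        have hd1 : d ≤ 1 := by
          rw [hdd, mul_one_div, div_le_one hD0]
          exact hbig
        have hex : ∃ z ∈ ball (0:ℂ) 1, z ∈ ball ζ d ∧ ‖Θ z‖ < ε := by
          by_contra hcon
          push Not at hcon
          have h1 := norm_deriv_le hd hb hl hε0 hε1.le hd0 hd1 hζ hcon hr hg hgΘ
          have h2 : 4 / (ε * d) = 4 / 5 * ‖deriv g ζ‖ := by
            rw [hdd]
            field_simp
          rw [h2] at h1
          linarith
        obtain ⟨z, hz, hzd, hzε⟩ := hex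
        have h1 := hkey ζ hζ d z hz hzd hzε
        have h2 : W d ≤ 5 / ε * W (1 / ‖deriv g ζ‖) :=
          hW.le_mul (by positivity) hd0 h5.le le_rfl
        have h3 := hW.pos (1 / ‖deriv g ζ‖) (by positivity)
        calc ‖f ζ‖ ≤ (|C| + 4 * A) * (5 / ε * W (1 / ‖deriv g ζ‖)) := h1.trans (by gcongr)
          _ = (0 + (|C| + 4 * A) * (5 / ε)) * W (1 / ‖deriv g ζ‖) := by ring
          _ ≤ _ := by gcongr
      · push Not at hbig
        have h1 : W (ε / 5) ≤ (if 1 < ‖deriv g ζ‖ then W (1 / ‖deriv g ζ‖) else W 1) := by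
          split_ifs with h
          · apply hW.mono _ _ (by positivity)
            rw [lt_div_iff₀ hε0] at hbig
            rw [div_le_div_iff₀ (by norm_num) (by linarith)]
            linarith
          · exact hW.mono _ _ (by positivity) (by linarith)
        calc ‖f ζ‖ ≤ M := hM ζ (by simp [hζ])
          _ = (M / W (ε / 5) + 0) * W (ε / 5) := by field_simp; ring
          _ ≤ _ := by gcongr

end Pool.Agent.P.MP_32de40_an
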