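import Mathlib

set_option autoImplicit false

open Complex Set Metric Filter Topology MeasureTheory

namespace Pool.Agent.P.MP_32de40_an

/-- A function continuous on an open set and holomorphic off the real axis is holomorphic. -/
theorem differentiableOn_of_off_real {U : Set ℂ} (hU : IsOpen U) {H : ℂ → ℂ}
    (hc : ContinuousOn H U) (hd : ∀ z ∈ U, z.im ≠ 0 → DifferentiableAt ℂ H z) :
    DifferentiableOn ℂ H U := by
  rw [← isConservativeOn_and_continuousOn_iff_isDifferentiableOn hU]
  refine ⟨?_, hc⟩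
  have key : ∀ z w : ℂ, Rectangle z w ⊆ U → (0:ℝ) ∉ Ioo (min z.im w.im) (max z.im w.im) →
      (∫ x : ℝ in z.re..w.re, H (x + z.im * I)) - (∫ x : ℝ in z.re..w.re, H (x + w.im * I)) +
      I • (∫ y : ℝ in z.im..w.im, H (re w + y * I)) -
      I • (∫ y : ℝ in z.im..w.im, H (re z + y * I)) = 0 := by
    intro z w hzw h0
    apply integral_boundary_rect_eq_zero_of_continuousOn_of_differentiableOn H z w (hc.mono hzw)
    intro p hp
    rw [mem_reProdIm] at hp
    have hpU : p ∈ U := by
      apply hzw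
      rw [Rectangle, mem_reProdIm]
      exact ⟨Ioo_subset_Icc_self hp.1, Ioo_subset_Icc_self hp.2⟩
    refine (hd p hpU ?_).differentiableWithinAt
    intro h
    exact h0 (h ▸ hp.2)
  intro z w hzw
  rw [← add_eq_zero_iff_eq_neg, wedgeIntegral_add_wedgeIntegral_eq]
  by_cases h0 : (0:ℝ) ∈ Ioo (min z.im w.im) (max z.im w.im)
  · have h0' : (0:ℝ) ∈ uIcc z.im w.im := Ioo_subset_Icc_self h0
    have hsub1 : uIcc z.im 0 ⊆ uIcc z.im w.im := uIcc_subset_uIcc left_mem_uIcc h0'
    have hsub2 : uIcc 0 w.im ⊆ uIcc z.im w.im := uIcc_subset_uIcc h0' right_mem_uIcc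
    have k1 := key z (w.re : ℂ) (by
      refine Subset.trans ?_ hzw
      intro p hp
      rw [Rectangle, mem_reProdIm] at hp ⊢
      simp only [ofReal_re, ofReal_im] at hp
      exact ⟨hp.1, hsub1 hp.2⟩) (by
      simp only [ofReal_im, mem_Ioo, not_and, not_lt]
      intro h
      rcases le_total z.im 0 with h1 | h1
      · simp [h1]
      · simp [h1] at h)
    have k2 := key (z.re : ℂ) w (by
      refine Subset.trans ?_ hzw
      intro p hp
      rw [Rectangle, mem_reProdIm] at hp ⊢
      simp only [ofReal_re, ofReal_im] at hp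
      exact ⟨hp.1, hsub2 hp.2⟩) (by
      simp only [ofReal_im, mem_Ioo, not_and, not_lt]
      intro h
      rcases le_total w.im 0 with h1 | h1
      · simp [h1]
      · simp [h1] at h)
    simp only [ofReal_re, ofReal_im] at k1 k2
    have hint : ∀ a : ℝ, a ∈ uIcc z.re w.re → ∀ b c : ℝ, uIcc b c ⊆ uIcc z.im w.im →
        IntervalIntegrable (fun y : ℝ => H (a + y * I)) volume b c := by
      intro a ha b c hbc
      apply ContinuousOn.intervalIntegrable
      apply hc.comp (by fun_prop)
      intro y hy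
      apply hzw
      rw [Rectangle, mem_reProdIm]
      simpa using ⟨ha, hbc hy⟩
    have e1 := intervalIntegral.integral_add_adjacent_intervals
      (hint w.re right_mem_uIcc _ _ hsub1) (hint w.re right_mem_uIcc _ _ hsub2)
    have e2 := intervalIntegral.integral_add_adjacent_intervals
      (hint z.re left_mem_uIcc _ _ hsub1) (hint z.re left_mem_uIcc _ _ hsub2)
    rw [← e1, ← e2]
    simp only [smul_eq_mul] at k1 k2 ⊢
    linear_combination k1 + k2
  · exact key z w hzw h0

theorem norm_le_of_abs_le {a b : ℂ} (h1 : |a.re| ≤ |b.re|) (h2 : |a.im| ≤ |b.im|) :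
    ‖a‖ ≤ ‖b‖ := by
  rw [← sq_le_sq₀ (norm_nonneg _) (norm_nonneg _), ← normSq_eq_norm_sq, ← normSq_eq_norm_sq,
    normSq_apply, normSq_apply]
  have h3 := sq_le_sq.mpr h1
  have h4 := sq_le_sq.mpr h2
  nlinarith

/-- Removal of the real axis for a bounded function with almost everywhere matching
vertical limits. -/
theorem exists_extension {R M : ℝ} {F : ℂ → ℂ}
    (hd : ∀ z ∈ ball (0:ℂ) R, z.im ≠ 0 → DifferentiableAt ℂ F z)
    (hb : ∀ z ∈ ball (0:ℂ) R, z.im ≠ 0 → ‖F z‖ ≤ M)
    (hl : ∀ᵐ x : ℝ, |x| < R → ∃ w, Tendsto (fun y : ℝ => F (x + y * I)) (𝓝[≠] 0) (𝓝 w)) :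
    ∃ G : ℂ → ℂ, DifferentiableOn ℂ G (ball 0 R) ∧
      (∀ z ∈ ball (0:ℂ) R, z.im ≠ 0 → G z = F z) ∧ ∀ z ∈ ball (0:ℂ) R, ‖G z‖ ≤ M := by
  classical
  set V : Set ℂ := ball (0:ℂ) R ∩ {z | z.im ≠ 0} with hV
  have hVo : IsOpen V := isOpen_ball.inter (isOpen_ne_fun continuous_im continuous_const)
  set F₀ : ℂ → ℂ := V.piecewise F 0 with hF₀
  have hF₀m : Measurable F₀ := by
    apply ContinuousOn.measurable_piecewise _ continuousOn_const hVo.measurableSet
    intro z hz
    exact (hd z hz.1 hz.2).continuousAt.continuousWithinAt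
  have hF₀b : ∀ z, ‖F₀ z‖ ≤ |M| := by
    intro z
    by_cases hz : z ∈ V
    · rw [hF₀, piecewise_eq_of_mem _ _ _ hz]
      exact (hb z hz.1 hz.2).trans (le_abs_self M)
    · rw [hF₀, piecewise_eq_of_notMem _ _ _ hz]
      simp
  have hF₀V : ∀ z ∈ V, F₀ z = F z := fun z hz => piecewise_eq_of_mem _ _ _ hz
  -- limits along vertical lines
  have hl₀ : ∀ᵐ x : ℝ, ∃ w, Tendsto (fun y : ℝ => F₀ (x + y * I)) (𝓝[≠] 0) (𝓝 w) := by
    filter_upwards [hl] with x hx
    by_cases hxR : |x| < R
    · obtain ⟨w, hw⟩ := hx hxR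
      refine ⟨w, hw.congr' ?_⟩
      have h1 : ∀ᶠ y : ℝ in 𝓝 0, (x + y * I : ℂ) ∈ ball (0:ℂ) R := by
        have : ContinuousAt (fun y : ℝ => (x + y * I : ℂ)) 0 := by fun_prop
        apply this.eventually
        apply isOpen_ball.mem_nhds
        simpa using hxR
      filter_upwards [nhdsWithin_le_nhds h1, self_mem_nhdsWithin] with y hy hy0
      rw [hF₀V]
      refine ⟨hy, ?_⟩
      simpa using hy0
    · refine ⟨0, tendsto_const_nhds.congr ?_⟩
      intro y
      rw [hF₀, piecewise_eq_of_notMem]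
      · simp
      · intro h
        apply hxR
        have h1 := h.1
        rw [mem_ball_zero_iff] at h1
        refine lt_of_le_of_lt ?_ h1
        simpa using abs_re_le_norm (x + y * I : ℂ)
  set F₁ : ℂ → ℂ := fun z =>
    if z.im = 0 then limUnder (𝓝[≠] (0:ℝ)) (fun y : ℝ => F₀ (z.re + y * I)) else F₀ z with hF₁
  have hF₁ne : ∀ z : ℂ, z.im ≠ 0 → F₁ z = F₀ z := by
    intro z hz
    simp [hF₁, hz]
  have hF₁V : ∀ z ∈ V, F₁ z = F z := fun z hz => (hF₁ne z hz.2).trans (hF₀V z hz)
  have hF₁d : ∀ z ∈ V, DifferentiableAt ℂ F₁ z := by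
    intro z hz
    refine (hd z hz.1 hz.2).congr_of_eventuallyEq ?_
    filter_upwards [hVo.mem_nhds hz] with u hu using hF₁V u hu
  have hl₁ : ∀ᵐ x : ℝ, Tendsto (fun y : ℝ => F₀ (x + y * I)) (𝓝[≠] 0) (𝓝 (F₁ x)) := by
    filter_upwards [hl₀] with x hx
    have : F₁ x = limUnder (𝓝[≠] (0:ℝ)) (fun y : ℝ => F₀ (x + y * I)) := by simp [hF₁]
    rw [this]
    exact tendsto_nhds_limUnder hx
  have hcont₁ : ∀ᵐ x : ℝ, ContinuousAt (fun y : ℝ => F₁ (x + y * I)) 0 := by
    filter_upwards [hl₁] with x hx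
    rw [← continuousWithinAt_compl_self]
    simp only [ContinuousWithinAt, ofReal_zero, zero_mul, add_zero]
    refine hx.congr' ?_
    filter_upwards [self_mem_nhdsWithin] with y hy
    rw [hF₁ne]
    simpa using hy
  have hbd₁ : ∀ y : ℝ, ∀ᵐ x : ℝ, ‖F₁ (x + y * I)‖ ≤ |M| := by
    intro y
    by_cases hy : y = 0
    · subst hy
      filter_upwards [hl₁] with x hx
      simp only [ofReal_zero, zero_mul, add_zero]
      exact le_of_tendsto' hx.norm (fun y => hF₀b _)
    · refine Eventually.of_forall fun x => ?_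
      rw [hF₁ne _ (by simpa using hy)]
      exact hF₀b _
  have hmeas₁ : ∀ y : ℝ, AEStronglyMeasurable (fun x : ℝ => F₁ (x + y * I)) volume := by
    intro y
    by_cases hy : y = 0
    · subst hy
      simp only [ofReal_zero, zero_mul, add_zero]
      refine aestronglyMeasurable_of_tendsto_ae (𝓝[≠] (0:ℝ))
        (f := fun (y : ℝ) (x : ℝ) => F₀ (x + y * I)) (fun y => ?_) hl₁
      exact (hF₀m.comp (by fun_prop)).aestronglyMeasurable
    · have : (fun x : ℝ => F₁ (x + y * I)) = fun x : ℝ => F₀ (x + y * I) := by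
        funext x
        exact hF₁ne _ (by simpa using hy)
      rw [this]
      exact (hF₀m.comp (by fun_prop)).aestronglyMeasurable
  have hintH : ∀ y a b : ℝ, IntervalIntegrable (fun x : ℝ => F₁ (x + y * I)) volume a b := by
    intro y a b
    refine (intervalIntegrable_const (c := |M|)).mono_fun' (hmeas₁ y).restrict ?_
    exact ae_restrict_of_ae (hbd₁ y)
  have hintV : ∀ a b : ℝ, IntervalIntegrable (fun s : ℝ => F₀ (s * I)) volume a b := by
    intro a b
    refine (intervalIntegrable_const (c := |M|)).mono_fun'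
      (hF₀m.comp (by fun_prop)).aestronglyMeasurable ?_
    exact Eventually.of_forall fun s => hF₀b _
  set H : ℂ → ℂ := fun z => (∫ t in (0:ℝ)..z.re, F₁ (t + z.im * I)) +
    I * ∫ s in (0:ℝ)..z.im, F₀ (s * I) with hH
  have hHd : ∀ z ∈ V, HasDerivAt H (F z) z := by
    intro z₀ hz₀
    obtain ⟨ρ, hρ, hρV⟩ := Metric.isOpen_iff.mp hVo z₀ hz₀
    have hdiff : DifferentiableOn ℂ F₁ (ball z₀ ρ) := fun u hu =>
      (hF₁d u (hρV hu)).differentiableWithinAt
    have h1 := hdiff.isConservativeOn.hasDerivAt_wedgeIntegral hdiff.continuousOn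
      (mem_ball_self hρ)
    rw [hF₁V z₀ hz₀] at h1
    refine (h1.const_add (H z₀)).congr_of_eventuallyEq ?_
    filter_upwards [ball_mem_nhds z₀ hρ] with w hw
    -- points on the vertical side
    have hside : ∀ s ∈ uIcc z₀.im w.im, (w.re + s * I : ℂ) ∈ V := by
      intro s hs
      apply hρV
      rw [mem_ball, dist_eq_norm] at hw ⊢
      refine lt_of_le_of_lt ?_ hw
      apply norm_le_of_abs_le
      · simp
      · simpa using abs_sub_left_of_mem_uIcc hs
    have hrect : ∀ t ∈ uIcc 0 w.re, ∀ s ∈ uIcc z₀.im w.im, (t + s * I : ℂ) ∈ V := by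
      intro t ht s hs
      have h2 := hside s hs
      refine ⟨?_, by simpa using h2.2⟩
      have h3 := h2.1
      rw [mem_ball_zero_iff] at h3 ⊢
      refine lt_of_le_of_lt ?_ h3
      apply norm_le_of_abs_le
      · simpa using abs_sub_left_of_mem_uIcc ht
      · simp
    have hC := integral_boundary_rect_eq_zero_of_differentiableOn F₁ (z₀.im * I) w (by
      intro p hp
      rw [mem_reProdIm] at hp
      have := hrect p.re (by simpa using hp.1) p.im (by simpa using hp.2)
      rw [re_add_im] at this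
      exact (hF₁d p this).differentiableWithinAt)
    simp only [mul_re, ofReal_re, I_re, mul_zero, ofReal_im, I_im, mul_one, sub_self, mul_im,
      add_zero, smul_eq_mul, ofReal_zero, zero_add] at hC
    have e1 := intervalIntegral.integral_add_adjacent_intervals (hintH z₀.im 0 z₀.re)
      (hintH z₀.im z₀.re w.re)
    have e2 := intervalIntegral.integral_add_adjacent_intervals (hintV 0 z₀.im)
      (hintV z₀.im w.im)
    have e3 : ∫ s in z₀.im..w.im, F₁ (s * I) = ∫ s in z₀.im..w.im, F₀ (s * I) := by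
      apply intervalIntegral.integral_congr
      intro s hs
      have := (hside s hs).2
      exact hF₁ne _ (by simpa using this)
    simp only [hH, wedgeIntegral, smul_eq_mul]
    rw [← e2]
    linear_combination -hC - e1 - I * e3
  have hHc : ContinuousOn H (ball 0 R) := by
    intro z hz
    apply ContinuousAt.continuousWithinAt
    by_cases hz0 : z.im = 0
    · apply ContinuousAt.add
      · have h1 := intervalIntegral.continuousAt_parametric_primitive_of_dominated
          (μ := volume) (F := fun (y : ℝ) (x : ℝ) => F₁ (x + y * I)) (fun _ => |M|)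
          (-(|z.re| + 1)) (|z.re| + 1) (a₀ := 0) (b₀ := z.re) (x₀ := 0)
          (fun y => (hmeas₁ y).restrict)
          (Eventually.of_forall fun y => ae_restrict_of_ae (hbd₁ y))
          intervalIntegrable_const (ae_restrict_of_ae hcont₁)
          ⟨by linarith [abs_nonneg z.re], by linarith [abs_nonneg z.re]⟩
          ⟨by linarith [neg_abs_le z.re], by linarith [le_abs_self z.re]⟩ (by simp)
        have h2 : ContinuousAt (fun u : ℂ => (u.im, u.re)) z := by fun_prop
        exact ContinuousAt.comp_of_eq h1 h2 (by simp [hz0])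
      · have h1 := intervalIntegral.continuous_primitive hintV 0
        exact (continuous_const.mul (h1.comp continuous_im)).continuousAt
    · exact (hHd z ⟨hz, hz0⟩).continuousAt
  have hHD : DifferentiableOn ℂ H (ball 0 R) :=
    differentiableOn_of_off_real isOpen_ball hHc
      (fun z hz hz0 => (hHd z ⟨hz, hz0⟩).differentiableAt)
  have hG : DifferentiableOn ℂ (deriv H) (ball 0 R) := hHD.deriv isOpen_ball
  have hGF : ∀ z ∈ ball (0:ℂ) R, z.im ≠ 0 → deriv H z = F z := fun z hz hz0 =>
    (hHd z ⟨hz, hz0⟩).deriv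
  refine ⟨deriv H, hG, hGF, ?_⟩
  intro z hz
  by_cases hz0 : z.im = 0
  · have hc : ContinuousAt (fun y : ℝ => (z + y * I : ℂ)) 0 := by fun_prop
    have hc1 : ContinuousAt (deriv H) z := hG.continuousOn.continuousAt (isOpen_ball.mem_nhds hz)
    have h1 : Tendsto (fun y : ℝ => ‖deriv H (z + y * I)‖) (𝓝[≠] 0) (𝓝 ‖deriv H z‖) := by
      apply Tendsto.mono_left _ nhdsWithin_le_nhds
      have := (ContinuousAt.comp_of_eq hc1 hc (by simp)).norm
      simpa [ContinuousAt] using this
    refine le_of_tendsto h1 ?_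
    have h2 : ∀ᶠ y : ℝ in 𝓝 0, (z + y * I : ℂ) ∈ ball (0:ℂ) R := by
      apply hc.eventually
      apply isOpen_ball.mem_nhds
      simpa using hz
    filter_upwards [nhdsWithin_le_nhds h2, self_mem_nhdsWithin] with y hy hy0
    have h3 : (z + y * I : ℂ).im ≠ 0 := by simpa [hz0] using hy0
    rw [hGF _ hy h3]
    exact hb _ hy h3
  · rw [hGF z hz hz0]
    exact hb z hz hz0

end Pool.Agent.P.MP_32de40_an
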