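import Pool.Agent.P.MP_32de40_an.Morera

set_option autoImplicit false

open Complex Set Metric Filter Topology MeasureTheory ComplexConjugate

namespace Pool.Agent.P.MP_32de40_an

theorem exp_neg_tendsto : Tendsto (fun y : ℝ => Real.exp (-y)) (𝓝[>] 0) (𝓝[<] 1) := by
  apply tendsto_nhdsWithin_of_tendsto_nhds_of_eventually_within
  · have : ContinuousAt (fun y : ℝ => Real.exp (-y)) 0 := by fun_prop
    have h := this.tendsto
    simp only [neg_zero, Real.exp_zero] at h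
    exact h.mono_left nhdsWithin_le_nhds
  · filter_upwards [self_mem_nhdsWithin] with y hy
    simp only [mem_Iio]
    rw [Real.exp_lt_one_iff]
    simpa using hy

theorem neg_tendsto : Tendsto (fun y : ℝ => -y) (𝓝[<] 0) (𝓝[>] 0) := by
  apply tendsto_nhdsWithin_of_tendsto_nhds_of_eventually_within
  · have : ContinuousAt (fun y : ℝ => -y) 0 := by fun_prop
    have h := this.tendsto
    simp only [neg_zero] at h
    exact h.mono_left nhdsWithin_le_nhds
  · filter_upwards [self_mem_nhdsWithin] with y hy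
    simpa using hy

/-- Reflection in logarithmic coordinates. -/
theorem exists_ext_exp {Θ : ℂ → ℂ} (hd : DifferentiableOn ℂ Θ (ball 0 1))
    (hb : ∀ z ∈ ball (0:ℂ) 1, ‖Θ z‖ ≤ 1)
    (hl : ∀ᵐ θ : ℝ, ∃ w : ℂ, ‖w‖ = 1 ∧
      Tendsto (fun r : ℝ => Θ ((r : ℂ) * exp ((θ : ℂ) * I))) (𝓝[<] 1) (𝓝 w))
    {ε d : ℝ} (hε : 0 < ε) (hε1 : ε ≤ 1) (hd1 : d ≤ 1) (θ₀ : ℝ)
    (hlow : ∀ z ∈ ball (0:ℂ) 1, z ∈ ball (exp ((θ₀ : ℂ) * I)) d → ε ≤ ‖Θ z‖) :
    ∃ G : ℂ → ℂ, DifferentiableOn ℂ G (ball 0 (d / 2)) ∧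
      (∀ u ∈ ball (0:ℂ) (d / 2), 0 < u.im → G u = Θ (exp ((θ₀ + u) * I))) ∧
      ∀ u ∈ ball (0:ℂ) (d / 2), ‖G u‖ ≤ 1 / ε := by
  classical
  set K : ℂ → ℂ := fun u => Θ (exp ((θ₀ + u) * I)) with hK
  have hin : ∀ u : ℂ, 0 < u.im → exp ((θ₀ + u) * I) ∈ ball (0:ℂ) 1 := by
    intro u hu
    rw [mem_ball_zero_iff, norm_exp, Real.exp_lt_one_iff]
    simpa using hu
  have hin2 : ∀ u ∈ ball (0:ℂ) (d / 2), exp ((θ₀ + u) * I) ∈ ball (exp ((θ₀ : ℂ) * I)) d := by
    intro u hu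
    rw [mem_ball_zero_iff] at hu
    rw [mem_ball, dist_eq_norm, add_mul, exp_add]
    have h1 : exp (θ₀ * I) * exp (u * I) - exp (θ₀ * I) = exp (θ₀ * I) * (exp (u * I) - 1) := by
      ring
    rw [h1, norm_mul, norm_exp_ofReal_mul_I, one_mul]
    have h2 : ‖u * I‖ = ‖u‖ := by simp
    have h3 := norm_exp_sub_one_le (x := u * I) (by rw [h2]; linarith [norm_nonneg u])
    rw [h2] at h3
    linarith
  have hKd : ∀ u : ℂ, 0 < u.im → DifferentiableAt ℂ K u := by
    intro u hu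
    apply DifferentiableAt.comp (g := Θ) (f := fun u : ℂ => exp ((θ₀ + u) * I))
    · exact hd.differentiableAt (isOpen_ball.mem_nhds (hin u hu))
    · fun_prop
  have hKl : ∀ u ∈ ball (0:ℂ) (d / 2), 0 < u.im → ε ≤ ‖K u‖ := fun u hu h0 =>
    hlow _ (hin u h0) (hin2 u hu)
  set F : ℂ → ℂ := fun u => if 0 < u.im then K u else (conj (K (conj u)))⁻¹ with hF
  have hFpos : ∀ u : ℂ, 0 < u.im → F u = K u := by
    intro u hu
    simp [hF, hu]
  have hFneg : ∀ u : ℂ, u.im < 0 → F u = (conj (K (conj u)))⁻¹ := by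
    intro u hu
    simp [hF, hu.le]
  have hconj : ∀ u ∈ ball (0:ℂ) (d / 2), conj u ∈ ball (0:ℂ) (d / 2) := by
    intro u hu
    simpa using hu
  obtain ⟨G, hG1, hG2, hG3⟩ := exists_extension (R := d / 2) (M := 1 / ε) (F := F) (by
      intro u hu hu0
      rcases lt_or_gt_of_ne hu0 with h | h
      · have h1 : DifferentiableAt ℂ (conj ∘ K ∘ conj) u := by
          rw [differentiableAt_conj_conj_iff]
          exact hKd _ (by simpa using h)
        have h2 : (conj ∘ K ∘ conj) u ≠ 0 := by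
          have := hKl _ (hconj u hu) (by simpa using h)
          simp only [Function.comp_apply, ne_eq, map_eq_zero]
          intro h0
          rw [h0, norm_zero] at this
          linarith
        refine (h1.inv h2).congr_of_eventuallyEq ?_
        have : {v : ℂ | v.im < 0} ∈ 𝓝 u :=
          (isOpen_lt continuous_im continuous_const).mem_nhds h
        filter_upwards [this] with v hv
        exact hFneg v hv
      · refine (hKd u h).congr_of_eventuallyEq ?_
        have : {v : ℂ | 0 < v.im} ∈ 𝓝 u :=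
          (isOpen_lt continuous_const continuous_im).mem_nhds h
        filter_upwards [this] with v hv
        exact hFpos v hv)
    (by
      intro u hu hu0
      rcases lt_or_gt_of_ne hu0 with h | h
      · rw [hFneg u h, norm_inv, norm_conj, one_div]
        exact inv_anti₀ hε (hKl _ (hconj u hu) (by simpa using h))
      · rw [hFpos u h]
        refine (hb _ (hin u h)).trans ?_
        rw [le_div_iff₀ hε]
        linarith)
    (by
      have hl' := (measurePreserving_add_left (volume : Measure ℝ) θ₀).quasiMeasurePreserving.ae hl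
      filter_upwards [hl'] with x hx _
      obtain ⟨w, hw1, hw⟩ := hx
      refine ⟨w, ?_⟩
      have hKx : Tendsto (fun y : ℝ => K (x + y * I)) (𝓝[>] 0) (𝓝 w) := by
        refine (hw.comp exp_neg_tendsto).congr fun y => ?_
        simp only [Function.comp_apply, hK]
        congr 1
        rw [ofReal_exp, ← exp_add]
        congr 1
        push_cast
        linear_combination (-(y:ℂ)) * I_mul_I
      rw [← nhdsLT_sup_nhdsGT, tendsto_sup]
      constructor
      · have h1 := hKx.comp neg_tendsto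
        have hw0 : conj w ≠ 0 := by
          intro h0
          rw [map_eq_zero] at h0
          rw [h0, norm_zero] at hw1
          exact zero_ne_one hw1
        have h2 := ((continuous_conj.tendsto w).comp h1).inv₀ hw0
        have h3 : (conj w)⁻¹ = w := by
          rw [inv_eq_of_mul_eq_one_right]
          rw [mul_comm, mul_conj, normSq_eq_norm_sq, hw1]
          simp
        rw [h3] at h2
        refine h2.congr' ?_
        filter_upwards [self_mem_nhdsWithin] with y hy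
        rw [hFneg _ (by simpa using hy)]
        simp
      · refine hKx.congr' ?_
        filter_upwards [self_mem_nhdsWithin] with y hy
        rw [hFpos _ (by simpa using hy)])
  refine ⟨G, hG1, ?_, hG3⟩
  intro u hu h0
  rw [hG2 u hu h0.ne', hFpos u h0]

/-- An inner function bounded below near a boundary point continues analytically across it. -/
theorem exists_continuation {Θ : ℂ → ℂ} (hd : DifferentiableOn ℂ Θ (ball 0 1))
    (hb : ∀ z ∈ ball (0:ℂ) 1, ‖Θ z‖ ≤ 1)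
    (hl : ∀ᵐ θ : ℝ, ∃ w : ℂ, ‖w‖ = 1 ∧
      Tendsto (fun r : ℝ => Θ ((r : ℂ) * exp ((θ : ℂ) * I))) (𝓝[<] 1) (𝓝 w))
    {ε d : ℝ} (hε : 0 < ε) (hε1 : ε ≤ 1) (hd0 : 0 < d) (hd1 : d ≤ 1) (θ₀ : ℝ)
    (hlow : ∀ z ∈ ball (0:ℂ) 1, z ∈ ball (exp ((θ₀ : ℂ) * I)) d → ε ≤ ‖Θ z‖) :
    ∃ r > (0:ℝ), ∃ g : ℂ → ℂ, DifferentiableOn ℂ g (ball (exp ((θ₀ : ℂ) * I)) r) ∧
      EqOn g Θ (ball (exp ((θ₀ : ℂ) * I)) r ∩ ball 0 1) := by
  obtain ⟨G, hG1, hG2, -⟩ := exists_ext_exp hd hb hl hε hε1 hd1 θ₀ hlow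
  set ζ := exp ((θ₀ : ℂ) * I) with hζ
  have hζ0 : ζ ≠ 0 := exp_ne_zero _
  have hζ1 : ‖ζ‖ = 1 := norm_exp_ofReal_mul_I θ₀
  set l : ℂ → ℂ := fun z => -I * log (z / ζ) with hl
  have h1 : ∀ᶠ z in 𝓝 ζ, z / ζ ∈ slitPlane := by
    have : ContinuousAt (fun z : ℂ => z / ζ) ζ := by fun_prop
    apply this.eventually
    apply isOpen_slitPlane.mem_nhds
    simp [hζ0]
  have hld : ∀ z : ℂ, z / ζ ∈ slitPlane → DifferentiableAt ℂ l z := by
    intro z hz
    apply DifferentiableAt.const_mul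
    apply DifferentiableAt.clog (f := fun y => y / ζ) _ hz
    fun_prop
  have h2 : ∀ᶠ z in 𝓝 ζ, l z ∈ ball (0:ℂ) (d / 2) := by
    have := (hld ζ (by simp [hζ0])).continuousAt
    apply this.eventually
    apply isOpen_ball.mem_nhds
    simp [hl, hζ0, hd0]
  obtain ⟨r, hr, hr'⟩ := Metric.eventually_nhds_iff_ball.mp (h1.and h2)
  refine ⟨r, hr, G ∘ l, ?_, ?_⟩
  · intro z hz
    apply DifferentiableAt.differentiableWithinAt
    exact (hG1.differentiableAt (isOpen_ball.mem_nhds (hr' z hz).2)).comp z (hld z (hr' z hz).1)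
  · rintro z ⟨hz, hz1⟩
    have hz0 : z / ζ ≠ 0 := slitPlane_ne_zero (hr' z hz).1
    have him : 0 < (l z).im := by
      have h3 : (l z).im = -Real.log ‖z / ζ‖ := by simp [hl, log_re]
      rw [h3, neg_pos]
      apply Real.log_neg (norm_pos_iff.mpr hz0)
      rw [norm_div, hζ1, div_one]
      simpa using hz1
    rw [Function.comp_apply, hG2 _ (hr' z hz).2 him]
    congr 1
    have h4 : ((θ₀ : ℂ) + l z) * I = θ₀ * I + log (z / ζ) := by
      simp only [hl]
      linear_combination (-log (z / ζ)) * I_mul_I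
    rw [h4, exp_add, exp_log hz0, ← hζ]
    field_simp

/-- The derivative at a boundary point is controlled by the distance to the level set. -/
theorem norm_deriv_le {Θ : ℂ → ℂ} (hd : DifferentiableOn ℂ Θ (ball 0 1))
    (hb : ∀ z ∈ ball (0:ℂ) 1, ‖Θ z‖ ≤ 1)
    (hl : ∀ᵐ θ : ℝ, ∃ w : ℂ, ‖w‖ = 1 ∧
      Tendsto (fun r : ℝ => Θ ((r : ℂ) * exp ((θ : ℂ) * I))) (𝓝[<] 1) (𝓝 w))
    {ε d : ℝ} (hε : 0 < ε) (hε1 : ε ≤ 1) (hd0 : 0 < d) (hd1 : d ≤ 1) {ζ : ℂ} (hζ : ‖ζ‖ = 1)
    (hlow : ∀ z ∈ ball (0:ℂ) 1, z ∈ ball ζ d → ε ≤ ‖Θ z‖)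
    {r : ℝ} (hr : 0 < r) {g : ℂ → ℂ} (hg : DifferentiableOn ℂ g (ball ζ r))
    (hgΘ : EqOn g Θ (ball ζ r ∩ ball 0 1)) :
    ‖deriv g ζ‖ ≤ 4 / (ε * d) := by
  obtain ⟨θ₀, rfl⟩ : ∃ θ₀ : ℝ, ζ = exp ((θ₀ : ℂ) * I) :=
    ⟨arg ζ, by simpa [hζ] using (norm_mul_exp_arg_mul_I ζ).symm⟩
  obtain ⟨G, hG1, hG2, hG3⟩ := exists_ext_exp hd hb hl hε hε1 hd1 θ₀ hlow
  have hd2 : 0 < d / 2 := by linarith
  have hG4 : ‖deriv G 0‖ ≤ (2 / ε) / (d / 2) := by
    apply norm_deriv_le_div_of_mapsTo_ball hG1 _ hd2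
    intro u hu
    rw [mem_closedBall, dist_eq_norm]
    calc ‖G u - G 0‖ ≤ ‖G u‖ + ‖G 0‖ := norm_sub_le _ _
      _ ≤ 1 / ε + 1 / ε := add_le_add (hG3 u hu) (hG3 0 (mem_ball_self hd2))
      _ = 2 / ε := by ring
  set e : ℂ → ℂ := fun u => exp ((θ₀ + u) * I) with he
  have he0 : e 0 = exp ((θ₀ : ℂ) * I) := by simp [he]
  have hea : AnalyticAt ℂ e 0 := by fun_prop
  have hga : AnalyticAt ℂ g (e 0) := by
    rw [he0]
    exact hg.analyticAt (ball_mem_nhds _ hr)
  have hGa : AnalyticAt ℂ G 0 := hG1.analyticAt (ball_mem_nhds _ hd2)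
  have heq : ∀ᶠ u in 𝓝 (0:ℂ), (g ∘ e) u = G u := by
    rw [← (hga.comp hea).frequently_eq_iff_eventually_eq hGa]
    have h1 : ∀ᶠ u in 𝓝 (0:ℂ), e u ∈ ball (exp ((θ₀ : ℂ) * I)) r := by
      apply hea.continuousAt.eventually
      rw [he0]
      exact ball_mem_nhds _ hr
    have h2 : ∃ᶠ u in 𝓝[≠] (0:ℂ), 0 < u.im := by
      have h3 : Tendsto (fun y : ℝ => (y * I : ℂ)) (𝓝[>] 0) (𝓝[≠] 0) := by
        apply tendsto_nhdsWithin_of_tendsto_nhds_of_eventually_within
        · have : ContinuousAt (fun y : ℝ => (y * I : ℂ)) 0 := by fun_prop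
          have h := this.tendsto
          simp only [ofReal_zero, zero_mul] at h
          exact h.mono_left nhdsWithin_le_nhds
        · filter_upwards [self_mem_nhdsWithin] with y hy
          have : y ≠ 0 := ne_of_gt hy
          simpa using this
      apply h3.frequently
      apply Eventually.frequently
      filter_upwards [self_mem_nhdsWithin] with y hy
      simpa using hy
    refine (h2.and_eventually
      (nhdsWithin_le_nhds (h1.and (ball_mem_nhds (0:ℂ) hd2)))).mono ?_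
    rintro u ⟨hu0, hu1, hu2⟩
    rw [hG2 u hu2 hu0, Function.comp_apply]
    apply hgΘ
    refine ⟨hu1, ?_⟩
    rw [mem_ball_zero_iff, he]
    simp only
    rw [norm_exp, Real.exp_lt_one_iff]
    simpa using hu0
  have hed : HasDerivAt e (exp ((θ₀ : ℂ) * I) * I) 0 := by
    have h1 : HasDerivAt (fun u : ℂ => ((θ₀ : ℂ) + u) * I) I 0 := by
      simpa using ((hasDerivAt_id (0:ℂ)).const_add (θ₀ : ℂ)).mul_const I
    simpa using h1.cexp
  have h5 := (hga.differentiableAt.hasDerivAt.comp (0:ℂ) hed).deriv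
  rw [EventuallyEq.deriv_eq heq, he0] at h5
  rw [h5, norm_mul, norm_mul, norm_exp_ofReal_mul_I, norm_I, mul_one, mul_one] at hG4
  refine hG4.trans_eq ?_
  field_simp
  norm_num

end Pool.Agent.P.MP_32de40_an
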